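import Pool.Agent.H484R2.Zeta
import Pool.Agent.H332R2.PIT.Analytic
import Pool.Agent.H126R3.SumQ

/-!
# The sum over the primes of degree one and the Dedekind zeta function
-/

set_option autoImplicit false

open NumberField Filter Topology
open Pool.Agent.H921R2.TatePole (nm R hc R_eq_hc R_le)
open Pool.Agent.H126R3 (Qc Qc_pos Qc_rpow summable_Q)

namespace Q45.HF

section

variable (K : Type) [Field K] [NumberField K]

/-- the coefficients of the logarithm of the zeta function -/
noncomputable def lf (n : ℕ) : ℝ := H332.PIT.LamK K n / Real.log n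

/-- its part away from the primes -/
noncomputable def lg (n : ℕ) : ℝ := if n.Prime then 0 else lf K n

theorem lf_nonneg (n : ℕ) : 0 ≤ lf K n :=
  div_nonneg (H332.PIT.LamK_nonneg n) (Real.log_natCast_nonneg n)

theorem lf_le (n : ℕ) : lf K n ≤ (Module.finrank ℚ K : ℝ) ^ 2 := by
  unfold lf
  rcases Nat.lt_or_ge n 2 with hn | hn
  · have : Real.log n = 0 := by
      interval_cases n <;> simp
    rw [this, div_zero]
    positivity
  · have h0 : 0 < Real.log n := Real.log_pos (by exact_mod_cast (by omega : 1 < n))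
    rw [div_le_iff₀ h0]
    refine (H332.PIT.LamK_le n).trans ?_
    exact mul_le_mul_of_nonneg_left ArithmeticFunction.vonMangoldt_le_log (by positivity)

theorem lf_zero {n : ℕ} (hn : ¬ IsPrimePow n) : lf K n = 0 := by
  have h1 := H332.PIT.LamK_le (K := K) n
  rw [ArithmeticFunction.vonMangoldt_eq_zero_iff.2 hn, mul_zero] at h1
  have h2 := H332.PIT.LamK_nonneg (K := K) n
  rw [lf, le_antisymm h1 h2, zero_div]

theorem lf_prime (p : Nat.Primes) : lf K p = R K p := by
  have h0 : 0 < Real.log (p : ℕ) := Real.log_pos (by exact_mod_cast p.2.one_lt)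
  rw [lf, H332.PIT.LamK_prime, mul_div_assoc, div_self h0.ne', mul_one]

theorem lf_term_norm (n : ℕ) (s : ℂ) :
    ‖LSeries.term (fun n => (lf K n : ℂ)) s n‖ = if n = 0 then 0 else lf K n * (n : ℝ) ^ (-s.re) := by
  rcases eq_or_ne n 0 with rfl | hn
  · simp
  · rw [LSeries.term_of_ne_zero hn, if_neg hn, norm_div, Complex.norm_real,
      Real.norm_of_nonneg (lf_nonneg K n), Complex.norm_natCast_cpow_of_pos (Nat.pos_of_ne_zero hn),
      Real.rpow_neg (by positivity), div_eq_mul_inv]

theorem lf_summable {s : ℂ} (hs : 1 < s.re) : LSeriesSummable (fun n => (lf K n : ℂ)) s := by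
  have h : Summable fun n : ℕ => (Module.finrank ℚ K : ℝ) ^ 2 * (n : ℝ) ^ (-s.re) :=
    (Real.summable_nat_rpow.2 (by linarith)).mul_left _
  refine Summable.of_norm_bounded h fun n => ?_
  rw [lf_term_norm]
  split_ifs with hn
  · positivity
  · exact mul_le_mul_of_nonneg_right (lf_le K n) (by positivity)

theorem absc_lf : LSeries.abscissaOfAbsConv (fun n => (lf K n : ℂ)) ≤ 1 := by
  refine LSeries.abscissaOfAbsConv_le_of_forall_lt_LSeriesSummable (x := 1) fun y hy => ?_
  exact lf_summable K (by simpa using hy)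

theorem Qc_inj : Function.Injective (Qc : Nat.Primes × ℕ → ℕ) := by
  rintro ⟨p, k⟩ ⟨q, l⟩ h
  have h' : (p : ℕ) ^ (k + 1) = (q : ℕ) ^ (l + 1) := h
  have h1 := Nat.Prime.pow_inj' p.2 q.2 (Nat.succ_ne_zero k) (Nat.succ_ne_zero l) h'
  exact Prod.ext (Subtype.ext h1.1) (by have := h1.2; simp only; omega)

theorem lg_summable {s : ℂ} (hs : 1 / 2 < s.re) : LSeriesSummable (fun n => (lg K n : ℂ)) s := by
  have hsup : Function.support (fun n : ℕ => LSeries.term (fun n => (lg K n : ℂ)) s n) ⊆
      Set.range (Qc : Nat.Primes × ℕ → ℕ) := by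
    intro n hn
    by_contra h
    apply hn
    have h1 : ¬ IsPrimePow n := by
      intro h2
      obtain ⟨p, k, hp, hk, rfl⟩ := (isPrimePow_nat_iff n).1 h2
      exact h ⟨(⟨p, hp⟩, k - 1), by rw [Qc]; simp only; congr 1; omega⟩
    rcases eq_or_ne n 0 with rfl | hn0
    · simp
    · simp only
      rw [LSeries.term_of_ne_zero hn0, lg]
      split_ifs
      · simp
      · rw [lf_zero K h1]
        simp
  have hinj := Qc_inj
  unfold LSeriesSummable
  rw [← hinj.summable_iff (fun c hc => by
    by_contra h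
    exact hc (hsup h))]
  have h1 := (summable_Q s.re (by linarith) 1 (by push_cast; linarith)).mul_left
    ((Module.finrank ℚ K : ℝ) ^ 2)
  refine Summable.of_norm_bounded h1 fun c => ?_
  have hc0 : Qc c ≠ 0 := (Qc_pos c).ne'
  rw [Function.comp, LSeries.term_of_ne_zero hc0, norm_div,
    Complex.norm_natCast_cpow_of_pos (Qc_pos c), Complex.norm_real]
  by_cases hc : 1 ≤ c.2
  · rw [if_pos hc, Real.rpow_neg (by positivity), ← div_eq_mul_inv]
    refine div_le_div_of_nonneg_right ?_ (by positivity)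
    unfold lg
    split_ifs
    · rw [norm_zero]
      positivity
    · rw [Real.norm_of_nonneg (lf_nonneg K _)]
      exact lf_le K _
  · rw [if_neg hc, mul_zero]
    have h2 : (Qc c).Prime := by
      have : c.2 = 0 := by omega
      rw [Qc, this, zero_add, pow_one]
      exact c.1.2
    rw [lg, if_pos h2, norm_zero, zero_div]

theorem absc_lg : LSeries.abscissaOfAbsConv (fun n => (lg K n : ℂ)) ≤ ((1 / 2 : ℝ) : EReal) := by
  refine LSeries.abscissaOfAbsConv_le_of_forall_lt_LSeriesSummable fun y hy => ?_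
  exact lg_summable K (by simpa using hy)

/-- the part away from the primes is holomorphic on `Re z > 1/2` -/
theorem lg_diff {s : ℂ} (hs : 1 / 2 < s.re) : DifferentiableAt ℂ (LSeries fun n => (lg K n : ℂ)) s :=
  (LSeries_hasDerivAt (lt_of_le_of_lt (absc_lg K) (by exact_mod_cast hs))).differentiableAt

theorem split {s : ℂ} (hs : 1 < s.re) : LSeries (fun n => (lf K n : ℂ)) s =
    ∑' p : Nat.Primes, (R K p : ℂ) * ((p : ℕ) : ℂ) ^ (-s) + LSeries (fun n => (lg K n : ℂ)) s := by
  have h1 := lf_summable K hs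
  have h2 := lg_summable K (s := s) (by linarith)
  have h3 : ∀ n : ℕ, LSeries.term (fun n => (lf K n : ℂ)) s n =
      (if n.Prime then LSeries.term (fun n => (lf K n : ℂ)) s n else 0) +
      LSeries.term (fun n => (lg K n : ℂ)) s n := by
    intro n
    by_cases hn : n.Prime
    · rw [if_pos hn, LSeries.term_of_ne_zero hn.ne_zero, LSeries.term_of_ne_zero hn.ne_zero, lg,
        if_pos hn]
      simp
    · rw [if_neg hn, zero_add]
      rcases eq_or_ne n 0 with rfl | hn0
      · simp
      · rw [LSeries.term_of_ne_zero hn0, LSeries.term_of_ne_zero hn0, lg, if_neg hn]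
  have h4 : Summable fun n : ℕ => (if n.Prime then LSeries.term (fun n => (lf K n : ℂ)) s n else 0) := by
    have h6 : Summable fun n : ℕ => LSeries.term (fun n => (lf K n : ℂ)) s n -
        LSeries.term (fun n => (lg K n : ℂ)) s n := Summable.sub h1 h2
    refine h6.congr fun n => ?_
    have h7 := h3 n
    exact (eq_sub_of_add_eq h7.symm).symm
  have h5 : ∑' n : ℕ, (if n.Prime then LSeries.term (fun n => (lf K n : ℂ)) s n else 0) =
      ∑' p : Nat.Primes, (R K p : ℂ) * ((p : ℕ) : ℂ) ^ (-s) := by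
    have hinj : Function.Injective (fun p : Nat.Primes => (p : ℕ)) := Subtype.val_injective
    rw [← hinj.tsum_eq]
    · refine tsum_congr fun p => ?_
      rw [if_pos p.2, LSeries.term_of_ne_zero p.2.ne_zero, lf_prime, Complex.cpow_neg,
        div_eq_mul_inv]
      push_cast
      rfl
    · intro n hn
      rw [Function.mem_support] at hn
      by_cases h : n.Prime
      · exact ⟨⟨n, h⟩, rfl⟩
      · rw [if_neg h] at hn
        exact absurd rfl hn
  rw [LSeries, LSeries, ← h5, ← h4.tsum_add h2]
  exact tsum_congr h3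

/-- the logarithm of the zeta function -/
theorem zeta_const : ∃ c : ℂ, c ≠ 0 ∧ ∀ s : ℂ, 1 < s.re →
    dedekindZeta K s * Complex.exp (-LSeries (fun n => (lf K n : ℂ)) s) = c := by
  set g : ℂ → ℂ := fun s => dedekindZeta K s * Complex.exp (-LSeries (fun n => (lf K n : ℂ)) s)
    with hg
  have hopen : IsOpen {s : ℂ | 1 < s.re} := isOpen_lt continuous_const Complex.continuous_re
  have hd : ∀ s ∈ {s : ℂ | 1 < s.re}, HasDerivAt g 0 s := by
    intro s hs
    have hs' : 1 < s.re := hs
    have h1 := (H332.PIT.zeta_diffAt (K := K) hs').hasDerivAt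
    have h2 : HasDerivAt (LSeries fun n => (lf K n : ℂ)) (-H332.PIT.LL K s) s := by
      have h3 := LSeries_hasDerivAt (f := fun n => (lf K n : ℂ)) (s := s)
        (lt_of_le_of_lt (absc_lf K) (by exact_mod_cast hs'))
      convert h3 using 2
      unfold H332.PIT.LL
      refine LSeries_congr (fun {n} hn => ?_) s
      unfold LSeries.logMul
      have h4 : Complex.log (n : ℂ) = ((Real.log n : ℝ) : ℂ) := (Complex.natCast_log).symm
      rw [h4]
      simp only [lf]
      rcases eq_or_ne n 1 with rfl | hn1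
      · have h5 := H332.PIT.LamK_le (K := K) 1
        rw [ArithmeticFunction.vonMangoldt_apply_one, mul_zero] at h5
        rw [le_antisymm h5 (H332.PIT.LamK_nonneg 1)]
        simp
      · have h6 : Real.log n ≠ 0 := (Real.log_pos (by exact_mod_cast (by omega : 1 < n))).ne'
        have h7 : ((Real.log n : ℝ) : ℂ) ≠ 0 := by exact_mod_cast h6
        rw [Complex.ofReal_div, mul_div_assoc', mul_comm, mul_div_assoc, div_self h7, mul_one]
    have h5 := h1.mul h2.neg.cexp
    refine h5.congr_deriv ?_
    rw [H332.PIT.deriv_zeta hs']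
    ring
  have h2 : (2 : ℂ) ∈ {s : ℂ | 1 < s.re} := by simp
  refine ⟨g 2, ?_, ?_⟩
  · rw [hg]
    exact mul_ne_zero (H332.PIT.zeta_ne_zero (K := K) h2) (Complex.exp_ne_zero _)
  · intro s hs
    exact hopen.is_const_of_deriv_eq_zero (convex_halfSpace_re_gt 1).isPreconnected
      (fun w hw => (hd w hw).differentiableAt.differentiableWithinAt)
      (fun w hw => (hd w hw).deriv) hs h2

/-- the exponential of the sum over the primes of degree one -/
theorem exp_primes : ∃ H : ℂ → ℂ, (∀ s : ℂ, 1 / 2 < s.re → AnalyticAt ℂ H s ∧ H s ≠ 0) ∧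
    ∀ s : ℂ, 1 < s.re →
      Complex.exp (-∑' p : Nat.Primes, (R K p : ℂ) * ((p : ℕ) : ℂ) ^ (-s)) =
        H s / dedekindZeta K s := by
  obtain ⟨c, hc, h⟩ := zeta_const K
  have hopen : IsOpen {s : ℂ | 1 / 2 < s.re} := isOpen_lt continuous_const Complex.continuous_re
  refine ⟨fun s => c * Complex.exp (LSeries (fun n => (lg K n : ℂ)) s), fun s hs => ⟨?_, ?_⟩, ?_⟩
  · have h1 : DifferentiableOn ℂ (fun s => c * Complex.exp (LSeries (fun n => (lg K n : ℂ)) s))
        {s : ℂ | 1 / 2 < s.re} := fun w hw =>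
      ((lg_diff K hw).cexp.const_mul c).differentiableWithinAt
    exact h1.analyticAt (hopen.mem_nhds hs)
  · exact mul_ne_zero hc (Complex.exp_ne_zero _)
  · intro s hs
    have hz := H332.PIT.zeta_ne_zero (K := K) hs
    rw [eq_div_iff hz, ← h s hs, split K hs, neg_add, Complex.exp_add]
    have h1 : Complex.exp (-LSeries (fun n => (lg K n : ℂ)) s) *
        Complex.exp (LSeries (fun n => (lg K n : ℂ)) s) = 1 := by
      rw [← Complex.exp_add, neg_add_cancel, Complex.exp_zero]
    linear_combination (- dedekindZeta K s * Complex.exp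
      (-∑' p : Nat.Primes, (R K p : ℂ) * ((p : ℕ) : ℂ) ^ (-s))) * h1

/-- the behaviour of the zeta function at a point of the line -/
theorem zeta_line (t : ℝ) : ∃ g : ℂ → ℂ, AnalyticAt ℂ g (1 + t * Complex.I) ∧
    g (1 + t * Complex.I) ≠ 0 ∧
    ∀ᶠ z in 𝓝 ((1 : ℂ) + t * Complex.I), 1 < z.re → g z = (z - 1) * dedekindZeta K z := by
  obtain ⟨g, h1, h2⟩ := Pool.Agent.H484R2.continuation K t
  exact ⟨g, h1, H332.PIT.cont_ne_zero (K := K) (fun t => Pool.Agent.H484R2.continuation K t) t h1 h2,
    h2⟩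

end

end Q45.HF
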