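import Pool.Agent.Q45.HF.Fun3
import Pool.Agent.Q45.RG.Rank

/-!
# The class group of the generic member of the net over the fibre power
-/

set_option autoImplicit false
set_option maxHeartbeats 1000000

open Polynomial Pool.Agent.TH943.HJ Finset

namespace Q45.HF

open Q45.UH Q45.RG
open Pool.Agent.TH958.FP (RR yR yR_sq RR_domain RR_base_inj eigen yK sK sK_y yK_sq K_adjoin
  RR_expand)

section

variable {O τ : Type} [CommRing O] [IsDomain O] [CharZero O] {r : ℕ} {f : (MvPolynomial τ O)[X]}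
  (hf : f.Monic) (hn : 3 ≤ f.natDegree) (hodd : Odd f.natDegree) {K : Type} [Field K]
  [Algebra (MvPolynomial (Idx τ r) O) K] [Algebra (FR f r) K]
  [IsScalarTower (MvPolynomial (Idx τ r) O) (FR f r) K] [IsFractionRing (FR f r) K]

/-! ### the fields of the points -/

/-- `h_1 ↦ h_1`, `y_j ↦ y_j` -/
noncomputable def gj (f : (MvPolynomial τ O)[X]) {r : ℕ} (K : Type) [Field K]
    [Algebra (MvPolynomial (Idx τ r) O) K] [Algebra (FR f r) K] (j : Fin r) :
    MvPolynomial (Idx τ r) O →+* K :=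
  MvPolynomial.eval₂Hom ((algebraMap (MvPolynomial (Idx τ r) O) K).comp MvPolynomial.C) (fun
    | none => algebraMap (MvPolynomial (Idx τ r) O) K (MvPolynomial.X (some none))
    | some none => yy f K j
    | some (some k) => algebraMap (MvPolynomial (Idx τ r) O) K (MvPolynomial.X (some (some k))))

omit [IsDomain O] [CharZero O] [IsScalarTower (MvPolynomial (Idx τ r) O) (FR f r) K]
  [IsFractionRing (FR f r) K] in
theorem gj_C (j : Fin r) (a : O) : gj f K j (MvPolynomial.C a) =
    algebraMap (MvPolynomial (Idx τ r) O) K (MvPolynomial.C a) := by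
  rw [gj, MvPolynomial.coe_eval₂Hom, MvPolynomial.eval₂_C]
  rfl

omit [IsDomain O] [CharZero O] [IsScalarTower (MvPolynomial (Idx τ r) O) (FR f r) K]
  [IsFractionRing (FR f r) K] in
theorem gj_none (j : Fin r) : gj f K j (MvPolynomial.X none) =
    algebraMap (MvPolynomial (Idx τ r) O) K (MvPolynomial.X (some none)) := by
  rw [gj, MvPolynomial.coe_eval₂Hom, MvPolynomial.eval₂_X]

omit [IsDomain O] [CharZero O] [IsScalarTower (MvPolynomial (Idx τ r) O) (FR f r) K]
  [IsFractionRing (FR f r) K] in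
theorem gj_one (j : Fin r) : gj f K j (MvPolynomial.X (some none)) = yy f K j := by
  rw [gj, MvPolynomial.coe_eval₂Hom, MvPolynomial.eval₂_X]

omit [IsDomain O] [CharZero O] [IsScalarTower (MvPolynomial (Idx τ r) O) (FR f r) K]
  [IsFractionRing (FR f r) K] in
theorem gj_some (j : Fin r) (k : τ ⊕ Fin r) : gj f K j (MvPolynomial.X (some (some k))) =
    algebraMap (MvPolynomial (Idx τ r) O) K (MvPolynomial.X (some (some k))) := by
  rw [gj, MvPolynomial.coe_eval₂Hom, MvPolynomial.eval₂_X]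

omit [IsDomain O] [CharZero O] [IsScalarTower (MvPolynomial (Idx τ r) O) (FR f r) K]
  [IsFractionRing (FR f r) K] in
theorem gj_jP (j : Fin r) : (gj f K j).comp (jP O τ r) =
    (algebraMap (MvPolynomial (Idx τ r) O) K).comp (jP O τ r) := by
  apply MvPolynomial.ringHom_ext
  · intro a
    rw [RingHom.comp_apply, RingHom.comp_apply, jP_C, gj_C]
  · intro t
    rw [RingHom.comp_apply, RingHom.comp_apply, jP_X, gj_some]

omit [IsDomain O] [CharZero O] [IsFractionRing (FR f r) K] in
theorem yy_sq' (j : Fin r) : yy f K j ^ 2 =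
    algebraMap (MvPolynomial (Idx τ r) O) K (rad f r j) := by
  rw [yy_sq, rad_map]

omit [CharZero O] [IsFractionRing (FR f r) K] in
theorem gj_th (j : Fin r) : (gj f K j).comp (th f j) = algebraMap (MvPolynomial (Idx τ r) O) K := by
  apply MvPolynomial.ringHom_ext
  · intro a
    rw [RingHom.comp_apply, th_C, gj_C]
  · intro k
    rw [RingHom.comp_apply]
    rcases k with _ | _ | k
    · rw [th_none, map_sub, map_sub, map_pow, map_mul, gj_one, gj_none, gj_some, yy_sq', rad_eq,
        ← eval_map_apply, Polynomial.map_map, gj_jP, gj_some, map_add, map_add, map_mul,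
        ← eval_map_apply, Polynomial.map_map]
      ring
    · rw [th_one, gj_none]
    · rw [th_some, gj_some]

omit [CharZero O] in
theorem th_rad (j : Fin r) : th f j (rad f r j) = MvPolynomial.X (some none) ^ 2 := by
  rw [rad_eq, map_add, map_add, map_mul, th_one, th_none, th_some, ← eval_map_apply,
    Polynomial.map_map, th_jP, th_some]
  ring

omit [CharZero O] in
theorem th_decomp (j : Fin r) (q : MvPolynomial (Idx τ r) O) :
    ∃ p₀ p₁, q = th f j p₀ + th f j p₁ * MvPolynomial.X (some none) := by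
  induction q using MvPolynomial.induction_on with
  | C a => exact ⟨MvPolynomial.C a, 0, by rw [th_C, map_zero, zero_mul, add_zero]⟩
  | add p q hp hq =>
    obtain ⟨p₀, p₁, rfl⟩ := hp
    obtain ⟨q₀, q₁, rfl⟩ := hq
    exact ⟨p₀ + q₀, p₁ + q₁, by rw [map_add, map_add]; ring⟩
  | mul_X p k hp =>
    obtain ⟨p₀, p₁, rfl⟩ := hp
    rcases k with _ | _ | k
    · exact ⟨p₀ * MvPolynomial.X (some none), p₁ * MvPolynomial.X (some none), by
        rw [map_mul, map_mul, th_one]; ring⟩
    · exact ⟨p₁ * rad f r j, p₀, by rw [map_mul, th_rad]; ring⟩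
    · exact ⟨p₀ * MvPolynomial.X (some (some k)), p₁ * MvPolynomial.X (some (some k)), by
        rw [map_mul, map_mul, th_some]; ring⟩

variable [Algebra (Vf O τ r) K] [IsScalarTower (MvPolynomial (Idx τ r) O) (Vf O τ r) K]
  [IsDomain (FR f r)]

include hf hn hodd in
theorem gj_inj (j : Fin r) : Function.Injective (gj f K j) := by
  rw [injective_iff_map_eq_zero]
  intro q hq
  obtain ⟨p₀, p₁, rfl⟩ := th_decomp (f := f) j q
  have hth : ∀ p, gj f K j (th f j p) = algebraMap (MvPolynomial (Idx τ r) O) K p := fun p =>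
    congrArg (fun g : MvPolynomial (Idx τ r) O →+* K => g p) (gj_th (f := f) (K := K) j)
  rw [map_add, map_mul, gj_one, hth, hth] at hq
  obtain ⟨hc, hinj⟩ := charK (r := r) (K := K) hn
  have h1 := congrArg (sg f K j) hq
  rw [map_add, map_mul, sg_P, sg_P, sg_y, if_pos rfl, map_zero] at h1
  obtain ⟨d, N⟩ := netK (r := r) (K := K) hf hn hodd
  have h2 : (2 : K) * algebraMap (MvPolynomial (Idx τ r) O) K p₀ = 0 := by
    linear_combination hq + h1
  have h3 : algebraMap (MvPolynomial (Idx τ r) O) K p₀ = 0 :=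
    (mul_eq_zero.1 h2).resolve_left two_ne_zero
  have h4 : p₀ = 0 := hinj (h3.trans (map_zero _).symm)
  rw [h3, zero_add] at hq
  have h5 : p₁ = 0 := hinj (((mul_eq_zero.1 hq).resolve_right (N.y_ne j)).trans (map_zero _).symm)
  rw [h4, h5, map_zero, zero_mul, add_zero]

include hf hn hodd in
/-- the embedding of the field for the point `j` -/
theorem emb_j (j : Fin r) : ∃ φ : Vf O τ r →+* K, (∀ p, φ (io0 O τ r p) = gj f K j p) ∧
    (gF (Vf O τ r) (fj f j) (Q45.UH.pi (fun _ : Fin 1 => xL O τ j))).map φ = FK f r K ∧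
    ∀ v : Vf O τ r, algebraMap (Vf O τ r) K v ∈ Set.range φ := by
  obtain ⟨φ, hφ⟩ := iA_lift (L := Lf O τ r) (V := Vf O τ r)
    (MvPolynomial.optionEquivLeft O (Option (τ ⊕ Fin r))).toRingEquiv (gj f K j)
    (gj_inj (K := K) hf hn hodd j)
  have hφ' : ∀ p, φ (io0 O τ r p) = gj f K j p := hφ
  have hth : ∀ p, gj f K j (th f j p) = algebraMap (MvPolynomial (Idx τ r) O) K p := fun p =>
    congrArg (fun g : MvPolynomial (Idx τ r) O →+* K => g p) (gj_th (f := f) (K := K) j)
  refine ⟨φ, hφ', ?_, ?_⟩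
  · rw [← fam_th, Polynomial.map_map]
    show (fam f r).map _ = _
    congr 1
    refine RingHom.ext fun p => ?_
    rw [RingHom.comp_apply, RingHom.comp_apply, hφ', hth]
  · intro v
    obtain ⟨a, b, -, rfl⟩ := IsFractionRing.div_surjective (A := MvPolynomial (Idx τ r) O) v
    refine ⟨io0 O τ r (th f j a) / io0 O τ r (th f j b), ?_⟩
    rw [map_div₀, map_div₀, hφ', hφ', hth, hth, ← IsScalarTower.algebraMap_apply,
      ← IsScalarTower.algebraMap_apply]

omit [CharZero O] in
theorem eig0 [CharZero K] (z : K) (hz : ∀ i : Fin r, sg f K i z = z) :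
    z ∈ Set.range (algebraMap (Vf O τ r) K) := by
  have h2 : (2 : Vf O τ r) ≠ 0 := by
    intro h
    have := congrArg (algebraMap (Vf O τ r) K) h
    rw [map_ofNat, map_zero] at this
    exact two_ne_zero this
  obtain ⟨v, hv⟩ := eigen h2 (fun i => yw (f := f) (K := K) i) adj_top
    (fun j i => sg_y (f := f) (K := K) j i) ∅ z (fun j => by simpa using hz j)
  exact ⟨v, by rw [hv, prod_empty, mul_one]⟩

omit [CharZero O] in
theorem eig1 [CharZero K] (j : Fin r) (z : K) (hz : ∀ i, i ≠ j → sg f K i z = z)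
    (hj : sg f K j z = -z) : ∃ v, z = algebraMap (Vf O τ r) K v * yy f K j := by
  have h2 : (2 : Vf O τ r) ≠ 0 := by
    intro h
    have := congrArg (algebraMap (Vf O τ r) K) h
    rw [map_ofNat, map_zero] at this
    exact two_ne_zero this
  obtain ⟨v, hv⟩ := eigen h2 (fun i => yw (f := f) (K := K) i) adj_top
    (fun j i => sg_y (f := f) (K := K) j i) {j} z (fun i => by
      by_cases h : i = j
      · subst h
        simpa using hj
      · rw [if_neg (by simpa using h), hz i h])
  exact ⟨v, by rw [hv, prod_singleton]⟩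

theorem two_V : (2 : Vf O τ r) ≠ 0 := by
  have := charV O τ r
  exact two_ne_zero

variable [IsDedekindDomain (CR (FK f r K))]

include hf hn hodd in
theorem A0 (U V : K[X]) (hr : Red (FK f r K) U V)
    (hU : ∀ i : Fin r, U.map (sg f K i : K →+* K) = U)
    (hV : ∀ i : Fin r, V.map (sg f K i : K →+* K) = V) :
    cM hr.toSemi = 1 := by
  obtain ⟨hc, hinj⟩ := charK (r := r) (K := K) hn
  have D := dt0 (r := r) hf hn hodd
  have hD : IsDedekindDomain (CR (gF (Vf O τ r) (f0 f r)
    (Q45.UH.pi (Fin.elim0 : Fin 0 → Lf O τ r)))) := ded two_V D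
  have h : (gF (Vf O τ r) (f0 f r) (Q45.UH.pi (Fin.elim0 : Fin 0 → Lf O τ r))).map
      (algebraMap (Vf O τ r) K) = FK f r K := by
    rw [FK_eq, fam_io0]
  obtain ⟨c, hc⟩ := desc (algebraMap (Vf O τ r) K) h hr.toSemi
    (fun n => eig0 (f := f) _ fun i => by
      have h9 : (U.map (sg f K i : K →+* K)).coeff n = U.coeff n := by rw [hU i]
      rw [coeff_map] at h9
      exact h9)
    (fun n => eig0 (f := f) _ fun i => by
      have h9 : (V.map (sg f K i : K →+* K)).coeff n = V.coeff n := by rw [hV i]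
      rw [coeff_map] at h9
      exact h9)
  have htop := cl_top (K := Vf O τ r) two_V D
  rw [Set.range_eq_empty, Subgroup.closure_empty] at htop
  have h1 : c = 1 := by
    have h2 : c ∈ (⊤ : Subgroup (ClassGroup (CR (gF (Vf O τ r) (f0 f r)
      (Q45.UH.pi (Fin.elim0 : Fin 0 → Lf O τ r)))))) := Subgroup.mem_top c
    rw [← htop] at h2
    exact Subgroup.mem_bot.1 h2
  rw [← hc, h1, map_one]

include hf hn hodd in
/-- the class of the point comes from the field for the point -/
theorem pt_j (j : Fin r) : ∃ (_ : IsDedekindDomain (CR (gF (Vf O τ r) (fj f j)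
    (Q45.UH.pi (fun _ : Fin 1 => xL O τ j))))) (φ : Vf O τ r →+* K)
    (h : (gF (Vf O τ r) (fj f j) (Q45.UH.pi (fun _ : Fin 1 => xL O τ j))).map φ = FK f r K),
    (∀ v : Vf O τ r, algebraMap (Vf O τ r) K v ∈ Set.range φ) ∧ yy f K j ∈ Set.range φ ∧
    Additive.ofMul (clMap φ h (cl (Vf O τ r) (fj f j) (fun _ => xL O τ j) (fun _ => zL O τ r) 0)) =
      ptc (fun i => yy_sq (f := f) (K := K) i) j := by
  have D := dtj (r := r) hf hn hodd j
  have hD : IsDedekindDomain (CR (gF (Vf O τ r) (fj f j)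
    (Q45.UH.pi (fun _ : Fin 1 => xL O τ j)))) := ded two_V D
  obtain ⟨φ, h1, h, h3⟩ := emb_j (K := K) hf hn hodd j
  refine ⟨hD, φ, h, h3, ⟨_, (h1 _).trans (gj_one j)⟩, ?_⟩
  have hs : Semi (gF (Vf O τ r) (fj f j) (Q45.UH.pi (fun _ : Fin 1 => xL O τ j)))
      (X - C (lk (Lf O τ r) (Vf O τ r) (xL O τ j))) (C (lk (Lf O τ r) (Vf O τ r) (zL O τ r))) :=
    ⟨monic_X_sub_C _, (pts D).dvd 0⟩
  have h5 : clMap φ h (cl (Vf O τ r) (fj f j) (fun _ => xL O τ j) (fun _ => zL O τ r) 0) =
      cM (hs.map' φ h) := clMap_cM φ h hs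
  rw [h5]
  show _ = Additive.ofMul _
  congr 1
  refine cM_congr _ _ ?_ ?_
  · rw [Polynomial.map_sub, map_X, map_C]
    congr 2
    have h6 := h1 (MvPolynomial.X (some (some (Sum.inr j))))
    rw [io0_X, gj_some] at h6
    exact h6
  · rw [map_C]
    congr 1
    have h6 := h1 (MvPolynomial.X (some none))
    rw [io0_X, gj_one] at h6
    exact h6

include hf hn hodd in
theorem A1 (j : Fin r) (U V : K[X]) (hr : Red (FK f r K) U V)
    (hU : ∀ i : Fin r, U.map (sg f K i : K →+* K) = U)
    (hV : ∀ i : Fin r, i ≠ j → V.map (sg f K i : K →+* K) = V) (hj : V.map (sg f K j : K →+* K) = -V) :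
    ∃ n : ℤ, Additive.ofMul (cM hr.toSemi) = n • ptc (fun i => yy_sq (f := f) (K := K) i) j := by
  obtain ⟨hc, hinj⟩ := charK (r := r) (K := K) hn
  obtain ⟨hD, φ, h, h3, h4, h5⟩ := pt_j (K := K) hf hn hodd j
  obtain ⟨c, hc⟩ := desc φ h hr.toSemi
    (fun (n : ℕ) => by
      obtain ⟨v, hv⟩ := eig0 (f := f) (r := r) (U.coeff n) fun i => by
        have h9 : (U.map (sg f K i : K →+* K)).coeff n = U.coeff n := by rw [hU i]
        rw [coeff_map] at h9
        exact h9
      rw [← hv]
      exact h3 v)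
    (fun n => by
      obtain ⟨v, hv⟩ := eig1 (f := f) j (V.coeff n) (fun i hi => by
        have h9 : (V.map (sg f K i : K →+* K)).coeff n = V.coeff n := by rw [hV i hi]
        rw [coeff_map] at h9
        exact h9) (by
        have h9 : (V.map (sg f K j : K →+* K)).coeff n = -V.coeff n := by rw [hj, coeff_neg]
        rw [coeff_map] at h9
        exact h9)
      rw [hv]
      obtain ⟨a, ha⟩ := h3 v
      obtain ⟨b, hb⟩ := h4
      exact ⟨a * b, by rw [map_mul, ha, hb]⟩)
  have htop := cl_top (K := Vf O τ r) two_V (dtj (r := r) hf hn hodd j)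
  have h6 : c ∈ Subgroup.closure (Set.range (cl (Vf O τ r) (fj f j) (fun _ : Fin 1 => xL O τ j)
      (fun _ => zL O τ r))) := by
    rw [htop]
    exact Subgroup.mem_top c
  have h7 : Set.range (cl (Vf O τ r) (fj f j) (fun _ : Fin 1 => xL O τ j) (fun _ => zL O τ r)) =
      {cl (Vf O τ r) (fj f j) (fun _ : Fin 1 => xL O τ j) (fun _ => zL O τ r) 0} := by
    ext d
    constructor
    · rintro ⟨i, rfl⟩
      rw [Subsingleton.elim i 0]
      rfl
    · rintro rfl
      exact ⟨0, rfl⟩
  rw [h7, Subgroup.mem_closure_singleton] at h6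
  obtain ⟨n, rfl⟩ := h6
  refine ⟨n, ?_⟩
  rw [← hc, map_zpow, ofMul_zpow, h5]

include hf hn hodd in
theorem A3 (j : Fin r) (n : ℤ) (hn0 : n ≠ 0) :
    n • ptc (fun i => yy_sq (f := f) (K := K) i) j ≠ 0 := by
  obtain ⟨hc, hinj⟩ := charK (r := r) (K := K) hn
  obtain ⟨h1, h2, h3⟩ := FK_irr (r := r) (K := K) hf hn hodd
  obtain ⟨hD, φ, h, h3', h4, h5⟩ := pt_j (K := K) hf hn hodd j
  intro h0
  rw [← h5, ← ofMul_zpow, ← map_zpow] at h0
  have h6 := clMap_eq_one φ h two_ne_zero (by rw [h3]; exact hodd) h2 _ (ofMul_eq_zero.1 h0)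
  have hind := cl_indep (K := Vf O τ r) two_V (dtj (r := r) hf hn hodd j)
  rw [Fintype.linearIndependent_iff] at hind
  have h7 := hind (fun _ => n) (by
    rw [Fin.sum_univ_one, ← ofMul_zpow, h6]
    rfl) 0
  exact hn0 h7

include hf hn hodd in
theorem A2 (i j : Fin r) (U V : K[X]) (hij : i ≠ j) (hr : Red (FK f r K) U V)
    (h1 : U.map (sg f K i : K →+* K) = U) (h2 : V.map (sg f K i : K →+* K) = -V)
    (h3 : V.map (sg f K j : K →+* K) = -V) : U = 1 ∧ V = 0 := by
  obtain ⟨hc, hinj⟩ := charK (r := r) (K := K) hn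
  obtain ⟨d, N⟩ := netK (r := r) (K := K) hf hn hodd
  exact N.biodd i j hij hr h1 h2 h3

include hf hn hodd in
/-- **The class group of the generic member of the net over the `r`-th fibre power is free of
rank `r`.** -/
theorem rank_K : Module.Free ℤ (Additive (ClassGroup (CR (FK f r K)))) ∧
    Module.Finite ℤ (Additive (ClassGroup (CR (FK f r K)))) ∧
    Module.finrank ℤ (Additive (ClassGroup (CR (FK f r K)))) = r := by
  obtain ⟨hc, hinj⟩ := charK (r := r) (K := K) hn
  obtain ⟨h1, h2, h3⟩ := FK_irr (r := r) (K := K) hf hn hodd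
  obtain ⟨d, N⟩ := netK (r := r) (K := K) hf hn hodd
  refine rank_free (σ := fun i => (sg f K i : K →+* K)) (x := xK O τ K) (y := yy f K) two_ne_zero
    (by rw [h3]; exact hodd) h2 (fun i => N.F_map i) ?_ ?_ (fun i => yy_sq i) N.sx N.sy
    (A0 hf hn hodd) (A1 hf hn hodd) (A2 hf hn hodd) (A3 hf hn hodd)
  · intro i j z
    have hcm : (sg f K i : K →ₐ[Vf O τ r] K).comp (sg f K j) = (sg f K j).comp (sg f K i) := by
      apply AlgHom.ext_of_adjoin_eq_top (adj_top (f := f) (K := K))
      rintro _ ⟨k, rfl⟩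
      change sg f K i (sg f K j (yy f K k)) = sg f K j (sg f K i (yy f K k))
      rw [sg_y, sg_y]
      split_ifs with h4 h5 h5
      · rw [map_neg, map_neg, sg_y, sg_y, if_pos h4, if_pos h5]
      · rw [map_neg, sg_y, sg_y, if_pos h4, if_neg h5]
      · rw [map_neg, sg_y, sg_y, if_neg h4, if_pos h5]
      · rw [sg_y, sg_y, if_neg h4, if_neg h5]
    exact congrArg (fun g : K →ₐ[Vf O τ r] K => g z) hcm
  · intro i z
    have hcm : (sg f K i : K →ₐ[Vf O τ r] K).comp (sg f K i) = AlgHom.id _ K := by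
      apply AlgHom.ext_of_adjoin_eq_top (adj_top (f := f) (K := K))
      rintro _ ⟨k, rfl⟩
      change sg f K i (sg f K i (yy f K k)) = yy f K k
      rw [sg_y]
      split_ifs with h4
      · rw [map_neg, sg_y, if_pos h4, neg_neg]
      · rw [sg_y, if_neg h4]
    exact congrArg (fun g : K →ₐ[Vf O τ r] K => g z) hcm

end

end Q45.HF
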