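import Pool.Agent.Q45.UH.Loc

/-!
# The sums over a net of hyperelliptic curves over a finite field
-/

set_option autoImplicit false

open Polynomial Finset

namespace Q45.HF

open Q45.UH

section

variable {F : Type} [Field F]

/-- `G + h_1 X + h_0` -/
noncomputable def Fh (G : F[X]) (h : Fin 2 → F) : F[X] := G + C (h 1) * X + C (h 0)

theorem Fh_eval (G : F[X]) (h : Fin 2 → F) (z : F) : (Fh G h).eval z = G.eval z + h 1 * z + h 0 := by
  rw [Fh, eval_add, eval_add, eval_mul, eval_C, eval_C, eval_X]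

theorem Fh_fval (G : F[X]) (h : Fin 2 → F) (x y : Fin 0 → F) :
    fval G x y (h : Fin (1 + 1) → F) = Fh G h := by
  unfold fval inter hpol Fh
  rw [univ_eq_empty, Lagrange.interpolate_empty, prod_empty, Fin.sum_univ_two]
  simp only [Fin.val_zero, Fin.val_one, pow_zero, pow_one, mul_one, add_zero, one_mul]
  ring

theorem Fh_monic {G : F[X]} (hG : G.Monic) (hn : 3 ≤ G.natDegree) (h : Fin 2 → F) :
    (Fh G h).Monic ∧ (Fh G h).natDegree = G.natDegree := by
  have h1 := fval_monic (j := 1) hG (x := (Fin.elim0 : Fin 0 → F)) (y := (Fin.elim0 : Fin 0 → F))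
    (fun i => i.elim0) h (by omega)
  rwa [Fh_fval] at h1

end

section

variable {F : Type} [Field F] [Fintype F] [DecidableEq F]

theorem S1 (hF : ringChar F ≠ 2) (G : F[X]) : ∑ h : Fin 2 → F, SS (Fh G h) = 0 := by
  have h1 := sum_SS (j := 1) hF (b := G) (x := (Fin.elim0 : Fin 0 → F)) (fun i => i.elim0)
  rw [Nat.cast_zero, zero_mul] at h1
  simp only [Fh_fval] at h1
  rwa [Fintype.sum_unique] at h1

theorem S2_off (hF : ringChar F ≠ 2) (G : F[X]) {z z' : F} (hz : z ≠ z') :
    ∑ h : Fin 2 → F, quadraticChar F ((Fh G h).eval z) * quadraticChar F ((Fh G h).eval z') = 0 := by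
  have hz0 : z - z' ≠ 0 := sub_ne_zero.2 hz
  let e : (Fin 2 → F) ≃ F × F :=
    { toFun := fun h => (G.eval z + h 1 * z + h 0, G.eval z' + h 1 * z' + h 0)
      invFun := fun p => ![p.1 - G.eval z - (p.1 - p.2 - (G.eval z - G.eval z')) / (z - z') * z,
        (p.1 - p.2 - (G.eval z - G.eval z')) / (z - z')]
      left_inv := by
        intro h
        have h1 : (G.eval z + h 1 * z + h 0 - (G.eval z' + h 1 * z' + h 0) -
            (G.eval z - G.eval z')) / (z - z') = h 1 := by
          rw [div_eq_iff hz0]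
          ring
        funext i
        fin_cases i
        · simp only [h1]
          simp
          ring
        · simp only [h1]
          simp
      right_inv := by
        rintro ⟨a, b⟩
        have h2 : (a - b - (G.eval z - G.eval z')) / (z - z') * (z - z') =
          a - b - (G.eval z - G.eval z') := div_mul_cancel₀ _ hz0
        refine Prod.ext ?_ ?_
        · simp
        · simp
          linear_combination -h2 }
  have h3 : ∑ h : Fin 2 → F, quadraticChar F ((Fh G h).eval z) *
      quadraticChar F ((Fh G h).eval z') =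
      ∑ p : F × F, quadraticChar F p.1 * quadraticChar F p.2 := by
    refine Fintype.sum_equiv e _ _ fun h => ?_
    rw [Fh_eval, Fh_eval]
    rfl
  rw [h3, Fintype.sum_prod_type]
  have h4 : ∀ a : F, ∑ b : F, quadraticChar F a * quadraticChar F b = 0 := by
    intro a
    rw [← mul_sum, quadraticChar_sum_zero hF, mul_zero]
  exact sum_eq_zero fun a _ => h4 a

theorem S2_diag (G : F[X]) (z : F) :
    ∑ h : Fin 2 → F, quadraticChar F ((Fh G h).eval z) * quadraticChar F ((Fh G h).eval z) =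
      (Fintype.card F : ℤ) * ((Fintype.card F : ℤ) - 1) := by
  have h1 : ∑ h : Fin 2 → F, quadraticChar F ((Fh G h).eval z) * quadraticChar F ((Fh G h).eval z) =
      ∑ p : F × F, quadraticChar F (G.eval z + p.2 * z + p.1) *
        quadraticChar F (G.eval z + p.2 * z + p.1) := by
    refine Fintype.sum_equiv (finTwoArrowEquiv F) _ _ fun h => ?_
    rw [Fh_eval]
    rfl
  rw [h1, Fintype.sum_prod_type, sum_comm]
  have h2 : ∀ b : F, ∑ a : F, quadraticChar F (G.eval z + b * z + a) *
      quadraticChar F (G.eval z + b * z + a) = (Fintype.card F : ℤ) - 1 := by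
    intro b
    have h3 : ∑ a : F, quadraticChar F (G.eval z + b * z + a) *
      quadraticChar F (G.eval z + b * z + a) = ∑ a : F, quadraticChar F a * quadraticChar F a :=
      Fintype.sum_equiv (Equiv.addLeft (G.eval z + b * z)) _ _ fun a => rfl
    rw [h3]
    have h4 : ∀ a : F, quadraticChar F a * quadraticChar F a = 1 - if a = 0 then 1 else 0 := by
      intro a
      split_ifs with h
      · rw [h]
        simp
      · rw [← sq, quadraticChar_sq_one h]
        norm_num
    rw [sum_congr rfl fun a _ => h4 a, sum_sub_distrib, sum_ite_eq']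
    simp
  rw [sum_congr rfl fun b _ => h2 b, sum_const, card_univ, nsmul_eq_mul]

theorem S2 (hF : ringChar F ≠ 2) (G : F[X]) : ∑ h : Fin 2 → F, SS (Fh G h) ^ 2 =
    (Fintype.card F : ℤ) ^ 2 * ((Fintype.card F : ℤ) - 1) := by
  have h1 : ∀ h : Fin 2 → F, SS (Fh G h) ^ 2 = ∑ z : F, ∑ z' : F,
      quadraticChar F ((Fh G h).eval z) * quadraticChar F ((Fh G h).eval z') := by
    intro h
    rw [SS, sq, sum_mul_sum]
  rw [sum_congr rfl fun h _ => h1 h, sum_comm]
  have h2 : ∀ z : F, ∑ h : Fin 2 → F, ∑ z' : F,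
      quadraticChar F ((Fh G h).eval z) * quadraticChar F ((Fh G h).eval z') =
      (Fintype.card F : ℤ) * ((Fintype.card F : ℤ) - 1) := by
    intro z
    rw [sum_comm, sum_eq_single z]
    · exact S2_diag G z
    · intro z' _ hz'
      exact S2_off hF G (Ne.symm hz')
    · intro h
      exact absurd (mem_univ _) h
  rw [sum_congr rfl fun z _ => h2 z, sum_const, card_univ, nsmul_eq_mul]
  ring

/-- the number of the bad members of the net -/
theorem bad (G : F[X]) (hG : G.Monic) (hn : 3 ≤ G.natDegree) :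
    (∑ h : Fin 2 → F, (open Classical in if Squarefree (Fh G h) then (0 : ℝ) else 1)) ≤
      (G.natDegree + 1 : ℕ) * (Fintype.card F : ℝ) := by
  have h1 := card_bad (r := 0) (j := 1) hG (x := (Fin.elim0 : Fin 0 → F)) (fun i => i.elim0)
    (by omega) (by omega)
  rw [Fintype.sum_unique] at h1
  refine le_trans (le_of_eq ?_) (h1.trans (le_of_eq ?_))
  · refine sum_congr rfl fun h _ => ?_
    rw [Fh_fval]
  · push_cast
    ring

end

/-- the remainder in the binomial formula -/
theorem taylor (n : ℝ) (hn : 0 ≤ n) (r : ℕ) : ∃ B : ℝ, 0 ≤ B ∧ ∀ z : ℝ, |z| ≤ n →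
    |(1 - z) ^ r - 1 + r * z| ≤ B * z ^ 2 := by
  induction r with
  | zero => exact ⟨0, le_rfl, fun z _ => by simp⟩
  | succ r ih =>
    obtain ⟨B, hB, h⟩ := ih
    refine ⟨B * (1 + n) + r, by positivity, fun z hz => ?_⟩
    have h1 := h z hz
    have e : (1 - z) ^ (r + 1) - 1 + ((r + 1 : ℕ) : ℝ) * z =
        ((1 - z) ^ r - 1 + r * z) * (1 - z) + r * z ^ 2 := by
      push_cast
      ring
    rw [e]
    refine (abs_add_le _ _).trans ?_
    rw [abs_mul, abs_of_nonneg (show (0 : ℝ) ≤ r * z ^ 2 by positivity)]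
    have h2 : |1 - z| ≤ 1 + n := by
      refine (abs_sub _ _).trans ?_
      rw [abs_one]
      linarith
    have h3 : |(1 - z) ^ r - 1 + r * z| * |1 - z| ≤ (B * z ^ 2) * (1 + n) :=
      mul_le_mul h1 h2 (abs_nonneg _) (by positivity)
    linarith

/-- the sum over the net of the traces with the weights of the fibre power -/
theorem net (n r : ℕ) : ∃ K : ℝ, 0 ≤ K ∧ ∀ (F : Type) [Field F] [Fintype F] [DecidableEq F],
    ringChar F ≠ 2 → ∀ G : F[X], G.Monic → 3 ≤ G.natDegree → Odd G.natDegree → G.natDegree = n →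
    |∑ h : Fin 2 → F, tS (Fh G h) * ((Fintype.card F : ℝ) + SS (Fh G h)) ^ r +
      r * (Fintype.card F : ℝ) ^ (r + 2)| ≤
      K * ((Fintype.card F : ℝ) ^ (r + 1) * Real.sqrt (Fintype.card F)) := by
  obtain ⟨B, hB, hT⟩ := taylor n (by positivity) r
  refine ⟨B * n ^ 3 + r + (n + 1) * (n * (1 + n) ^ r), by positivity, ?_⟩
  intro F _ _ _ hF G hG hn3 hodd hGn
  classical
  set q : ℝ := (Fintype.card F : ℝ) with hq
  have hq1 : (1 : ℝ) ≤ q := by
    rw [hq]
    exact_mod_cast Fintype.card_pos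
  have hq0 : 0 < q := by linarith
  set s := Real.sqrt q with hs
  have hs1 : (1 : ℝ) ≤ s := by
    rw [hs, Real.one_le_sqrt]
    exact hq1
  have hs0 : 0 < s := by linarith
  have hss : s * s = q := Real.mul_self_sqrt hq0.le
  have hsq : s ≤ q := by nlinarith
  -- the bound for the traces
  have hb : ∀ h : Fin 2 → F, |(SS (Fh G h) : ℝ)| ≤ n * s := by
    intro h
    have h1 := Fh_monic hG hn3 h
    have h2 := SS_bound hF h1.1 (by rw [h1.2]; exact hodd)
    rwa [h1.2, hGn, ← hq, ← hs] at h2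
  -- the splitting
  have hsplit : ∀ h : Fin 2 → F, tS (Fh G h) * (q + SS (Fh G h)) ^ r =
      (-(q ^ r * (SS (Fh G h) : ℝ)) - r * q ^ (r - 1) * (SS (Fh G h) : ℝ) ^ 2) +
      ((-(SS (Fh G h) : ℝ)) * ((q + SS (Fh G h)) ^ r - q ^ r - r * q ^ (r - 1) * SS (Fh G h)) +
      (if Squarefree (Fh G h) then 0 else (SS (Fh G h) : ℝ) * (q + SS (Fh G h)) ^ r)) := by
    intro h
    unfold tS
    split_ifs
    · ring
    · ring
  have hrem : ∀ h : Fin 2 → F, |(-(SS (Fh G h) : ℝ)) *
      ((q + SS (Fh G h)) ^ r - q ^ r - r * q ^ (r - 1) * SS (Fh G h))| ≤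
      (B * n ^ 3) * (q ^ r * s / q) := by
    intro h
    set a : ℝ := (SS (Fh G h) : ℝ) with ha
    have h1 := hb h
    rw [← ha] at h1
    have h2 : |-(a / q)| ≤ n := by
      rw [abs_neg, abs_div, abs_of_pos hq0, div_le_iff₀ hq0]
      refine h1.trans ?_
      exact mul_le_mul_of_nonneg_left hsq (by positivity)
    have h3 := hT _ h2
    have e1 : (q + a) ^ r - q ^ r - r * q ^ (r - 1) * a =
        q ^ r * ((1 - -(a / q)) ^ r - 1 + r * -(a / q)) := by
      have e2 : (q + a) ^ r = q ^ r * (1 - -(a / q)) ^ r := by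
        rw [← mul_pow]
        congr 1
        field_simp
        ring
      rw [e2]
      rcases Nat.eq_zero_or_pos r with hr | hr
      · subst hr
        simp
      · obtain ⟨r', rfl⟩ : ∃ r', r = r' + 1 := ⟨r - 1, by omega⟩
        rw [Nat.add_sub_cancel, pow_succ q r']
        field_simp
        ring
    rw [e1, abs_mul, abs_neg, abs_mul, abs_of_pos (pow_pos hq0 r)]
    calc |a| * (q ^ r * |(1 - -(a / q)) ^ r - 1 + r * -(a / q)|) ≤
        (n * s) * (q ^ r * (B * (-(a / q)) ^ 2)) := by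
          refine mul_le_mul h1 ?_ (by positivity) (by positivity)
          exact mul_le_mul_of_nonneg_left h3 (by positivity)
      _ = (n * s) * (q ^ r * (B * (|a| ^ 2 / q ^ 2))) := by
          rw [neg_sq, div_pow, sq_abs]
      _ ≤ (n * s) * (q ^ r * (B * ((n * s) ^ 2 / q ^ 2))) := by
          have : |a| ^ 2 ≤ (n * s) ^ 2 := pow_le_pow_left₀ (abs_nonneg _) h1 2
          gcongr
      _ = (B * n ^ 3) * (q ^ r * s / q) := by
          have e3 : (n * s) ^ 2 = n ^ 2 * q := by rw [mul_pow, sq s, hss]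
          rw [e3]
          field_simp
  have hbad : ∀ h : Fin 2 → F, |(if Squarefree (Fh G h) then 0 else
      (SS (Fh G h) : ℝ) * (q + SS (Fh G h)) ^ r)| ≤
      (if Squarefree (Fh G h) then (0 : ℝ) else 1) * (n * s * ((1 + n) ^ r * q ^ r)) := by
    intro h
    split_ifs
    · simp
    · rw [one_mul, abs_mul, abs_pow]
      have h1 := hb h
      have h2 : |q + (SS (Fh G h) : ℝ)| ≤ (1 + n) * q := by
        refine (abs_add_le _ _).trans ?_
        rw [abs_of_pos hq0]
        have : (n : ℝ) * s ≤ n * q := mul_le_mul_of_nonneg_left hsq (by positivity)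
        linarith
      refine mul_le_mul h1 ?_ (by positivity) (by positivity)
      rw [← mul_pow]
      exact pow_le_pow_left₀ (abs_nonneg _) h2 r
  have hS1 : ∑ h : Fin 2 → F, (SS (Fh G h) : ℝ) = 0 := by exact_mod_cast S1 hF G
  have hS2 : ∑ h : Fin 2 → F, (SS (Fh G h) : ℝ) ^ 2 = q ^ 2 * (q - 1) := by
    rw [hq]
    exact_mod_cast S2 hF G
  have hcardh : (Fintype.card (Fin 2 → F) : ℝ) = q ^ 2 := by
    rw [Fintype.card_fun, Fintype.card_fin]
    push_cast
    rfl
  have hmain : ∑ h : Fin 2 → F, (-(q ^ r * (SS (Fh G h) : ℝ)) -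
      r * q ^ (r - 1) * (SS (Fh G h) : ℝ) ^ 2) + r * q ^ (r + 2) = r * q ^ (r + 1) := by
    rw [sum_sub_distrib, sum_neg_distrib, ← mul_sum, ← mul_sum, hS1, hS2]
    rcases Nat.eq_zero_or_pos r with hr | hr
    · subst hr
      simp
    · obtain ⟨r', rfl⟩ : ∃ r', r = r' + 1 := ⟨r - 1, by omega⟩
      rw [Nat.add_sub_cancel]
      ring
  have e5 : ∑ h : Fin 2 → F, tS (Fh G h) * (q + SS (Fh G h)) ^ r + r * q ^ (r + 2) =
      r * q ^ (r + 1) + (∑ h : Fin 2 → F, (-(SS (Fh G h) : ℝ)) *
        ((q + SS (Fh G h)) ^ r - q ^ r - r * q ^ (r - 1) * SS (Fh G h)) +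
      ∑ h : Fin 2 → F, (if Squarefree (Fh G h) then 0 else
        (SS (Fh G h) : ℝ) * (q + SS (Fh G h)) ^ r)) := by
    rw [sum_congr rfl fun h _ => hsplit h, sum_add_distrib, sum_add_distrib, ← hmain]
    ring
  rw [e5]
  refine (abs_add_le _ _).trans ?_
  have b1 : |(r : ℝ) * q ^ (r + 1)| ≤ r * (q ^ (r + 1) * s) := by
    rw [abs_of_nonneg (by positivity)]
    exact mul_le_mul_of_nonneg_left (le_mul_of_one_le_right (by positivity) hs1) (by positivity)
  have b2 : |∑ h : Fin 2 → F, (-(SS (Fh G h) : ℝ)) *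
      ((q + SS (Fh G h)) ^ r - q ^ r - r * q ^ (r - 1) * SS (Fh G h))| ≤
      (B * n ^ 3) * (q ^ (r + 1) * s) := by
    refine (abs_sum_le_sum_abs _ _).trans ((sum_le_sum fun h _ => hrem h).trans ?_)
    rw [sum_const, card_univ, nsmul_eq_mul, hcardh]
    refine le_of_eq ?_
    rw [pow_succ]
    field_simp
    try ring
  have b3 : |∑ h : Fin 2 → F, (if Squarefree (Fh G h) then 0 else
        (SS (Fh G h) : ℝ) * (q + SS (Fh G h)) ^ r)| ≤
      ((n + 1) * (n * (1 + n) ^ r)) * (q ^ (r + 1) * s) := by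
    refine (abs_sum_le_sum_abs _ _).trans ((sum_le_sum fun h _ => hbad h).trans ?_)
    rw [← sum_mul]
    have h1 := bad G hG hn3
    rw [hGn, ← hq] at h1
    push_cast at h1
    calc _ ≤ ((n + 1) * q) * (n * s * ((1 + n) ^ r * q ^ r)) :=
          mul_le_mul_of_nonneg_right h1 (by positivity)
      _ = ((n + 1) * (n * (1 + n) ^ r)) * (q ^ (r + 1) * s) := by
          rw [pow_succ]
          ring
  refine (add_le_add b1 ((abs_add_le _ _).trans (add_le_add b2 b3))).trans (le_of_eq ?_)
  ring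

end Q45.HF
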