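import Pool.Agent.TH958.FP.Ring
import Pool.Agent.TH958.An.Pts

/-!
# Fibre powers of nets of hyperelliptic curves: definitions
-/

set_option autoImplicit false

open Polynomial Finset

namespace Q45.HF

open Pool.Agent.TH958.FP (RR yR)
open Pool.Agent.TH958.An (Pt Res)

/-- The names of the parameters: `none` for `h_0`, `some none` for `h_1`, `some (some (inl t))` for the
variables `u_t` of the base, `some (some (inr i))` for the first coordinates `x_i` of the points. -/
abbrev Idx (τ : Type) (r : ℕ) : Type := Option (Option (τ ⊕ Fin r))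

/-- The polynomial `g + b X + c`. -/
noncomputable def addLin {R : Type} [CommRing R] (g : R[X]) (b c : R) : R[X] := g + C b * X + C c

section

variable {O τ : Type} [CommRing O] (f : (MvPolynomial τ O)[X]) (r : ℕ)

/-- The inclusion of `O[u]` in the ring of the parameters. -/
noncomputable def jP (O τ : Type) [CommRing O] (r : ℕ) :
    MvPolynomial τ O →+* MvPolynomial (Idx τ r) O :=
  (MvPolynomial.rename fun t => some (some (Sum.inl t)) :
    MvPolynomial τ O →ₐ[O] MvPolynomial (Idx τ r) O).toRingHom

/-- The polynomial `F = f + h_1 X + h_0` over the ring of the parameters. -/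
noncomputable def fam : (MvPolynomial (Idx τ r) O)[X] :=
  addLin (f.map (jP O τ r)) (MvPolynomial.X (some none)) (MvPolynomial.X none)

/-- The value `F(x_i)`. -/
noncomputable def rad (i : Fin r) : MvPolynomial (Idx τ r) O :=
  (fam f r).eval (MvPolynomial.X (some (some (Sum.inr i))))

/-- The coordinate ring of the `r`-th fibre power: `y_1, ..., y_r` with `y_i ^ 2 = F(x_i)` are
adjoined to the ring of the parameters. -/
abbrev FR : Type := RR (rad f r)

variable {r}

/-- The value of the polynomial `F` at a point with coordinates in the field `κ`. -/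
noncomputable def fib {κ : Type} [Field κ] (φ : FR f r →+* κ) : κ[X] :=
  (fam f r).map (φ.comp (algebraMap (MvPolynomial (Idx τ r) O) (FR f r)))

/-- The curve `Y ^ 2 = F(X)` at the point is smooth: `2` is not zero and `F` has no multiple root. -/
def Good {κ : Type} [Field κ] (φ : FR f r →+* κ) : Prop :=
  (2 : κ) ≠ 0 ∧ (fib f φ).Separable

end

/-- The coefficients of the power series `exp (∑ T_k X ^ k / k)`: `c_0 = 1` and
`n c_n = ∑ c_{n-k} T_k`, the sum over `k = 1, ..., n`. -/
noncomputable def expCoeff (T : ℕ → ℝ) : ℕ → ℝ
  | 0 => 1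
  | n + 1 => (∑ k : Fin (n + 1), expCoeff T (n - k) * T (k + 1)) / (n + 1)
termination_by n => n
decreasing_by omega

/-- The number of the points of the affine curve `Y ^ 2 = g(X)` over the extension of degree `n` of the
finite field `κ` with `q` elements. In the algebraic closure this extension consists of the `z` with
`z ^ (q ^ n) = z`. -/
noncomputable def points {κ : Type} [Field κ] (g : κ[X]) (n : ℕ) : ℕ :=
  Nat.card {P : AlgebraicClosure κ × AlgebraicClosure κ //
    P.1 ^ (Nat.card κ ^ n) = P.1 ∧ P.2 ^ (Nat.card κ ^ n) = P.2 ∧ P.2 ^ 2 = aeval P.1 g}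

/-- The value at `z` of the polynomial `P(T) = ∑ c_n T ^ n = exp (∑ (#C(κ_n) - q ^ n - 1) T ^ n / n)`
of degree `2 g = deg g - 1`, where `C` is the curve `Y ^ 2 = g(X)` together with one point at
infinity and `κ_n` is the extension of degree `n` of the field `κ` with `q` elements: this is
the polynomial `det (1 - Frob T | H¹(C))`. -/
noncomputable def lpoly {κ : Type} [Field κ] (g : κ[X]) (z : ℂ) : ℂ :=
  ∑ n ∈ range g.natDegree,
    ((expCoeff (fun n => (points g n : ℝ) - (Nat.card κ : ℝ) ^ n) n : ℝ) : ℂ) * z ^ n

end Q45.HF
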