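import Pool.Agent.Q45.HF.Tr

/-!
# The local factors
-/

set_option autoImplicit false

open Polynomial Finset

namespace Q45.HF

open Q45.UH
open Pool.Agent.H341R2.Sharp
open Pool.Agent.TH958.FP (RR yR yR_sq)
open Pool.Agent.TH958.An (Pt Res qy)

section

variable {F : Type} [Field F] [Fintype F] [DecidableEq F]

/-- the number of the points over the extensions -/
theorem pts_eq (hF : ringChar F ≠ 2) (f : F[X]) (n : ℕ) (hn : 1 ≤ n) :
    (points f n : ℝ) - (Nat.card F : ℝ) ^ n = T f n := by
  classical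
  unfold points
  rw [Nat.card_eq_fintype_card (α := F)]
  obtain ⟨p, hp⟩ := CharP.exists F
  have : Fact (Nat.Prime p) := ⟨CharP.char_is_prime F p⟩
  have : NeZero n := ⟨by omega⟩
  obtain ⟨E, _, _, _, hfr⟩ : ∃ (E : Type) (_ : Field E) (_ : Fintype E) (_ : Algebra F E),
      Module.finrank F E = n :=
    ⟨FiniteField.Extension F p n, inferInstance, Fintype.ofFinite _, inferInstance,
      FiniteField.finrank_extension F p n⟩
  have hcard : Fintype.card E = Fintype.card F ^ n := by
    rw [Module.card_eq_pow_finrank (K := F) (V := E), hfr]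
  have hE : ringChar E ≠ 2 := by
    rwa [← Algebra.ringChar_eq F E]
  obtain ⟨ι⟩ : Nonempty (E →ₐ[F] AlgebraicClosure F) := ⟨IsAlgClosed.lift⟩
  have hinj : Function.Injective ι := (ι : E →+* AlgebraicClosure F).injective
  have hfix : ∀ x : E, (ι x) ^ (Fintype.card F ^ n) = ι x := by
    intro x
    rw [← map_pow, ← hcard, FiniteField.pow_card]
  have hrange : ∀ z : AlgebraicClosure F, z ^ (Fintype.card F ^ n) = z → ∃ x : E, ι x = z := by
    intro z hz
    let _ : Algebra E (AlgebraicClosure F) := (ι : E →+* AlgebraicClosure F).toAlgebra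
    have h1 : (X ^ Fintype.card E - X : E[X]).Splits := by
      rw [splits_iff_card_roots, FiniteField.roots_X_pow_card_sub_X,
        FiniteField.X_pow_card_sub_X_natDegree_eq _ Fintype.one_lt_card]
      rfl
    have h2 : (X ^ Fintype.card E - X : E[X]) ≠ 0 :=
      FiniteField.X_pow_card_sub_X_ne_zero _ Fintype.one_lt_card
    have h3 : ((X ^ Fintype.card E - X : E[X]).map (algebraMap E (AlgebraicClosure F))).IsRoot z := by
      simp [hcard, hz]
    exact h1.mem_range_of_isRoot h2 h3
  have hbij : Function.Bijective (fun P : {P : E × E // P.2 ^ 2 = (f.map (algebraMap F E)).eval P.1} =>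
      (⟨(ι P.1.1, ι P.1.2), hfix _, hfix _, by
        show (ι P.1.2) ^ 2 = aeval (ι P.1.1) f
        rw [← map_pow, P.2, aeval_algHom_apply, eval_map_algebraMap]⟩ :
      {P : AlgebraicClosure F × AlgebraicClosure F //
      P.1 ^ (Fintype.card F ^ n) = P.1 ∧ P.2 ^ (Fintype.card F ^ n) = P.2 ∧
        P.2 ^ 2 = aeval P.1 f})) := by
    constructor
    · rintro ⟨⟨x, y⟩, _⟩ ⟨⟨x', y'⟩, _⟩ h
      have h1 := congrArg Subtype.val h
      have h2 : ι x = ι x' := congrArg Prod.fst h1
      have h3 : ι y = ι y' := congrArg Prod.snd h1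
      exact Subtype.ext (Prod.ext (hinj h2) (hinj h3))
    · rintro ⟨⟨x, y⟩, h1, h2, h3⟩
      obtain ⟨x', rfl⟩ := hrange x h1
      obtain ⟨y', rfl⟩ := hrange y h2
      refine ⟨⟨(x', y'), ?_⟩, rfl⟩
      apply hinj
      show ι (y' ^ 2) = ι ((f.map (algebraMap F E)).eval x')
      rw [map_pow, eval_map_algebraMap, ← aeval_algHom_apply]
      exact h3
  rw [← Nat.card_congr (Equiv.ofBijective _ hbij), card_pts hE, hcard]
  have h4 := T_eq_sum (E := E) hF f
  rw [hfr] at h4
  rw [h4]
  push_cast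
  have h5 : (SS (f.map (algebraMap F E)) : ℝ) = ∑ x : E, (quadraticChar E (aeval x f) : ℝ) := by
    rw [SS]
    push_cast
    refine sum_congr rfl fun x _ => ?_
    rw [eval_map_algebraMap]
  rw [h5]
  ring

/-- the coefficients -/
theorem exp_eq (f : F[X]) (τ : ℕ → ℝ) (hτ : ∀ n, 1 ≤ n → τ n = T f n) (n : ℕ) :
    expCoeff τ n = A f n := by
  induction n using Nat.strong_induction_on with
  | _ n ih =>
    rcases n with _ | n
    · rw [expCoeff, A_zero]
      simp
    · have h1 := n_mul_A f (n + 1)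
      have h2 : ((n : ℝ) + 1) * (A f (n + 1) : ℝ) =
          ∑ r ∈ Icc 1 (n + 1), (A f (n + 1 - r) : ℝ) * T f r := by
        exact_mod_cast h1
      have hn : ((n : ℝ) + 1) ≠ 0 := by positivity
      have h3 : ∀ φ : ℕ → ℝ, ∑ r ∈ Icc 1 (n + 1), φ r = ∑ r : Fin (n + 1), φ (r + 1) := by
        intro φ
        rw [Fin.sum_univ_eq_sum_range (fun r => φ (r + 1)) (n + 1)]
        symm
        refine sum_nbij' (fun r => r + 1) (fun r => r - 1) ?_ ?_ ?_ ?_ ?_
        · intro r hr
          rw [mem_range] at hr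
          rw [mem_Icc]
          omega
        · intro r hr
          rw [mem_Icc] at hr
          rw [mem_range]
          omega
        · intro r _
          exact Nat.add_sub_cancel r 1
        · intro r hr
          rw [mem_Icc] at hr
          exact Nat.sub_add_cancel hr.1
        · intro r _
          rfl
      rw [expCoeff, div_eq_iff hn, mul_comm _ ((n : ℝ) + 1), h2, h3]
      refine sum_congr rfl fun r _ => ?_
      have hr : (r : ℕ) < n + 1 := r.2
      rw [ih (n - r) (by omega), hτ (r + 1) (by omega)]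
      congr 3
      omega

theorem not_sq {f : F[X]} (hf : f.Monic) (hodd : Odd f.natDegree) (c : F) (h : F[X]) :
    f ≠ C c * h ^ 2 := by
  intro hc
  have h3 : f ≠ 0 := hf.ne_zero
  have hc0 : c ≠ 0 := by
    rintro rfl
    rw [C_0, zero_mul] at hc
    exact h3 hc
  rw [hc, natDegree_C_mul hc0, natDegree_pow] at hodd
  obtain ⟨a, ha⟩ := hodd
  omega

theorem T_norm (hF : ringChar F ≠ 2) {f : F[X]} (hf : f.Monic) (hodd : Odd f.natDegree) (m : ℕ)
    (hm : 1 ≤ m) : ‖((T f m : ℤ) : ℂ)‖ ≤ (5 * f.natDegree) * (Real.sqrt (Fintype.card F)) ^ m := by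
  have h1 := (T_bound hF hf hodd.pos (not_sq hf hodd) m hm).1
  rw [Complex.norm_intCast]
  exact h1

theorem lpoly_eq (hF : ringChar F ≠ 2) {f : F[X]} (hf : f.Monic) (hodd : Odd f.natDegree) {z : ℂ}
    (hz : Real.sqrt (Fintype.card F) * ‖z‖ < 1) :
    lpoly f z = Complex.exp (Lz (fun n => ((T f n : ℤ) : ℂ)) z) := by
  classical
  set d := f.natDegree with hdd
  obtain ⟨r, hr, hlam⟩ := exists_r hF hf hodd.pos (not_sq hf hodd)
  have hA : ∀ n, d ≤ n → A f n = 0 := fun n hn => A_eq_zero f r hf hr hlam n hn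
  set a : ℂ[X] := ∑ n ∈ range d, C (A f n : ℂ) * X ^ n with ha
  have hcoeff : ∀ n, a.coeff n = (A f n : ℂ) := by
    intro n
    rw [ha, finsetSum_coeff]
    simp_rw [coeff_C_mul_X_pow]
    by_cases hn : n < d
    · rw [sum_eq_single n]
      · simp
      · intro m _ hm
        rw [if_neg (Ne.symm hm)]
      · intro h
        exact absurd (mem_range.2 hn) h
    · rw [hA n (by omega)]
      rw [sum_eq_zero]
      · simp
      · intro m hm
        rw [mem_range] at hm
        rw [if_neg (by omega)]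
  have hq0 : 0 < Real.sqrt (Fintype.card F) := Real.sqrt_pos.2 (by exact_mod_cast Fintype.card_pos)
  have h1 := exp_Lz a (by rw [hcoeff, A_zero]; simp) (S := fun n => ((T f n : ℤ) : ℂ))
    (r := Real.sqrt (Fintype.card F)) (C := 5 * d) hq0 (by positivity)
    (fun m hm => T_norm hF hf hodd m hm) (by
      intro n
      rw [hcoeff]
      have := n_mul_A f n
      simp_rw [hcoeff]
      exact_mod_cast this) hz
  rw [← h1, lpoly, ha, eval_finsetSum]
  refine sum_congr rfl fun n _ => ?_
  rw [eval_mul, eval_C, eval_pow, eval_X,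
    exp_eq f _ (fun n hn => pts_eq hF f n hn) n]
  push_cast
  rfl

theorem T_one (hF : ringChar F ≠ 2) (f : F[X]) : T f 1 = SS f := by
  have h2 := T_eq_sum (F := F) (E := F) hF f
  rw [Module.finrank_self] at h2
  rw [h2, SS]
  refine sum_congr rfl fun x _ => ?_
  rw [coe_aeval_eq_eval]

end

section

variable {O τ : Type} [CommRing O] (f : (MvPolynomial τ O)[X]) {r : ℕ}

/-- the reduction at a closed point -/
noncomputable def red (y : Pt (FR f r)) : FR f r →+* Res y := Ideal.Quotient.mk y.asIdeal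

/-- the sums of Frobenius powers -/
noncomputable def Ty (y : Pt (FR f r)) (n : ℕ) : ℂ := by
  classical
  exact if h : Finite (Res y) then
    letI := Fintype.ofFinite (Res y)
    ((T (fib f (red f y)) n : ℤ) : ℂ) else 0

/-- the remainder of the logarithm of the local factor -/
noncomputable def rhoF (y : Pt (FR f r)) (s : ℂ) : ℂ :=
  open Classical in
  if Good f (red f y) then
    -(Lz (Ty f y) ((qy y : ℂ) ^ (-s)) - Ty f y 1 * (qy y : ℂ) ^ (-s)) else 0

variable [Algebra.FiniteType ℤ (FR f r)]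

theorem qy_two (y : Pt (FR f r)) : 2 ≤ qy y := by
  have : 1 < Nat.card (Res y) := Finite.one_lt_card
  exact this

theorem norm_q (y : Pt (FR f r)) (s : ℂ) :
    Real.sqrt (qy y) * ‖(qy y : ℂ) ^ (-s)‖ = (qy y : ℝ) ^ (1 / 2 - s.re) := by
  have h := qy_two f y
  have h0 : (0 : ℝ) < qy y := by exact_mod_cast (by omega : 0 < qy y)
  rw [Complex.norm_natCast_cpow_of_pos (by omega), Real.sqrt_eq_rpow, ← Real.rpow_add h0,
    Complex.neg_re]
  congr 1

theorem norm_lt (y : Pt (FR f r)) {s : ℂ} (hs : 1 / 2 < s.re) :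
    Real.sqrt (qy y) * ‖(qy y : ℂ) ^ (-s)‖ < 1 := by
  rw [norm_q]
  have h := qy_two f y
  exact Real.rpow_lt_one_of_one_lt_of_neg (by exact_mod_cast (by omega : 1 < qy y)) (by linarith)

theorem norm_half (y : Pt (FR f r)) {s : ℂ} (hs : 11 / 6 ≤ s.re) :
    Real.sqrt (qy y) * ‖(qy y : ℂ) ^ (-s)‖ ≤ 1 / 2 := by
  rw [norm_q]
  have h := qy_two f y
  have h1 : (1 : ℝ) ≤ qy y := by exact_mod_cast (by omega : 1 ≤ qy y)
  have h2 : (2 : ℝ) ≤ qy y := by exact_mod_cast h
  calc (qy y : ℝ) ^ (1 / 2 - s.re) ≤ (qy y : ℝ) ^ (-1 : ℝ) :=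
        Real.rpow_le_rpow_of_exponent_le h1 (by linarith)
    _ = (qy y : ℝ)⁻¹ := by rw [Real.rpow_neg_one]
    _ ≤ 1 / 2 := by
        rw [inv_le_comm₀ (by linarith) (by norm_num)]
        linarith

theorem good_char {y : Pt (FR f r)} (hy : Good f (red f y)) : ringChar (Res y) ≠ 2 := by
  intro h
  apply hy.1
  have h1 : ((ringChar (Res y) : ℕ) : Res y) = 0 := ringChar.Nat.cast_ringChar
  rw [h] at h1
  exact_mod_cast h1

theorem Ty_norm (hf : f.Monic) (hn : 3 ≤ f.natDegree) (hodd : Odd f.natDegree) {y : Pt (FR f r)}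
    (hy : Good f (red f y)) (m : ℕ) (hm : 1 ≤ m) :
    ‖Ty f y m‖ ≤ (5 * f.natDegree) * (Real.sqrt (qy y)) ^ m := by
  classical
  have hfin : Finite (Res y) := inferInstance
  let _ := Fintype.ofFinite (Res y)
  rw [Ty, dif_pos hfin]
  have h1 := fib_monic f hf hn (red f y)
  have h2 := T_norm (good_char f hy) h1.1 (by rw [h1.2]; exact hodd) m hm
  rw [h1.2] at h2
  rw [qy, Nat.card_eq_fintype_card]
  exact h2

/-- the local factor -/
theorem factor_eq (hf : f.Monic) (hn : 3 ≤ f.natDegree) (hodd : Odd f.natDegree) {y : Pt (FR f r)}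
    (hy : Good f (red f y)) {s : ℂ} (hs : 1 / 2 < s.re) :
    (lpoly (fib f (red f y)) ((qy y : ℂ) ^ (-s)))⁻¹ =
      Complex.exp (((atPt (fun F _ φ => tF f F φ) y : ℝ) : ℂ) * (qy y : ℂ) ^ (-s) +
        rhoF f y s) := by
  classical
  have hfin : Finite (Res y) := inferInstance
  let _ := Fintype.ofFinite (Res y)
  have h1 := fib_monic f hf hn (red f y)
  have hz : Real.sqrt (Fintype.card (Res y)) * ‖(qy y : ℂ) ^ (-s)‖ < 1 := by
    have e : qy y = Fintype.card (Res y) := Nat.card_eq_fintype_card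
    have := norm_lt f y hs
    rw [e] at this ⊢
    exact this
  have h2 := lpoly_eq (good_char f hy) h1.1 (by rw [h1.2]; exact hodd) hz
  have hT : (fun n => ((T (fib f (red f y)) n : ℤ) : ℂ)) = Ty f y := by
    funext n
    rw [Ty, dif_pos hfin]
  rw [h2, hT, ← Complex.exp_neg, rhoF, if_pos hy]
  congr 1
  have h3 : ((atPt (fun F _ φ => tF f F φ) y : ℝ) : ℂ) = - Ty f y 1 := by
    have h4 : atPt (fun F _ φ => tF f F φ) y = tF f (Res y) (red f y) := rfl
    have h5 : Squarefree (fib f (red f y)) := PerfectField.separable_iff_squarefree.1 hy.2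
    rw [h4, tF_eq f (good_char f hy), tS, if_pos h5, Ty, dif_pos hfin, T_one (good_char f hy)]
    push_cast
    rfl
  rw [h3]
  ring

theorem rem_rho (hf : f.Monic) (hn : 3 ≤ f.natDegree) (hodd : Odd f.natDegree) :
    Rem (fun y : Pt (FR f r) => Good f (red f y)) (rhoF f) (2 * (5 * f.natDegree)) where
  h0 := by
    intro y s hy
    rw [rhoF, if_neg hy]
  diff := by
    intro y s hs
    by_cases hy : Good f (red f y)
    · have e1 : rhoF f y = fun s => -(Lz (Ty f y) ((qy y : ℂ) ^ (-s)) -
          Ty f y 1 * (qy y : ℂ) ^ (-s)) := by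
        funext s
        rw [rhoF, if_pos hy]
      rw [e1]
      have hq := qy_two f y
      have hq0 : (0 : ℝ) < Real.sqrt (qy y) := Real.sqrt_pos.2 (by exact_mod_cast (by omega))
      have hqc : (qy y : ℂ) ≠ 0 := by exact_mod_cast (by omega : qy y ≠ 0)
      have h2 : DifferentiableAt ℂ (fun s : ℂ => (qy y : ℂ) ^ (-s)) s :=
        (differentiableAt_id.neg).const_cpow (Or.inl hqc)
      have h3 := (Lz_deriv hq0 (by positivity) (fun m hm => Ty_norm f hf hn hodd hy m hm)
        (norm_lt f y (s := s) (by linarith))).1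
      exact ((DifferentiableAt.comp s h3 h2).sub (h2.const_mul _)).neg
    · have e1 : rhoF f y = fun _ => 0 := by
        funext s
        rw [rhoF, if_neg hy]
      rw [e1]
      exact differentiableAt_const _
  nonneg := by positivity
  norm := by
    intro y s hs
    have hq := qy_two f y
    have hq1 : (0 : ℝ) < qy y := by exact_mod_cast (by omega : 0 < qy y)
    by_cases hy : Good f (red f y)
    · rw [rhoF, if_pos hy, norm_neg]
      have hq0 : (0 : ℝ) < Real.sqrt (qy y) := Real.sqrt_pos.2 hq1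
      refine (Lz_first hq0 (by positivity) (fun m hm => Ty_norm f hf hn hodd hy m hm)
        (norm_half f y hs)).trans (le_of_eq ?_)
      rw [norm_q, ← Real.rpow_natCast, ← Real.rpow_mul hq1.le]
      congr 2
      push_cast
      ring
    · rw [rhoF, if_neg hy, norm_zero]
      positivity

end

end Q45.HF
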