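import Pool.Agent.Q45.HF.Num

/-!
# Fibre powers of nets of hyperelliptic curves: the averages of the traces over one prime
-/

set_option autoImplicit false

open Polynomial Finset NumberField IsDedekindDomain

namespace Q45.HF

open Q45.UH
open Pool.Agent.TH958.FP (RR yR yR_sq)

section

variable {O τ : Type} [CommRing O] (f : (MvPolynomial τ O)[X]) {r : ℕ}

variable (r) in
/-- The inclusion of the ring of constants. -/
noncomputable def base : O →+* FR f r :=
  (algebraMap (MvPolynomial (Idx τ r) O) (FR f r)).comp MvPolynomial.C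

theorem homR_fst {κ : Type} [CommRing κ] (φ : FR f r →+* κ) :
    (homE (φ.comp (algebraMap (MvPolynomial (Idx τ r) O) (FR f r)))).1 = φ.comp (base f r) := rfl

variable (r) in
/-- The fibre average over the point `ψ` of `Spec O` with values in the finite field `κ` with `q`
elements: `q ^ (-m)` times the sum of the traces `t_y = q - #(affine points of the fibre)` over the
points `y` of the base above `ψ` where the fibre is smooth, `m = #τ + r + 2`. -/
noncomputable def average [Fintype τ] {κ : Type} [Field κ] (ψ : O →+* κ) : ℝ :=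
  (∑ᶠ φ : {φ : FR f r →+* κ // φ.comp (base f r) = ψ}, tF f κ φ.1) /
    (Nat.card κ : ℝ) ^ (Fintype.card τ + r + 2)

theorem finite_hom {κ : Type} [Field κ] [Finite κ] [Fintype τ] (ψ : O →+* κ) :
    Finite {φ : FR f r →+* κ // φ.comp (base f r) = ψ} := by
  have h : Function.Injective (fun φ : {φ : FR f r →+* κ // φ.comp (base f r) = ψ} =>
      ((fun i => φ.1 (algebraMap (MvPolynomial (Idx τ r) O) (FR f r) (MvPolynomial.X i))),
        fun i => φ.1 (yR (rad f r) i))) := by
    intro φ φ' h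
    have h1 := congrArg Prod.fst h
    have h2 := congrArg Prod.snd h
    apply Subtype.ext
    apply RR_ringHom_ext (rad f r)
    · apply MvPolynomial.ringHom_ext
      · intro c
        have h3 := congrArg (fun g => g c) φ.2
        have h4 := congrArg (fun g => g c) φ'.2
        exact h3.trans h4.symm
      · intro i
        exact congrFun h1 i
    · intro i
      exact congrFun h2 i
  exact Finite.of_injective _ h

variable {f} in
theorem comp_eq {κ : Type} [CommRing κ] {ψ : O →+* κ} {φ : FR f r →+* κ}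
    (h : φ.comp (base f r) = ψ) :
    φ.comp (algebraMap (MvPolynomial (Idx τ r) O) (FR f r)) = MvPolynomial.eval₂Hom ψ
      (fun i => φ (algebraMap (MvPolynomial (Idx τ r) O) (FR f r) (MvPolynomial.X i))) := by
  apply MvPolynomial.ringHom_ext
  · intro c
    rw [MvPolynomial.coe_eval₂Hom, MvPolynomial.eval₂_C]
    exact congrArg (fun g => g c) h
  · intro i
    rw [MvPolynomial.coe_eval₂Hom, MvPolynomial.eval₂_X]
    rfl

variable {f} in
theorem y_sq {κ : Type} [CommRing κ] {ψ : O →+* κ} {φ : FR f r →+* κ}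
    (h : φ.comp (base f r) = ψ) (i : Fin r) :
    φ (yR (rad f r) i) ^ 2 = MvPolynomial.eval₂Hom ψ
      (fun i => φ (algebraMap (MvPolynomial (Idx τ r) O) (FR f r) (MvPolynomial.X i)))
      (rad f r i) := by
  rw [← map_pow, yR_sq, ← comp_eq h]
  rfl

theorem liftT_base {κ : Type} [CommRing κ] (ψ : O →+* κ) (v : Idx τ r → κ) (y : Fin r → κ)
    (hy : ∀ i, y i ^ 2 = MvPolynomial.eval₂Hom ψ v (rad f r i)) :
    (liftT (rad f r) (MvPolynomial.eval₂Hom ψ v) y hy : FR f r →+* κ).comp (base f r) = ψ := by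
  have h1 := liftT_comp (rad f r) (MvPolynomial.eval₂Hom ψ v) y hy
  ext c
  have h2 := congrArg (fun g => g (MvPolynomial.C c)) h1
  simp only [RingHom.comp_apply] at h2
  rw [base, RingHom.comp_apply, RingHom.comp_apply, h2, MvPolynomial.coe_eval₂Hom,
    MvPolynomial.eval₂_C]

/-- the points of the base above a point of the ring of constants -/
noncomputable def homP {κ : Type} [CommRing κ] (ψ : O →+* κ) :
    {φ : FR f r →+* κ // φ.comp (base f r) = ψ} ≃
      Σ v : Idx τ r → κ, {y : Fin r → κ // ∀ i, y i ^ 2 = MvPolynomial.eval₂Hom ψ v (rad f r i)} where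
  toFun φ := ⟨fun i => φ.1 (algebraMap (MvPolynomial (Idx τ r) O) (FR f r) (MvPolynomial.X i)),
    ⟨fun i => φ.1 (yR (rad f r) i), y_sq φ.2⟩⟩
  invFun p := ⟨liftT (rad f r) (MvPolynomial.eval₂Hom ψ p.1) p.2.1 p.2.2,
    liftT_base f ψ p.1 p.2.1 p.2.2⟩
  left_inv φ := Subtype.ext (RR_ringHom_ext (rad f r)
    ((liftT_comp (rad f r) (MvPolynomial.eval₂Hom ψ _) _ (y_sq φ.2)).trans (comp_eq φ.2).symm)
    (fun i => liftT_y (rad f r) _ _ (y_sq φ.2) i))
  right_inv p := by
    obtain ⟨v, ⟨y, hy⟩⟩ := p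
    have h1 : (fun i => liftT (rad f r) (MvPolynomial.eval₂Hom ψ v) y hy
        (algebraMap (MvPolynomial (Idx τ r) O) (FR f r) (MvPolynomial.X i))) = v := by
      funext i
      have h2 := congrArg (fun g => g (MvPolynomial.X i))
        (liftT_comp (rad f r) (MvPolynomial.eval₂Hom ψ v) y hy)
      simp only [RingHom.comp_apply] at h2
      rw [h2, MvPolynomial.coe_eval₂Hom, MvPolynomial.eval₂_X]
    have h3 : ∀ i, liftT (rad f r) (MvPolynomial.eval₂Hom ψ v) y hy (yR (rad f r) i) = y i :=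
      fun i => liftT_y _ _ _ _ i
    refine Sigma.ext h1 ?_
    have : ∀ (v' : Idx τ r → κ) (hv : v' = v) (y' : {y : Fin r → κ //
        ∀ i, y i ^ 2 = MvPolynomial.eval₂Hom ψ v' (rad f r i)}),
        y'.1 = y → HEq y' (⟨y, hy⟩ : {y : Fin r → κ //
        ∀ i, y i ^ 2 = MvPolynomial.eval₂Hom ψ v (rad f r i)}) := by
      rintro v' rfl y' hy'
      exact heq_of_eq (Subtype.ext hy')
    exact this _ h1 _ (funext h3)

/-- the sum over the points above `ψ` -/
theorem sum_point [Fintype τ] [DecidableEq τ] {F : Type} [Field F] [Fintype F] [DecidableEq F]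
    (hF : ringChar F ≠ 2) (ψ : O →+* F) :
    ∑ᶠ φ : {φ : FR f r →+* F // φ.comp (base f r) = ψ}, tF f F φ.1 =
      ∑ u : τ → F, ∑ h : Fin 2 → F,
        tS (Fh (gv f ψ u) h) * ((Fintype.card F : ℝ) + SS (Fh (gv f ψ u) h)) ^ r := by
  classical
  have _ := finite_hom (r := r) f ψ
  let _ : Fintype {φ : FR f r →+* F // φ.comp (base f r) = ψ} := Fintype.ofFinite _
  rw [finsum_eq_sum_of_fintype]
  let e1 : {φ : FR f r →+* F // φ.comp (base f r) = ψ} ≃
      Σ v : Idx τ r → F, {y : Fin r → F // ∀ i, y i ^ 2 = MvPolynomial.eval₂Hom ψ v (rad f r i)} :=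
    homP f ψ
  have e2 : ∀ φ : {φ : FR f r →+* F // φ.comp (base f r) = ψ}, tF f F φ.1 =
      tS ((fam f r).map (MvPolynomial.eval₂Hom ψ (e1 φ).1)) := by
    intro φ
    rw [tF_eq f hF, fib]
    rw [comp_eq φ.2]
    rfl
  rw [sum_congr rfl fun φ _ => e2 φ]
  have e3 : ∑ φ : {φ : FR f r →+* F // φ.comp (base f r) = ψ},
      tS ((fam f r).map (MvPolynomial.eval₂Hom ψ (e1 φ).1)) =
      ∑ p : (Σ v : Idx τ r → F, {y : Fin r → F //
        ∀ i, y i ^ 2 = MvPolynomial.eval₂Hom ψ v (rad f r i)}),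
        tS ((fam f r).map (MvPolynomial.eval₂Hom ψ p.1)) :=
    Fintype.sum_equiv e1 _ _ fun φ => rfl
  rw [e3, Fintype.sum_sigma]
  set A : (Idx τ r → F) → ℝ := fun v => tS ((fam f r).map (MvPolynomial.eval₂Hom ψ v)) *
      ∏ i, (Nat.card {y : F // y ^ 2 = (MvPolynomial.eval₂Hom ψ v) (rad f r i)} : ℝ) with hA
  have e4 : ∀ v : Idx τ r → F, ∑ _y : {y : Fin r → F //
      ∀ i, y i ^ 2 = MvPolynomial.eval₂Hom ψ v (rad f r i)},
        tS ((fam f r).map (MvPolynomial.eval₂Hom ψ v)) = A v := by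
    intro v
    rw [sum_const, card_univ, nsmul_eq_mul, mul_comm, hA]
    congr 1
    have e5 : Nat.card {y : Fin r → F // ∀ i, y i ^ 2 = MvPolynomial.eval₂Hom ψ v (rad f r i)} =
        ∏ i, Nat.card {y : F // y ^ 2 = MvPolynomial.eval₂Hom ψ v (rad f r i)} := by
      rw [Nat.card_congr (Equiv.subtypePiEquivPi
        (p := fun (i : Fin r) (y : F) => y ^ 2 = MvPolynomial.eval₂Hom ψ v (rad f r i))),
        Nat.card_pi]
    rw [← Nat.card_eq_fintype_card, e5]
    push_cast
    rfl
  rw [sum_congr rfl fun v _ => e4 v]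
  have e5 : ∑ v, A v = ∑ h : Fin 2 → F, ∑ u : τ → F, ∑ x : Fin r → F,
      A ((splitE F).symm (h, u, x)) := by
    rw [← Equiv.sum_comp (splitE F).symm A, Fintype.sum_prod_type]
    exact sum_congr rfl fun h _ => Fintype.sum_prod_type _
  rw [e5, sum_comm]
  refine sum_congr rfl fun u _ => sum_congr rfl fun h _ => ?_
  have e6 : ∀ x : Fin r → F, (fam f r).map (MvPolynomial.eval₂Hom ψ ((splitE F).symm (h, u, x))) =
        Fh (gv f ψ u) h := by
    intro x
    rw [fam_map]
    rfl
  have e7 : ∀ x : Fin r → F, A ((splitE F).symm (h, u, x)) = tS (Fh (gv f ψ u) h) *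
      ∏ i, ((quadraticChar F ((Fh (gv f ψ u) h).eval (x i)) : ℝ) + 1) := by
    intro x
    rw [hA]
    simp only
    rw [e6 x]
    congr 1
    refine prod_congr rfl fun i _ => ?_
    rw [rad_map, e6 x]
    have e8 : (MvPolynomial.eval₂Hom ψ ((splitE F).symm (h, u, x)))
        (MvPolynomial.X (some (some (Sum.inr i)))) = x i := by
      rw [MvPolynomial.coe_eval₂Hom, MvPolynomial.eval₂_X]
      rfl
    rw [e8]
    have e9 := card_sqrt hF ((Fh (gv f ψ u) h).eval (x i))
    exact_mod_cast e9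
  rw [sum_congr rfl fun x _ => e7 x, ← mul_sum]
  congr 1
  rw [← Fintype.sum_pow (fun z : F => (quadraticChar F ((Fh (gv f ψ u) h).eval z) : ℝ) + 1)]
  congr 1
  rw [sum_add_distrib, sum_const, card_univ, nsmul_eq_mul, mul_one, add_comm, SS]
  push_cast
  rfl

end

/-- **The fibre average over every point of the ring of constants**, with a constant that depends
on the degree and on `r` only. -/
theorem average_bound (d r : ℕ) : ∃ K : ℝ, 0 ≤ K ∧ ∀ (O τ : Type) [CommRing O] [Fintype τ]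
    (f : (MvPolynomial τ O)[X]), f.Monic → 3 ≤ f.natDegree → Odd f.natDegree → f.natDegree = d →
    ∀ (F : Type) [Field F] [Finite F], ringChar F ≠ 2 → ∀ ψ : O →+* F,
      |average f r ψ + r| ≤ K * (Nat.card F : ℝ) ^ (-(1 / 2) : ℝ) := by
  classical
  obtain ⟨K, hK, hnet⟩ := net d r
  refine ⟨K, hK, fun O τ _ _ f hf hn hodd hd F _ _ hF ψ => ?_⟩
  let _ : Fintype F := Fintype.ofFinite F
  have hq : (0 : ℝ) < Fintype.card F := by exact_mod_cast Fintype.card_pos
  rw [average, sum_point f hF ψ, Nat.card_eq_fintype_card]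
  set q : ℝ := (Fintype.card F : ℝ) with hqd
  have h1 : ∀ u : τ → F, |∑ h : Fin 2 → F, tS (Fh (gv f ψ u) h) *
      (q + SS (Fh (gv f ψ u) h)) ^ r + r * q ^ (r + 2)| ≤ K * (q ^ (r + 1) * Real.sqrt q) := by
    intro u
    have h2 := gv_monic f hf ψ u
    exact hnet F hF (gv f ψ u) h2.1 (by rw [h2.2]; exact hn) (by rw [h2.2]; exact hodd)
      (h2.2.trans hd)
  have e1 : (∑ u : τ → F, ∑ h : Fin 2 → F, tS (Fh (gv f ψ u) h) *
      (q + SS (Fh (gv f ψ u) h)) ^ r) / q ^ (Fintype.card τ + r + 2) + r =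
      (∑ u : τ → F, (∑ h : Fin 2 → F, tS (Fh (gv f ψ u) h) *
      (q + SS (Fh (gv f ψ u) h)) ^ r + r * q ^ (r + 2))) / q ^ (Fintype.card τ + r + 2) := by
    rw [sum_add_distrib, sum_const, card_univ, Fintype.card_fun, nsmul_eq_mul, add_div]
    congr 1
    push_cast
    rw [← hqd]
    field_simp
    ring
  rw [e1, abs_div, abs_of_pos (pow_pos hq _), div_le_iff₀ (pow_pos hq _)]
  refine (abs_sum_le_sum_abs _ _).trans ((sum_le_sum fun u _ => h1 u).trans ?_)
  rw [sum_const, card_univ, Fintype.card_fun, nsmul_eq_mul]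
  push_cast
  rw [← hqd, Real.sqrt_eq_rpow]
  have e2 : q ^ (-(1 / 2) : ℝ) * q ^ (Fintype.card τ + r + 2) =
      q ^ Fintype.card τ * (q ^ (r + 1) * q ^ (1 / 2 : ℝ)) := by
    rw [← Real.rpow_natCast, ← Real.rpow_natCast, ← Real.rpow_natCast, ← Real.rpow_add hq,
      ← Real.rpow_add hq, ← Real.rpow_add hq]
    congr 1
    push_cast
    ring
  rw [mul_assoc, e2]
  apply le_of_eq
  ring

theorem average_two {O τ : Type} [CommRing O] [Fintype τ] (f : (MvPolynomial τ O)[X]) (r : ℕ)
    {F : Type} [Field F] [Finite F] (hF : ringChar F = 2) (ψ : O →+* F) : average f r ψ = 0 := by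
  let _ : Fintype F := Fintype.ofFinite F
  rw [average]
  have h : ∀ φ : {φ : FR f r →+* F // φ.comp (base f r) = ψ}, tF f F φ.1 = 0 :=
    fun φ => tF_two f hF φ.1
  rw [finsum_congr h, finsum_zero, zero_div]

end Q45.HF
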