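import Pool.Agent.Q45.HF.Main
import Pool.Agent.Q45.HF.Base

/-!
# Fibre powers of nets of hyperelliptic curves: the order of vanishing and the rank
-/

set_option autoImplicit false
set_option maxHeartbeats 1000000

open Polynomial NumberField Finset Filter Topology Pool.Agent.TH943.HJ

namespace Q45.HF

open Q45.UH Q45.RG
open Pool.Agent.TH958.An (Pt Res qy)

section

variable {O τ : Type} [CommRing O] [IsDomain O] [CharZero O] {r : ℕ} {f : (MvPolynomial τ O)[X]}
  (hf : f.Monic) (hn : 3 ≤ f.natDegree) (hodd : Odd f.natDegree) (K : Type) [Field K]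
  [Algebra (FR f r) K] [IsFractionRing (FR f r) K]

include hf hn hodd in
/-- the rank, for a field of fractions -/
theorem rank_final : Good f (algebraMap (FR f r) K) ∧
    ∃ _ : IsDedekindDomain (CR (fib f (algebraMap (FR f r) K))),
      Module.Free ℤ (Additive (ClassGroup (CR (fib f (algebraMap (FR f r) K))))) ∧
      Module.Finite ℤ (Additive (ClassGroup (CR (fib f (algebraMap (FR f r) K))))) ∧
      Module.finrank ℤ (Additive (ClassGroup (CR (fib f (algebraMap (FR f r) K))))) = r := by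
  let _ : Algebra (MvPolynomial (Idx τ r) O) K :=
    ((algebraMap (FR f r) K).comp (algebraMap (MvPolynomial (Idx τ r) O) (FR f r))).toAlgebra
  have _ : IsScalarTower (MvPolynomial (Idx τ r) O) (FR f r) K :=
    IsScalarTower.of_algebraMap_eq' rfl
  have hdom : IsDomain (FR f r) := FR_domain f hn
  have hinj := K_inj (f := f) (r := r) (K := K) hn
  let _ : Algebra (Vf O τ r) K := (IsFractionRing.lift (K := Vf O τ r) hinj).toAlgebra
  have _ : IsScalarTower (MvPolynomial (Idx τ r) O) (Vf O τ r) K :=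
    IsScalarTower.of_algebraMap_eq fun p => (IsFractionRing.lift_algebraMap hinj p).symm
  obtain ⟨h1, h2, h3⟩ := FK_irr (r := r) (K := K) hf hn hodd
  obtain ⟨hc, _⟩ := charK (f := f) (r := r) (K := K) hn
  have hD : IsDedekindDomain (CR (FK f r K)) :=
    dedekind two_ne_zero (by rw [h3]; exact hodd) h2.squarefree
  exact ⟨⟨two_ne_zero, h2.separable⟩, hD, rank_K hf hn hodd⟩

end

section

variable {k : Type} [Field k] [NumberField k]

/-- the continuation at the points of the line -/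
theorem line (n : ℕ) (r : ℕ) (E : ℂ → ℂ) (hE : ∀ s : ℂ, (n : ℝ) + 5 / 6 < s.re →
    AnalyticAt ℂ E s ∧ E s ≠ 0) (t : ℝ) : ∃ G : ℂ → ℂ,
    AnalyticAt ℂ G (((n + 1 : ℕ) : ℂ) + t * Complex.I) ∧
    G (((n + 1 : ℕ) : ℂ) + t * Complex.I) ≠ 0 ∧
    ∀ᶠ s in 𝓝 (((n + 1 : ℕ) : ℂ) + t * Complex.I), ((n + 1 : ℕ) : ℝ) < s.re →
      (s - ((n + 1 : ℕ) : ℂ)) ^ r * G s = E s / dedekindZeta k (s - (n : ℂ)) ^ r := by
  obtain ⟨g, h1, h2, h3⟩ := zeta_line k t
  have e1 : ((n + 1 : ℕ) : ℂ) + t * Complex.I - (n : ℂ) = 1 + t * Complex.I := by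
    push_cast
    ring
  have hre : (((n + 1 : ℕ) : ℂ) + t * Complex.I).re = (n : ℝ) + 1 := by
    simp
  obtain ⟨h4, h5⟩ := hE (((n + 1 : ℕ) : ℂ) + t * Complex.I) (by rw [hre]; linarith)
  have hsub : AnalyticAt ℂ (fun s : ℂ => s - (n : ℂ)) (((n + 1 : ℕ) : ℂ) + t * Complex.I) :=
    analyticAt_id.sub analyticAt_const
  have h6 : AnalyticAt ℂ (fun s : ℂ => g (s - (n : ℂ))) (((n + 1 : ℕ) : ℂ) + t * Complex.I) :=
    AnalyticAt.fun_comp (by rw [e1]; exact h1) hsub
  refine ⟨fun s => E s / g (s - (n : ℂ)) ^ r, ?_, ?_, ?_⟩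
  · refine h4.div (h6.pow r) (pow_ne_zero r ?_)
    rw [e1]
    exact h2
  · refine div_ne_zero h5 (pow_ne_zero r ?_)
    rw [e1]
    exact h2
  · have h7 : ∀ᶠ s in 𝓝 (((n + 1 : ℕ) : ℂ) + t * Complex.I), 1 < (s - (n : ℂ)).re →
        g (s - (n : ℂ)) = (s - (n : ℂ) - 1) * dedekindZeta k (s - (n : ℂ)) := by
      have hcont := hsub.continuousAt
      rw [ContinuousAt, e1] at hcont
      exact hcont.eventually h3
    filter_upwards [h7] with s hs hs1
    have hre2 : (s - (n : ℂ)).re = s.re - n := by rw [Complex.sub_re, Complex.natCast_re]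
    have h8 := hs (by
      rw [hre2]
      push_cast at hs1
      linarith)
    have hne : s - ((n + 1 : ℕ) : ℂ) ≠ 0 := by
      intro h0
      have h9 := congrArg Complex.re h0
      rw [Complex.sub_re, Complex.natCast_re, Complex.zero_re] at h9
      linarith
    have e2 : s - (n : ℂ) - 1 = s - ((n + 1 : ℕ) : ℂ) := by
      push_cast
      ring
    rw [h8, e2, mul_pow, mul_div_assoc', mul_comm, mul_comm ((s - ((n + 1 : ℕ) : ℂ)) ^ r) (dedekindZeta k (s - (n : ℂ)) ^ r),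
      mul_div_mul_right _ _ (pow_ne_zero r hne)]

variable {τ : Type} [Fintype τ]
  {f : (MvPolynomial τ (𝓞 k))[X]} (r : ℕ) (hf : f.Monic) (hn : 3 ≤ f.natDegree)
  (hodd : Odd f.natDegree)

include hf hn hodd in
/-- **The order of vanishing and the rank.** -/
theorem main (n : ℕ) (hnn : n = Fintype.card τ + r + 3) :
    IsDomain (FR f r) ∧ ringKrullDim (FR f r) = n ∧ ∃ Φ E Λ : ℂ → ℂ,
      (∀ s : ℂ, (n : ℝ) + 1 / 2 < s.re →
        HasProd (fun y : {y : Pt (FR f r) // Good f (red f y)} =>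
          (lpoly (fib f (red f y.1)) ((qy y.1 : ℂ) ^ (-s)))⁻¹) (Φ s)) ∧
      (∀ s : ℂ, (n : ℝ) < s.re → AnalyticAt ℂ Φ s ∧ Φ s ≠ 0 ∧
        Φ s = E s / dedekindZeta k (s - n + 1) ^ r) ∧
      (∀ s : ℂ, (n : ℝ) - 1 / 6 < s.re → AnalyticAt ℂ E s ∧ E s ≠ 0) ∧
      (∀ t : ℝ, t ≠ 0 → ∃ G : ℂ → ℂ, AnalyticAt ℂ G (n + t * Complex.I) ∧
        G (n + t * Complex.I) ≠ 0 ∧
        ∀ᶠ s in 𝓝 (n + t * Complex.I), (n : ℝ) < s.re → G s = Φ s) ∧
      (AnalyticAt ℂ Λ n ∧ ∀ᶠ s in 𝓝 (n : ℂ), (n : ℝ) < s.re → Λ s = Φ s) ∧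
      ∀ (K : Type) [Field K] [Algebra (FR f r) K] [IsFractionRing (FR f r) K],
        Good f (algebraMap (FR f r) K) ∧
        ∃ _ : IsDedekindDomain (CR (fib f (algebraMap (FR f r) K))),
          Module.Free ℤ (Additive (ClassGroup (CR (fib f (algebraMap (FR f r) K))))) ∧
          Module.Finite ℤ (Additive (ClassGroup (CR (fib f (algebraMap (FR f r) K))))) ∧
          Module.finrank ℤ (Additive (ClassGroup (CR (fib f (algebraMap (FR f r) K))))) = r ∧
          analyticOrderAt Λ n =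
            Module.finrank ℤ (Additive (ClassGroup (CR (fib f (algebraMap (FR f r) K))))) := by
  obtain ⟨m, hm⟩ : ∃ m, m = Fintype.card τ + r + 2 := ⟨_, rfl⟩
  have hnm : n = m + 1 := by omega
  subst hnm
  refine ⟨FR_domain f hn, ?_, ?_⟩
  · rw [dim_FR hn, hnn]
  obtain ⟨E, h1, h2⟩ := euler (k := k) r hf hn hodd
  rw [← hm] at h1 h2
  have hz : ∀ s : ℂ, s - ((m + 1 : ℕ) : ℂ) + 1 = s - (m : ℂ) := fun s => by push_cast; ring
  obtain ⟨G, g1, g2, g3⟩ := line (k := k) m r E h1 0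
  rw [Complex.ofReal_zero, zero_mul, add_zero] at g1 g2 g3
  refine ⟨fun s => E s / dedekindZeta k (s - (m : ℂ)) ^ r, E,
    fun s => (s - ((m + 1 : ℕ) : ℂ)) ^ r * G s, ?_, ?_, ?_, ?_, ⟨?_, ?_⟩, ?_⟩
  · intro s hs
    refine h2 s ?_
    push_cast at hs
    linarith
  · intro s hs
    have hre : 1 < (s - (m : ℂ)).re := by
      rw [Complex.sub_re, Complex.natCast_re]
      push_cast at hs
      linarith
    obtain ⟨h3, h4⟩ := h1 s (by push_cast at hs; linarith)
    have hz1 := H332.PIT.zeta_ne_zero (K := k) hre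
    have hz2 : AnalyticAt ℂ (fun s : ℂ => dedekindZeta k (s - (m : ℂ))) s :=
      AnalyticAt.fun_comp (H332.PIT.zeta_analyticAt (K := k) hre)
        (analyticAt_id.sub analyticAt_const)
    exact ⟨h3.div (hz2.pow r) (pow_ne_zero r hz1), div_ne_zero h4 (pow_ne_zero r hz1),
      by rw [hz]⟩
  · intro s hs
    refine h1 s ?_
    push_cast at hs
    linarith
  · intro t ht
    obtain ⟨G', g4, g5, g6⟩ := line (k := k) m r E h1 t
    refine ⟨fun s => (s - ((m + 1 : ℕ) : ℂ)) ^ r * G' s,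
      ((analyticAt_id.sub analyticAt_const).pow r).mul g4, mul_ne_zero (pow_ne_zero r ?_) g5, ?_⟩
    · rw [add_sub_cancel_left]
      exact mul_ne_zero (by exact_mod_cast ht) Complex.I_ne_zero
    · filter_upwards [g6] with s hs hs1
      exact hs hs1
  · exact ((analyticAt_id.sub analyticAt_const).pow r).mul g1
  · filter_upwards [g3] with s hs hs1
    exact hs hs1
  · intro K _ _ _
    obtain ⟨a1, a2, a3, a4, a5⟩ := rank_final (r := r) hf hn hodd K
    refine ⟨a1, a2, a3, a4, a5, ?_⟩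
    have hΛ : AnalyticAt ℂ (fun s => (s - ((m + 1 : ℕ) : ℂ)) ^ r * G s) ((m + 1 : ℕ) : ℂ) :=
      ((analyticAt_id.sub analyticAt_const).pow r).mul g1
    rw [a5, hΛ.analyticOrderAt_eq_natCast]
    exact ⟨G, g1, g2, Eventually.of_forall fun s => rfl⟩

end

end Q45.HF
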