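import Pool.Agent.Q45.HF.Hom
import Pool.Agent.Q45.UH.Gen3
import Pool.Agent.Q45.RG.Ext

/-!
# Fibre powers of nets of hyperelliptic curves: the fields of rational functions
-/

set_option autoImplicit false
set_option maxHeartbeats 1000000

open Polynomial Pool.Agent.TH943.HJ

namespace Q45.HF

open Q45.UH Q45.RG
open Pool.Agent.TH958.FP (RR yR yR_sq RR_domain RR_base_inj eigen yK sK sK_y yK_sq K_adjoin)

section abstract_frac

variable {A P L V K : Type} [CommRing A] [IsDomain A] [CommRing P] [Field L] [Algebra A L]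
  [IsFractionRing A L] [Field V] [Algebra L[X] V] [IsFractionRing L[X] V] [Field K]

/-- the map of `P = A[X]` to the field `L(X)` -/
noncomputable def iA (L V : Type) [Field L] [Algebra A L] [Field V] [Algebra L[X] V]
    (e : P ≃+* A[X]) : P →+* V :=
  (algebraMap L[X] V).comp ((mapRingHom (algebraMap A L)).comp e.toRingHom)

omit [IsDomain A] in
theorem iA_inj (e : P ≃+* A[X]) : Function.Injective (iA L V e) :=
  (IsFractionRing.injective L[X] V).comp
    ((map_injective _ (IsFractionRing.injective A L)).comp e.injective)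

theorem iA_num (e : P ≃+* A[X]) (z : L[X]) : ∃ p q : P, iA L V e q ≠ 0 ∧
    algebraMap L[X] V z * iA L V e q = iA L V e p := by
  obtain ⟨b, hbm, hb⟩ := IsLocalization.integerNormalization_spec (nonZeroDivisors A) z
  have hb0 : (b : A) ≠ 0 := nonZeroDivisors.ne_zero hbm
  refine ⟨e.symm (IsLocalization.integerNormalization (nonZeroDivisors A) z),
    e.symm (C (b : A)), ?_, ?_⟩
  · intro h
    have h1 := iA_inj (L := L) (V := V) e (h.trans (map_zero _).symm)
    rw [EmbeddingLike.map_eq_zero_iff, C_eq_zero] at h1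
    exact hb0 h1
  · have h1 : ∀ q : A[X], iA L V e (e.symm q) = algebraMap L[X] V (q.map (algebraMap A L)) := by
      intro q
      show algebraMap L[X] V ((e (e.symm q)).map (algebraMap A L)) = _
      rw [e.apply_symm_apply]
    rw [h1, h1, ← map_mul, hb]
    congr 1
    rw [map_C, mul_comm, Algebra.smul_def]
    rfl

theorem iA_frac (e : P ≃+* A[X]) (z : V) : ∃ p q : P, z = iA L V e p / iA L V e q := by
  obtain ⟨a, b, hb, rfl⟩ := IsFractionRing.div_surjective (A := L[X]) z
  obtain ⟨p, q, hq, h1⟩ := iA_num (V := V) e a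
  obtain ⟨p', q', hq', h2⟩ := iA_num (V := V) e b
  have hb' : algebraMap L[X] V b ≠ 0 := by
    intro h
    exact nonZeroDivisors.ne_zero hb (IsFractionRing.injective L[X] V (h.trans (map_zero _).symm))
  refine ⟨p * q', q * p', ?_⟩
  rw [map_mul, map_mul, ← h1, ← h2]
  field_simp

theorem iA_isFrac (e : P ≃+* A[X]) :
    letI := (iA L V e).toAlgebra
    IsFractionRing P V := by
  let _ := (iA L V e).toAlgebra
  have : FaithfulSMul P V := (faithfulSMul_iff_algebraMap_injective P V).2 (iA_inj (L := L) e)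
  exact IsFractionRing.of_field P V fun z => iA_frac (L := L) e z

/-- the extension of an injective map of `P` -/
theorem iA_lift (e : P ≃+* A[X]) (g : P →+* K) (hg : Function.Injective g) :
    ∃ φ : V →+* K, ∀ p, φ (iA L V e p) = g p := by
  let _ := (iA L V e).toAlgebra
  have h1 : IsFractionRing P V := iA_isFrac (L := L) e
  have h2 : IsDomain P := e.toMulEquiv.isDomain A[X]
  exact ⟨IsFractionRing.lift hg, fun p => IsFractionRing.lift_algebraMap hg p⟩

end abstract_frac

section

variable {O τ : Type} [CommRing O] {r : ℕ}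

/-- the ring of the parameters without `h_0` -/
abbrev Ar (O τ : Type) [CommRing O] (r : ℕ) : Type := MvPolynomial (Option (τ ⊕ Fin r)) O

/-- its fraction field -/
abbrev Lf (O τ : Type) [CommRing O] (r : ℕ) : Type := FractionRing (Ar O τ r)

/-- the fraction field of the ring of the parameters -/
def Vf (O τ : Type) [CommRing O] [IsDomain O] (r : ℕ) : Type := FractionRing (Lf O τ r)[X]

noncomputable instance (O τ : Type) [CommRing O] [IsDomain O] (r : ℕ) : Field (Vf O τ r) :=
  inferInstanceAs (Field (FractionRing (Lf O τ r)[X]))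

noncomputable instance (O τ : Type) [CommRing O] [IsDomain O] (r : ℕ) :
    Algebra (Lf O τ r)[X] (Vf O τ r) :=
  inferInstanceAs (Algebra (Lf O τ r)[X] (FractionRing (Lf O τ r)[X]))

instance (O τ : Type) [CommRing O] [IsDomain O] (r : ℕ) :
    IsFractionRing (Lf O τ r)[X] (Vf O τ r) :=
  inferInstanceAs (IsFractionRing (Lf O τ r)[X] (FractionRing (Lf O τ r)[X]))

section
variable [IsDomain O]

/-- the embedding of the ring of the parameters -/
noncomputable def io0 (O τ : Type) [CommRing O] [IsDomain O] (r : ℕ) :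
    MvPolynomial (Idx τ r) O →+* Vf O τ r :=
  iA (Lf O τ r) (Vf O τ r) (MvPolynomial.optionEquivLeft O (Option (τ ⊕ Fin r))).toRingEquiv

theorem io0_inj : Function.Injective (io0 O τ r) := iA_inj _

theorem io0_none : io0 O τ r (MvPolynomial.X none) = hh (Lf O τ r) (Vf O τ r) := by
  show algebraMap (Lf O τ r)[X] (Vf O τ r) ((MvPolynomial.optionEquivLeft O (Option (τ ⊕ Fin r))
    (MvPolynomial.X none)).map (algebraMap (Ar O τ r) (Lf O τ r))) = _
  rw [MvPolynomial.optionEquivLeft_X_none, map_X]
  rfl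

theorem io0_X (k : Option (τ ⊕ Fin r)) : io0 O τ r (MvPolynomial.X (some k)) =
    lk (Lf O τ r) (Vf O τ r) (algebraMap (Ar O τ r) (Lf O τ r) (MvPolynomial.X k)) := by
  show algebraMap (Lf O τ r)[X] (Vf O τ r) ((MvPolynomial.optionEquivLeft O (Option (τ ⊕ Fin r))
    (MvPolynomial.X (some k))).map (algebraMap (Ar O τ r) (Lf O τ r))) = _
  rw [MvPolynomial.optionEquivLeft_X_some, map_C]
  rfl

theorem io0_C (a : O) : io0 O τ r (MvPolynomial.C a) =
    lk (Lf O τ r) (Vf O τ r) (algebraMap (Ar O τ r) (Lf O τ r) (MvPolynomial.C a)) := by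
  show algebraMap (Lf O τ r)[X] (Vf O τ r) ((MvPolynomial.optionEquivLeft O (Option (τ ⊕ Fin r))
    (MvPolynomial.C a)).map (algebraMap (Ar O τ r) (Lf O τ r))) = _
  rw [MvPolynomial.optionEquivLeft_C, map_C]
  rfl

/-- the map of the constants -/
noncomputable def jL (O τ : Type) [CommRing O] (r : ℕ) : MvPolynomial τ O →+* Lf O τ r :=
  (algebraMap (Ar O τ r) (Lf O τ r)).comp
    (MvPolynomial.rename (R := O) (fun t : τ => (some (Sum.inl t) : Option (τ ⊕ Fin r)))).toRingHom

omit [IsDomain O] in
theorem jL_C (a : O) : jL O τ r (MvPolynomial.C a) =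
    algebraMap (Ar O τ r) (Lf O τ r) (MvPolynomial.C a) := by
  show algebraMap (Ar O τ r) (Lf O τ r) (MvPolynomial.rename _ (MvPolynomial.C a)) = _
  rw [MvPolynomial.rename_C]

omit [IsDomain O] in
theorem jL_X (t : τ) : jL O τ r (MvPolynomial.X t) =
    algebraMap (Ar O τ r) (Lf O τ r) (MvPolynomial.X (some (Sum.inl t))) := by
  show algebraMap (Ar O τ r) (Lf O τ r) (MvPolynomial.rename _ (MvPolynomial.X t)) = _
  rw [MvPolynomial.rename_X]

omit [IsDomain O] in
theorem jP_C (a : O) : jP O τ r (MvPolynomial.C a) = MvPolynomial.C a := MvPolynomial.rename_C _ _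

omit [IsDomain O] in
theorem jP_X (t : τ) : jP O τ r (MvPolynomial.X t) = MvPolynomial.X (some (some (Sum.inl t))) :=
  MvPolynomial.rename_X _ _

theorem io0_jP : (io0 O τ r).comp (jP O τ r) = (lk (Lf O τ r) (Vf O τ r)).comp (jL O τ r) := by
  apply MvPolynomial.ringHom_ext
  · intro a
    rw [RingHom.comp_apply, RingHom.comp_apply, jP_C, io0_C, jL_C]
  · intro t
    rw [RingHom.comp_apply, RingHom.comp_apply, jP_X, io0_X, jL_X]

variable (f : (MvPolynomial τ O)[X])

omit [IsDomain O] in
theorem fam_eq : fam f r = f.map (jP O τ r) + C (MvPolynomial.X (some none)) * X +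
    C (MvPolynomial.X none) := rfl

/-- `x_i` -/
noncomputable def xL (O τ : Type) [CommRing O] {r : ℕ} (i : Fin r) : Lf O τ r :=
  algebraMap (Ar O τ r) (Lf O τ r) (MvPolynomial.X (some (Sum.inr i)))

/-- the additional variable -/
noncomputable def zL (O τ : Type) [CommRing O] (r : ℕ) : Lf O τ r :=
  algebraMap (Ar O τ r) (Lf O τ r) (MvPolynomial.X none)

theorem zL_ne : zL O τ r ≠ 0 := by
  intro h
  have h1 := IsFractionRing.injective (Ar O τ r) (Lf O τ r) (h.trans (map_zero _).symm)
  exact MvPolynomial.X_ne_zero _ h1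

/-- `f + h_1 X` -/
noncomputable def f0 (r : ℕ) : (Lf O τ r)[X] := f.map (jL O τ r) + C (zL O τ r) * X

/-- `f - f(x_j) + y_j ^ 2` -/
noncomputable def fj (j : Fin r) : (Lf O τ r)[X] :=
  f.map (jL O τ r) + C (zL O τ r ^ 2 - (f.map (jL O τ r)).eval (xL O τ j))

variable {f} (hf : f.Monic) (hn : 3 ≤ f.natDegree) (hodd : Odd f.natDegree)

include hf hn in
theorem f0_md : (f0 f r).Monic ∧ (f0 f r).natDegree = f.natDegree := by
  have h1 : (f.map (jL O τ r)).Monic := hf.map _
  have h2 : (f.map (jL O τ r)).natDegree = f.natDegree := hf.natDegree_map _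
  have h3 : (C (zL O τ r) * X : (Lf O τ r)[X]).natDegree ≤ 1 := (natDegree_C_mul_le _ _).trans natDegree_X_le
  have h4 : (C (zL O τ r) * X : (Lf O τ r)[X]).natDegree < (f.map (jL O τ r)).natDegree := by omega
  constructor
  · exact h1.add_of_left (degree_lt_degree h4)
  · rw [f0, natDegree_add_eq_left_of_natDegree_lt h4, h2]

include hf hn in
theorem fj_md (j : Fin r) : (fj f j).Monic ∧ (fj f j).natDegree = f.natDegree := by
  have h1 : (f.map (jL O τ r)).Monic := hf.map _
  have h2 : (f.map (jL O τ r)).natDegree = f.natDegree := hf.natDegree_map _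
  have h4 : (C (zL O τ r ^ 2 - (f.map (jL O τ r)).eval (xL O τ j)) : (Lf O τ r)[X]).natDegree <
      (f.map (jL O τ r)).natDegree := by
    rw [natDegree_C]
    omega
  constructor
  · exact h1.add_of_left (degree_lt_degree h4)
  · rw [fj, natDegree_add_eq_left_of_natDegree_lt h4, h2]

include hf hn hodd in
theorem dt0 : Dt (f0 f r) (Fin.elim0 : Fin 0 → Lf O τ r) Fin.elim0 where
  monic := (f0_md hf hn).1
  odd := by rw [(f0_md hf hn).2]; exact hodd
  lt := by rw [(f0_md hf hn).2]; omega
  inj := Function.injective_of_subsingleton _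
  pt := fun i => i.elim0
  ne := fun i => i.elim0

include hf hn hodd in
theorem dtj (j : Fin r) : Dt (fj f j) (fun _ : Fin 1 => xL O τ j) (fun _ => zL O τ r) where
  monic := (fj_md hf hn j).1
  odd := by rw [(fj_md hf hn j).2]; exact hodd
  lt := by rw [(fj_md hf hn j).2]; omega
  inj := Function.injective_of_subsingleton _
  pt := fun i => by
    rw [fj, eval_add, eval_C]
    ring
  ne := fun i => zL_ne

theorem pi_zero {L : Type} [Field L] (x : Fin 0 → L) : Q45.UH.pi x = 1 := by
  rw [Q45.UH.pi, Finset.univ_eq_empty, Finset.prod_empty]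

theorem pi_one {L : Type} [Field L] (x : L) : Q45.UH.pi (fun _ : Fin 1 => x) = X - C x := by
  rw [Q45.UH.pi, Fin.prod_univ_one]

theorem fam_io0 : (fam f r).map (io0 O τ r) =
    gF (Vf O τ r) (f0 f r) (Q45.UH.pi (Fin.elim0 : Fin 0 → Lf O τ r)) := by
  rw [fam_eq, Polynomial.map_add, Polynomial.map_add, Polynomial.map_mul, Polynomial.map_map,
    io0_jP, map_C, map_C, map_X, io0_none, io0_X, pi_zero, gF, f0, Polynomial.map_add,
    Polynomial.map_mul, Polynomial.map_map, map_C, map_X, Polynomial.map_one, mul_one]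
  rfl

/-- the substitution `h_1 ↦ h_1`, `h_0 ↦ y_j ^ 2 - f(x_j) - h_1 x_j` -/
noncomputable def th (f : (MvPolynomial τ O)[X]) (j : Fin r) :
    MvPolynomial (Idx τ r) O →+* MvPolynomial (Idx τ r) O :=
  MvPolynomial.eval₂Hom MvPolynomial.C (fun
    | none => MvPolynomial.X (some none) ^ 2 -
        (f.map (jP O τ r)).eval (MvPolynomial.X (some (some (Sum.inr j)))) -
        MvPolynomial.X none * MvPolynomial.X (some (some (Sum.inr j)))
    | some none => MvPolynomial.X none
    | some (some k) => MvPolynomial.X (some (some k)))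

omit [IsDomain O] in
theorem th_C (j : Fin r) (a : O) : th f j (MvPolynomial.C a) = MvPolynomial.C a := by
  rw [th, MvPolynomial.coe_eval₂Hom, MvPolynomial.eval₂_C]

omit [IsDomain O] in
theorem th_none (j : Fin r) : th f j (MvPolynomial.X none) = MvPolynomial.X (some none) ^ 2 -
    (f.map (jP O τ r)).eval (MvPolynomial.X (some (some (Sum.inr j)))) -
    MvPolynomial.X none * MvPolynomial.X (some (some (Sum.inr j))) := by
  rw [th, MvPolynomial.coe_eval₂Hom, MvPolynomial.eval₂_X]

omit [IsDomain O] in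
theorem th_one (j : Fin r) : th f j (MvPolynomial.X (some none)) = MvPolynomial.X none := by
  rw [th, MvPolynomial.coe_eval₂Hom, MvPolynomial.eval₂_X]

omit [IsDomain O] in
theorem th_some (j : Fin r) (k : τ ⊕ Fin r) : th f j (MvPolynomial.X (some (some k))) =
    MvPolynomial.X (some (some k)) := by
  rw [th, MvPolynomial.coe_eval₂Hom, MvPolynomial.eval₂_X]

theorem th_jP (j : Fin r) : (th f j).comp (jP O τ r) = jP O τ r := by
  apply MvPolynomial.ringHom_ext
  · intro a
    rw [RingHom.comp_apply, jP_C, th_C]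
  · intro t
    rw [RingHom.comp_apply, jP_X, th_some]

theorem fam_th (j : Fin r) : (fam f r).map ((io0 O τ r).comp (th f j)) =
    gF (Vf O τ r) (fj f j) (Q45.UH.pi (fun _ : Fin 1 => xL O τ j)) := by
  have h1 : io0 O τ r ((f.map (jP O τ r)).eval (MvPolynomial.X (some (some (Sum.inr j))))) =
      lk (Lf O τ r) (Vf O τ r) ((f.map (jL O τ r)).eval (xL O τ j)) := by
    rw [← eval_map_apply, Polynomial.map_map, io0_jP, io0_X, ← Polynomial.map_map, eval_map_apply]
    rfl
  have h2 : io0 O τ r (th f j (MvPolynomial.X none)) =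
      lk (Lf O τ r) (Vf O τ r) (zL O τ r) ^ 2 -
      lk (Lf O τ r) (Vf O τ r) ((f.map (jL O τ r)).eval (xL O τ j)) -
      hh (Lf O τ r) (Vf O τ r) * lk (Lf O τ r) (Vf O τ r) (xL O τ j) := by
    rw [th_none, map_sub, map_sub, map_mul, map_pow, h1, io0_X, io0_X, io0_none]
    rfl
  rw [fam_eq, Polynomial.map_add, Polynomial.map_add, Polynomial.map_mul, Polynomial.map_map,
    RingHom.comp_assoc, th_jP, io0_jP, map_C, map_C, map_X, RingHom.comp_apply, RingHom.comp_apply,
    h2, th_one, io0_none, pi_one, gF, fj, Polynomial.map_add, Polynomial.map_map, map_C,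
    Polynomial.map_sub, map_X, map_C, map_sub (lk (Lf O τ r) (Vf O τ r)),
    map_pow (lk (Lf O τ r) (Vf O τ r))]
  simp only [C_sub, C_pow, C_mul]
  ring

end

end

end Q45.HF
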