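import Pool.Agent.Q45.HF.Fun

/-!
# Fibre powers of nets of hyperelliptic curves: the domain and the net
-/

set_option autoImplicit false
set_option maxHeartbeats 1000000

open Polynomial Pool.Agent.TH943.HJ Finset

namespace Q45.HF

open Q45.UH Q45.RG
open Pool.Agent.TH958.FP (RR yR yR_sq RR_domain RR_base_inj eigen yK sK sK_y yK_sq K_adjoin)

section

variable {O τ : Type} [CommRing O] {r : ℕ}

section gA

variable (f : (MvPolynomial τ O)[X])

/-- the map of the constants to `O[h_1, u, x]` -/
noncomputable def jA (O τ : Type) [CommRing O] (r : ℕ) : MvPolynomial τ O →+* Ar O τ r :=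
  (MvPolynomial.rename (R := O) (fun t : τ => (some (Sum.inl t) : Option (τ ⊕ Fin r)))).toRingHom

/-- `f(x_i) + h_1 x_i` -/
noncomputable def gA (i : Fin r) : Ar O τ r :=
  (f.map (jA O τ r)).eval (MvPolynomial.X (some (Sum.inr i))) +
    MvPolynomial.X none * MvPolynomial.X (some (Sum.inr i))

/-- the substitution `h_1 ↦ 0`, `x_k ↦ 0` for `k ≠ i` and `x_i ↦ X` -/
noncomputable def sI (i : Fin r) : Ar O τ r →+* (MvPolynomial τ O)[X] :=
  MvPolynomial.eval₂Hom (C.comp MvPolynomial.C) (fun
    | none => 0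
    | some (Sum.inl t) => C (MvPolynomial.X t)
    | some (Sum.inr k) => if k = i then X else 0)

theorem sI_jA (i : Fin r) : (sI (O := O) (τ := τ) i).comp (jA O τ r) = C := by
  apply MvPolynomial.ringHom_ext
  · intro a
    rw [RingHom.comp_apply]
    change sI i (MvPolynomial.rename _ (MvPolynomial.C a)) = _
    rw [MvPolynomial.rename_C, sI, MvPolynomial.coe_eval₂Hom, MvPolynomial.eval₂_C]
    rfl
  · intro t
    rw [RingHom.comp_apply]
    change sI i (MvPolynomial.rename _ (MvPolynomial.X t)) = _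
    rw [MvPolynomial.rename_X, sI, MvPolynomial.coe_eval₂Hom, MvPolynomial.eval₂_X]

theorem sI_x (i k : Fin r) : sI (O := O) (τ := τ) i (MvPolynomial.X (some (Sum.inr k))) =
    if k = i then X else 0 := by
  rw [sI, MvPolynomial.coe_eval₂Hom, MvPolynomial.eval₂_X]

theorem sI_none (i : Fin r) : sI (O := O) (τ := τ) i (MvPolynomial.X none) = 0 := by
  rw [sI, MvPolynomial.coe_eval₂Hom, MvPolynomial.eval₂_X]

theorem sI_gA (i k : Fin r) : sI i (gA f k) = if k = i then f else C (f.eval 0) := by
  rw [gA, map_add, map_mul, sI_none, zero_mul, add_zero, ← eval_map_apply, Polynomial.map_map,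
    sI_jA, sI_x]
  split_ifs
  · rw [eval_map, eval₂_C_X]
  · rw [eval_map]
    have h1 := hom_eval₂ f (RingHom.id (MvPolynomial τ O)) C 0
    rw [RingHom.comp_id, C_0] at h1
    rw [← h1]
    rfl

theorem gA_inj (hn : 3 ≤ f.natDegree) : Function.Injective (gA f : Fin r → Ar O τ r) := by
  intro i k hik
  by_contra hne
  have h1 := congrArg (sI k) hik
  rw [sI_gA, sI_gA, if_neg hne, if_pos rfl] at h1
  rw [← h1, natDegree_C] at hn
  omega

end gA

section
variable [IsDomain O] (f : (MvPolynomial τ O)[X])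

/-- `f(x_i) + h_1 x_i` -/
noncomputable def gL (i : Fin r) : Lf O τ r := algebraMap (Ar O τ r) (Lf O τ r) (gA f i)

omit [IsDomain O] in
theorem rad_eq (i : Fin r) : rad f r i =
    (f.map (jP O τ r)).eval (MvPolynomial.X (some (some (Sum.inr i)))) +
      MvPolynomial.X (some none) * MvPolynomial.X (some (some (Sum.inr i))) +
      MvPolynomial.X none := by
  rw [rad, fam_eq, eval_add, eval_add, eval_mul, eval_C, eval_C, eval_X]

omit [IsDomain O] in
theorem jL_eq : jL O τ r = (algebraMap (Ar O τ r) (Lf O τ r)).comp (jA O τ r) := rfl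

theorem io0_rad (i : Fin r) : io0 O τ r (rad f r i) =
    algebraMap (Lf O τ r)[X] (Vf O τ r) (X - C (-gL f i)) := by
  rw [rad_eq, map_add, map_add, map_mul, ← eval_map_apply, Polynomial.map_map, io0_jP, io0_X,
    io0_X, io0_none, ← Polynomial.map_map, eval_map_apply, gL, gA, jL_eq, ← Polynomial.map_map,
    eval_map_apply, C_neg, sub_neg_eq_add, map_add, map_add, C_add, map_add, map_mul, C_mul,
    map_mul]
  show lk (Lf O τ r) (Vf O τ r) _ + lk (Lf O τ r) (Vf O τ r) _ * lk (Lf O τ r) (Vf O τ r) _ +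
    hh (Lf O τ r) (Vf O τ r) = hh (Lf O τ r) (Vf O τ r) + (lk (Lf O τ r) (Vf O τ r) _ +
      lk (Lf O τ r) (Vf O τ r) _ * lk (Lf O τ r) (Vf O τ r) _)
  rw [add_comm]

/-- The products of the values are not squares. -/
theorem rad_not_square (hn : 3 ≤ f.natDegree) (S : Finset (Fin r)) (hS : S.Nonempty) :
    ¬ IsSquare (io0 O τ r (∏ i ∈ S, rad f r i)) := by
  rintro ⟨v, hv⟩
  obtain ⟨i, hi⟩ := hS
  have h0 : io0 O τ r (∏ i ∈ S, rad f r i) =
      algebraMap (Lf O τ r)[X] (Vf O τ r) (∏ i ∈ S, (X - C (-gL f i))) := by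
    rw [map_prod, map_prod]
    exact prod_congr rfl fun i _ => io0_rad f i
  rw [h0] at hv
  have hint : IsIntegral (Lf O τ r)[X] (v ^ 2) := by
    rw [sq, ← hv]
    exact isIntegral_algebraMap
  obtain ⟨p, rfl⟩ := IsIntegrallyClosed.exists_algebraMap_eq_of_isIntegral_pow
    (by norm_num : 0 < 2) hint
  rw [← map_mul] at hv
  have h2 := IsFractionRing.injective (Lf O τ r)[X] (Vf O τ r) hv
  rw [← mul_prod_erase S _ hi] at h2
  have h3 : p.IsRoot (-gL f i) := by
    have := congrArg (Polynomial.eval (-gL f i)) h2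
    rw [Polynomial.eval_mul, Polynomial.eval_mul, Polynomial.eval_sub, Polynomial.eval_X,
      Polynomial.eval_C, sub_self, zero_mul] at this
    exact mul_self_eq_zero.1 this.symm
  obtain ⟨g', hg'⟩ := Polynomial.dvd_iff_isRoot.2 h3
  rw [hg', mul_assoc] at h2
  have h4 := mul_left_cancel₀ (Polynomial.X_sub_C_ne_zero _) h2
  have h5 := congrArg (Polynomial.eval (-gL f i)) h4
  rw [Polynomial.eval_mul, Polynomial.eval_mul, Polynomial.eval_sub, Polynomial.eval_X,
      Polynomial.eval_C, sub_self, zero_mul, mul_zero, Polynomial.eval_prod, prod_eq_zero_iff] at h5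
  obtain ⟨j, hj, h6⟩ := h5
  rw [Polynomial.eval_sub, Polynomial.eval_X, Polynomial.eval_C, sub_eq_zero, neg_inj] at h6
  exact (ne_of_mem_erase hj) (gA_inj f hn (IsFractionRing.injective (Ar O τ r) (Lf O τ r) h6)).symm

noncomputable instance algPV : Algebra (MvPolynomial (Idx τ r) O) (Vf O τ r) :=
  (io0 O τ r).toAlgebra

instance fracPV : IsFractionRing (MvPolynomial (Idx τ r) O) (Vf O τ r) :=
  iA_isFrac (L := Lf O τ r)
    (MvPolynomial.optionEquivLeft O (Option (τ ⊕ Fin r))).toRingEquiv

variable [CharZero O]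

omit [IsDomain O] in
theorem two_ne_P : (2 : MvPolynomial (Idx τ r) O) ≠ 0 := by
  have h : (2 : MvPolynomial (Idx τ r) O) = MvPolynomial.C 2 := (map_ofNat _ 2).symm
  rw [h, Ne, MvPolynomial.C_eq_zero]
  exact two_ne_zero

theorem FR_domain (hn : 3 ≤ f.natDegree) : IsDomain (FR f r) :=
  RR_domain (rad f r) (Vf O τ r) two_ne_P (rad_not_square f hn)

theorem FR_base_inj (hn : 3 ≤ f.natDegree) :
    Function.Injective (algebraMap (MvPolynomial (Idx τ r) O) (FR f r)) :=
  RR_base_inj (rad f r) (Vf O τ r) two_ne_P (rad_not_square f hn)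

end

/-! ### the net -/

section

variable [IsDomain O] [CharZero O] {f : (MvPolynomial τ O)[X]} (hf : f.Monic)
  (hn : 3 ≤ f.natDegree) (hodd : Odd f.natDegree) {K : Type} [Field K]
  [Algebra (MvPolynomial (Idx τ r) O) K] [Algebra (FR f r) K]
  [IsScalarTower (MvPolynomial (Idx τ r) O) (FR f r) K] [IsFractionRing (FR f r) K]

/-- the polynomial over `K` -/
noncomputable abbrev FK (f : (MvPolynomial τ O)[X]) (r : ℕ) (K : Type) [Field K]
    [Algebra (MvPolynomial (Idx τ r) O) K] : K[X] :=
  (fam f r).map (algebraMap (MvPolynomial (Idx τ r) O) K)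

/-- the first coordinates -/
noncomputable abbrev xK (O τ : Type) [CommRing O] {r : ℕ} (K : Type) [Field K]
    [Algebra (MvPolynomial (Idx τ r) O) K] (i : Fin r) : K :=
  algebraMap (MvPolynomial (Idx τ r) O) K (MvPolynomial.X (some (some (Sum.inr i))))

/-- the second coordinates -/
noncomputable abbrev yy (f : (MvPolynomial τ O)[X]) {r : ℕ} (K : Type) [Field K]
    [Algebra (FR f r) K] (i : Fin r) : K := yK (rad f r) K i

/-- the coefficients -/
noncomputable def cf (O τ : Type) [CommRing O] (r : ℕ) :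
    MvPolynomial (Option (Option τ)) O →+* MvPolynomial (Idx τ r) O :=
  (MvPolynomial.rename (R := O) (Option.map (Option.map (Sum.inl : τ → τ ⊕ Fin r)))).toRingHom

/-- the set of the coefficients -/
def SK (O τ : Type) [CommRing O] (r : ℕ) (K : Type) [Field K]
    [Algebra (MvPolynomial (Idx τ r) O) K] : Set K :=
  Set.range ((algebraMap (MvPolynomial (Idx τ r) O) K).comp (cf O τ r))

/-- the derivation of `x_i` -/
noncomputable def pd (O τ : Type) [CommRing O] {r : ℕ} (i : Fin r) :
    Derivation ℤ (MvPolynomial (Idx τ r) O) (MvPolynomial (Idx τ r) O) :=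
  (MvPolynomial.pderiv (some (some (Sum.inr i)))).restrictScalars ℤ

omit [IsDomain O] [CharZero O] in
theorem pd_self (i : Fin r) : pd O τ i (MvPolynomial.X (some (some (Sum.inr i)))) = 1 :=
  MvPolynomial.pderiv_X_self _

omit [IsDomain O] [CharZero O] in
theorem pd_ne (i : Fin r) (k : Idx τ r) (h : k ≠ some (some (Sum.inr i))) :
    pd O τ i (MvPolynomial.X k) = 0 :=
  MvPolynomial.pderiv_X_of_ne h

theorem pd_cf (i : Fin r) (p : MvPolynomial (Option (Option τ)) O) :
    pd O τ i (cf O τ r p) = 0 := by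
  induction p using MvPolynomial.induction_on with
  | C a =>
    show MvPolynomial.pderiv (some (some (Sum.inr i))) (MvPolynomial.rename _ (MvPolynomial.C a)) = 0
    rw [MvPolynomial.rename_C, MvPolynomial.pderiv_C]
  | add p q hp hq => rw [map_add, map_add, hp, hq, add_zero]
  | mul_X p k hp =>
    have h1 : cf O τ r (MvPolynomial.X k) =
        MvPolynomial.X (Option.map (Option.map Sum.inl) k) := MvPolynomial.rename_X _ _
    rw [map_mul, Derivation.leibniz, hp, smul_zero, add_zero, h1, pd_ne, smul_zero]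
    rcases k with _ | _ | t <;> simp

include hn in
theorem K_inj : Function.Injective (algebraMap (MvPolynomial (Idx τ r) O) K) := by
  rw [IsScalarTower.algebraMap_eq (MvPolynomial (Idx τ r) O) (FR f r) K]
  have := FR_domain f hn (r := r)
  exact (IsFractionRing.injective (FR f r) K).comp (FR_base_inj f hn)

end

section

variable (f : (MvPolynomial τ O)[X])

/-- the map of the constants -/
noncomputable def jC (O τ : Type) [CommRing O] :
    MvPolynomial τ O →+* MvPolynomial (Option (Option τ)) O :=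
  (MvPolynomial.rename (R := O) (fun t : τ => (some (some t) : Option (Option τ)))).toRingHom

theorem cf_jC : (cf O τ r).comp (jC O τ) = jP O τ r := by
  apply MvPolynomial.ringHom_ext
  · intro a
    rw [jP_C]
    show MvPolynomial.rename _ (MvPolynomial.rename _ (MvPolynomial.C a)) = _
    rw [MvPolynomial.rename_C, MvPolynomial.rename_C]
  · intro t
    rw [jP_X]
    show MvPolynomial.rename _ (MvPolynomial.rename _ (MvPolynomial.X t)) = _
    rw [MvPolynomial.rename_X, MvPolynomial.rename_X]
    rfl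

theorem cf_X (k : Option (Option τ)) : cf O τ r (MvPolynomial.X k) =
    MvPolynomial.X (Option.map (Option.map Sum.inl) k) := MvPolynomial.rename_X _ _

theorem fam_coeff (n : ℕ) : ∃ p, cf O τ r p = (fam f r).coeff n := by
  have h1 : (f.map (jC O τ) + C (MvPolynomial.X (some none)) * X + C (MvPolynomial.X none) :
      (MvPolynomial (Option (Option τ)) O)[X]).map (cf O τ r) = fam f r := by
    rw [Polynomial.map_add, Polynomial.map_add, Polynomial.map_mul, Polynomial.map_map,
      map_X, map_C, map_C, cf_jC, cf_X, cf_X]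
    rfl
  rw [← h1, coeff_map]
  exact ⟨_, rfl⟩

end

end

end Q45.HF
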