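import Pool.Agent.Q45.HF.Fun2

/-!
# Fibre powers of nets of hyperelliptic curves: the function field is a net
-/

set_option autoImplicit false
set_option maxHeartbeats 1000000

open Polynomial Pool.Agent.TH943.HJ Finset

namespace Q45.HF

open Q45.UH Q45.RG
open Pool.Agent.TH958.FP (RR yR yR_sq RR_domain RR_base_inj eigen yK sK sK_y yK_sq K_adjoin
  RR_expand)

section

variable {O τ : Type} [CommRing O] [IsDomain O] [CharZero O] {r : ℕ} {f : (MvPolynomial τ O)[X]}
  (hf : f.Monic) (hn : 3 ≤ f.natDegree) (hodd : Odd f.natDegree) {K : Type} [Field K]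
  [Algebra (MvPolynomial (Idx τ r) O) K] [Algebra (FR f r) K]
  [IsScalarTower (MvPolynomial (Idx τ r) O) (FR f r) K] [IsFractionRing (FR f r) K]

include hn in
theorem charK : CharZero K ∧ Function.Injective (algebraMap (MvPolynomial (Idx τ r) O) K) :=
  ⟨charZero_of_injective_algebraMap (R := MvPolynomial (Idx τ r) O) (K_inj hn), K_inj hn⟩

theorem charV (O τ : Type) [CommRing O] [IsDomain O] [CharZero O] (r : ℕ) : CharZero (Vf O τ r) :=
  charZero_of_injective_algebraMap (R := MvPolynomial (Idx τ r) O)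
    (A := Vf O τ r) io0_inj

omit [CharZero O] in
include hf hn hodd in
theorem FV_irr : ((fam f r).map (io0 O τ r)).Monic ∧ Irreducible ((fam f r).map (io0 O τ r)) ∧
    ((fam f r).map (io0 O τ r)).natDegree = f.natDegree := by
  have D := dt0 (r := r) hf hn hodd
  rw [fam_io0]
  refine ⟨gF_monic D.monic (pi_lt D), irr D, ?_⟩
  rw [gF_natDegree D.monic (pi_lt D), (f0_md hf hn).2]

variable [Algebra (Vf O τ r) K] [IsScalarTower (MvPolynomial (Idx τ r) O) (Vf O τ r) K]

omit [CharZero O] [Algebra (FR f r) K] [IsScalarTower (MvPolynomial (Idx τ r) O) (FR f r) K]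
  [IsFractionRing (FR f r) K] in
theorem FK_eq : FK f r K = ((fam f r).map (io0 O τ r)).map (algebraMap (Vf O τ r) K) := by
  rw [Polynomial.map_map]
  show (fam f r).map _ = _
  congr 1
  exact IsScalarTower.algebraMap_eq (MvPolynomial (Idx τ r) O) (Vf O τ r) K

omit [CharZero O] [IsDomain O] [IsFractionRing (FR f r) K] [Algebra (Vf O τ r) K]
  [IsScalarTower (MvPolynomial (Idx τ r) O) (Vf O τ r) K] in
theorem yy_sq (i : Fin r) : yy f K i ^ 2 = (FK f r K).eval (xK O τ K i) := by
  rw [yy, yK, ← map_pow, yR_sq, ← IsScalarTower.algebraMap_apply, rad_map]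

omit [CharZero O] [Algebra (Vf O τ r) K]
  [IsScalarTower (MvPolynomial (Idx τ r) O) (Vf O τ r) K] in
theorem gen_top : Subfield.closure (SK O τ r K ∪ (Set.range (xK O τ K : Fin r → K) ∪ Set.range (yy f K : Fin r → K))) =
    ⊤ := by
  rw [eq_top_iff]
  have h1 : ∀ p : MvPolynomial (Idx τ r) O, algebraMap (MvPolynomial (Idx τ r) O) K p ∈
      Subfield.closure (SK O τ r K ∪ (Set.range (xK O τ K : Fin r → K) ∪ Set.range (yy f K : Fin r → K))) := by
    intro p
    induction p using MvPolynomial.induction_on with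
    | C a =>
      refine Subfield.subset_closure (Or.inl ⟨MvPolynomial.C a, ?_⟩)
      rw [RingHom.comp_apply]
      congr 1
      exact MvPolynomial.rename_C _ _
    | add p q hp hq => rw [map_add]; exact add_mem hp hq
    | mul_X p k hp =>
      rw [map_mul]
      refine mul_mem hp ?_
      have h2 : ∀ k' : Option (Option τ), algebraMap (MvPolynomial (Idx τ r) O) K
          (MvPolynomial.X (Option.map (Option.map Sum.inl) k')) ∈
          Subfield.closure (SK O τ r K ∪ (Set.range (xK O τ K : Fin r → K) ∪ Set.range (yy f K : Fin r → K))) := by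
        intro k'
        refine Subfield.subset_closure (Or.inl ⟨MvPolynomial.X k', ?_⟩)
        rw [RingHom.comp_apply, cf_X]
      rcases k with _ | _ | t | i
      · exact h2 none
      · exact h2 (some none)
      · exact h2 (some (some t))
      · exact Subfield.subset_closure (Or.inr (Or.inl ⟨i, rfl⟩))
  have h2 : ∀ z : FR f r, algebraMap (FR f r) K z ∈
      Subfield.closure (SK O τ r K ∪ (Set.range (xK O τ K : Fin r → K) ∪ Set.range (yy f K : Fin r → K))) := by
    intro z
    obtain ⟨c, rfl⟩ := RR_expand (rad f r) z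
    rw [map_sum]
    refine sum_mem fun S _ => ?_
    rw [map_mul, map_prod, ← IsScalarTower.algebraMap_apply]
    exact mul_mem (h1 _) (prod_mem fun i _ => Subfield.subset_closure (Or.inr (Or.inr ⟨i, rfl⟩)))
  intro z _
  obtain ⟨a, b, -, rfl⟩ := IsFractionRing.div_surjective (A := FR f r) z
  exact div_mem (h2 a) (h2 b)

variable [IsDomain (FR f r)]

/-- the sign changes -/
noncomputable abbrev sg (f : (MvPolynomial τ O)[X]) {r : ℕ} (K : Type) [Field K]
    [Algebra (MvPolynomial (Idx τ r) O) K] [Algebra (FR f r) K]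
    [IsScalarTower (MvPolynomial (Idx τ r) O) (FR f r) K] [IsFractionRing (FR f r) K]
    [Algebra (Vf O τ r) K] [IsScalarTower (MvPolynomial (Idx τ r) O) (Vf O τ r) K]
    [IsDomain (FR f r)] (j : Fin r) : K →ₐ[Vf O τ r] K := sK (V := Vf O τ r) (rad f r) j

omit [CharZero O] in
theorem yw (i : Fin r) : yy f K i ^ 2 =
    algebraMap (Vf O τ r) K (algebraMap (MvPolynomial (Idx τ r) O) (Vf O τ r) (rad f r i)) :=
  yK_sq (V := Vf O τ r) (rad f r) i

omit [CharZero O] [IsDomain (FR f r)] [IsFractionRing (FR f r) K] in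
theorem xV (i : Fin r) : xK O τ K i = algebraMap (Vf O τ r) K
    (algebraMap (MvPolynomial (Idx τ r) O) (Vf O τ r)
      (MvPolynomial.X (some (some (Sum.inr i))))) :=
  IsScalarTower.algebraMap_apply _ _ _ _

omit [CharZero O] in
theorem sg_P (j : Fin r) (p : MvPolynomial (Idx τ r) O) :
    sg f K j (algebraMap (MvPolynomial (Idx τ r) O) K p) =
      algebraMap (MvPolynomial (Idx τ r) O) K p := by
  rw [IsScalarTower.algebraMap_apply (MvPolynomial (Idx τ r) O) (Vf O τ r) K, AlgHom.commutes]

omit [CharZero O] in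
theorem sg_y (j i : Fin r) : sg f K j (yy f K i) = if i = j then -yy f K i else yy f K i :=
  sK_y (V := Vf O τ r) (rad f r) j i

omit [CharZero O] in
theorem adj_top : Algebra.adjoin (Vf O τ r) (Set.range (yy f K : Fin r → K)) = ⊤ :=
  K_adjoin (V := Vf O τ r) (K := K) (rad f r)

include hn in
theorem finK : FiniteDimensional (Vf O τ r) K ∧ Module.finrank (Vf O τ r) K = 2 ^ r := by
  have := charV O τ r
  refine finrank_two_pow two_ne_zero (fun i => yw (f := f) i) adj_top fun S hS => ?_
  rw [← map_prod]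
  exact rad_not_square f hn S hS

include hf hn hodd in
theorem FK_irr : (FK f r K).Monic ∧ Irreducible (FK f r K) ∧
    (FK f r K).natDegree = f.natDegree := by
  obtain ⟨h1, h2, h3⟩ := FV_irr (r := r) hf hn hodd
  obtain ⟨h4, h5⟩ := finK (f := f) (r := r) (K := K) hn
  rw [FK_eq]
  refine ⟨h1.map _, irr_of_two_pow h1 h2 (by rw [h3]; exact hodd) r h5, ?_⟩
  rw [natDegree_map, h3]

include hn in
theorem exists_der (i : Fin r) : ∃ D : Derivation ℤ K K, ∀ p : MvPolynomial (Idx τ r) O,
    D (algebraMap (MvPolynomial (Idx τ r) O) K p) =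
      algebraMap (MvPolynomial (Idx τ r) O) K (pd O τ i p) := by
  have h0 := charV O τ r
  obtain ⟨h4, h5⟩ := finK (f := f) (r := r) (K := K) hn
  obtain ⟨D, hD⟩ := ext_der' (V := Vf O τ r) (K := K) (pd O τ i)
  refine ⟨D, fun p => ?_⟩
  rw [IsScalarTower.algebraMap_apply (MvPolynomial (Idx τ r) O) (Vf O τ r) K, hD]
  exact (IsScalarTower.algebraMap_apply (MvPolynomial (Idx τ r) O) (Vf O τ r) K _).symm

include hf hn hodd in
/-- the function field is a net -/
theorem netK : ∃ d : Fin r → Derivation ℤ K K, Net K (FK f r K) (xK O τ K) (yy f K)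
    (fun i => (sg f K i : K →+* K)) d (SK O τ r K) := by
  choose d hd using exists_der (f := f) (r := r) (K := K) hn
  obtain ⟨h1, h2, h3⟩ := FK_irr (r := r) (K := K) hf hn hodd
  refine ⟨d, h1, h2, by rw [h3]; exact hn, by rw [h3]; exact hodd, ?_, fun i => yy_sq i,
    gen_top, ?_, ?_, ?_, ?_, ?_⟩
  · intro n
    rw [coeff_map]
    obtain ⟨p, hp⟩ := fam_coeff (r := r) f n
    rw [← hp]
    exact Subfield.subset_closure ⟨p, rfl⟩
  · rintro i _ ⟨p, rfl⟩
    exact sg_P (f := f) i _
  · intro i j
    exact sg_P (f := f) i _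
  · intro i j
    exact sg_y (f := f) i j
  · rintro i _ ⟨p, rfl⟩
    rw [RingHom.comp_apply, hd, pd_cf, map_zero]
  · intro i j
    rw [hd]
    split_ifs with h
    · rw [h, pd_self, map_one]
    · rw [pd_ne, map_zero]
      intro h3
      exact h (Sum.inr_injective (Option.some_injective _ (Option.some_injective _ h3)))

end

end Q45.HF
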