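import Pool.Agent.Q45.HF.Defs
import Pool.Agent.Q45.HF.Cnt
import Pool.Agent.Q45.UH.Arith

/-!
# The points of the fibre power with values in a finite field
-/

set_option autoImplicit false

open Polynomial Finset

namespace Q45.HF

open Q45.UH
open Pool.Agent.TH958.FP (RR yR yR_sq liftR liftR_y mkR mkR_surj)
open Pool.Agent.TH958.An (Pt Res)

/-- homomorphisms from a polynomial ring -/
noncomputable def homE {O σ κ : Type} [CommRing O] [CommRing κ] :
    (MvPolynomial σ O →+* κ) ≃ (O →+* κ) × (σ → κ) where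
  toFun φ := (φ.comp MvPolynomial.C, fun i => φ (MvPolynomial.X i))
  invFun p := MvPolynomial.eval₂Hom p.1 p.2
  left_inv φ := by
    apply MvPolynomial.ringHom_ext
    · intro c
      rw [MvPolynomial.coe_eval₂Hom, MvPolynomial.eval₂_C]
      rfl
    · intro i
      rw [MvPolynomial.coe_eval₂Hom, MvPolynomial.eval₂_X]
  right_inv p := by
    refine Prod.ext ?_ ?_
    · ext c
      simp
    · funext i
      simp

theorem RR_ringHom_ext {P κ : Type} [CommRing P] [CommRing κ] {r : ℕ} (w : Fin r → P)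
    {φ φ' : RR w →+* κ} (h : φ.comp (algebraMap P (RR w)) = φ'.comp (algebraMap P (RR w)))
    (hy : ∀ i, φ (yR w i) = φ' (yR w i)) : φ = φ' := by
  have h1 : φ.comp (mkR w : MvPolynomial (Fin r) P →+* RR w) =
      φ'.comp (mkR w : MvPolynomial (Fin r) P →+* RR w) := by
    apply MvPolynomial.ringHom_ext
    · intro c
      have h2 : (mkR w : MvPolynomial (Fin r) P →+* RR w) (MvPolynomial.C c) =
          algebraMap P (RR w) c := (mkR w).commutes c
      rw [RingHom.comp_apply, RingHom.comp_apply, h2]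
      exact congrArg (fun g => g c) h
    · intro i
      exact hy i
  ext x
  obtain ⟨p, rfl⟩ := mkR_surj w x
  exact congrArg (fun g => g p) h1

/-- the homomorphism with given values -/
noncomputable def liftT {P κ : Type} [CommRing P] [CommRing κ] {r : ℕ} (w : Fin r → P)
    (θ : P →+* κ) (y : Fin r → κ) (hy : ∀ i, y i ^ 2 = θ (w i)) : RR w →+* κ :=
  letI := θ.toAlgebra
  (liftR w y hy : RR w →ₐ[P] κ).toRingHom

theorem liftT_comp {P κ : Type} [CommRing P] [CommRing κ] {r : ℕ} (w : Fin r → P)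
    (θ : P →+* κ) (y : Fin r → κ) (hy : ∀ i, y i ^ 2 = θ (w i)) :
    (liftT w θ y hy).comp (algebraMap P (RR w)) = θ := by
  let _ := θ.toAlgebra
  ext c
  exact (liftR w y hy : RR w →ₐ[P] κ).commutes c

theorem liftT_y {P κ : Type} [CommRing P] [CommRing κ] {r : ℕ} (w : Fin r → P)
    (θ : P →+* κ) (y : Fin r → κ) (hy : ∀ i, y i ^ 2 = θ (w i)) (i : Fin r) :
    liftT w θ y hy (yR w i) = y i := by
  let _ := θ.toAlgebra
  exact liftR_y w y hy i

/-- homomorphisms from the ring with square roots -/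
noncomputable def homR {P κ : Type} [CommRing P] [CommRing κ] {r : ℕ} (w : Fin r → P) :
    (RR w →+* κ) ≃ Σ θ : P →+* κ, {y : Fin r → κ // ∀ i, y i ^ 2 = θ (w i)} where
  toFun φ := ⟨φ.comp (algebraMap P (RR w)), ⟨fun i => φ (yR w i), fun i => by
    rw [← map_pow, yR_sq]
    rfl⟩⟩
  invFun p := liftT w p.1 p.2.1 p.2.2
  left_inv φ := by
    apply RR_ringHom_ext w
    · exact liftT_comp w _ _ _
    · intro i
      exact liftT_y w _ _ _ i
  right_inv p := by
    obtain ⟨θ, ⟨y, hy⟩⟩ := p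
    have h1 := liftT_comp w θ y hy
    have h2 : ∀ i, liftT w θ y hy (yR w i) = y i := fun i => liftT_y w θ y hy i
    refine Sigma.ext h1 ?_
    have : ∀ (θ' : P →+* κ) (hθ : θ' = θ) (y' : {y : Fin r → κ // ∀ i, y i ^ 2 = θ' (w i)}),
        y'.1 = y → HEq y' (⟨y, hy⟩ : {y : Fin r → κ // ∀ i, y i ^ 2 = θ (w i)}) := by
      rintro θ' rfl y' hy'
      exact heq_of_eq (Subtype.ext hy')
    exact this _ h1 _ (funext h2)

section

variable {O τ : Type} [CommRing O] (f : (MvPolynomial τ O)[X]) {r : ℕ}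

/-- the value of `f` -/
noncomputable def gv {κ : Type} [CommRing κ] (ψ : O →+* κ) (u : τ → κ) : κ[X] :=
  f.map (MvPolynomial.eval₂Hom ψ u)

theorem fam_map {κ : Type} [CommRing κ] (ψ : O →+* κ) (v : Idx τ r → κ) :
    (fam f r).map (MvPolynomial.eval₂Hom ψ v) =
      gv f ψ (fun t => v (some (some (Sum.inl t)))) + C (v (some none)) * X + C (v none) := by
  rw [fam, addLin, Polynomial.map_add, Polynomial.map_add, Polynomial.map_mul, Polynomial.map_map,
    map_X, map_C, map_C, MvPolynomial.coe_eval₂Hom, MvPolynomial.eval₂_X, MvPolynomial.eval₂_X, gv]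
  congr 3
  apply MvPolynomial.ringHom_ext
  · intro c
    rw [RingHom.comp_apply]
    change MvPolynomial.eval₂Hom ψ v (MvPolynomial.rename _ (MvPolynomial.C c)) = _
    rw [MvPolynomial.rename_C, MvPolynomial.coe_eval₂Hom, MvPolynomial.coe_eval₂Hom,
      MvPolynomial.eval₂_C, MvPolynomial.eval₂_C]
  · intro t
    rw [RingHom.comp_apply]
    change MvPolynomial.eval₂Hom ψ v (MvPolynomial.rename _ (MvPolynomial.X t)) = _
    rw [MvPolynomial.rename_X, MvPolynomial.coe_eval₂Hom, MvPolynomial.coe_eval₂Hom,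
      MvPolynomial.eval₂_X, MvPolynomial.eval₂_X]

theorem rad_map {κ : Type} [CommRing κ] (θ : MvPolynomial (Idx τ r) O →+* κ) (i : Fin r) :
    θ (rad f r i) = ((fam f r).map θ).eval (θ (MvPolynomial.X (some (some (Sum.inr i))))) := by
  rw [rad, eval_map_apply]

/-- the splitting of the parameters -/
def splitE (F : Type) : (Idx τ r → F) ≃ (Fin 2 → F) × (τ → F) × (Fin r → F) where
  toFun v := (![v none, v (some none)], fun t => v (some (some (Sum.inl t))),
    fun i => v (some (some (Sum.inr i))))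
  invFun p := fun
    | none => p.1 0
    | some none => p.1 1
    | some (some (Sum.inl t)) => p.2.1 t
    | some (some (Sum.inr i)) => p.2.2 i
  left_inv v := by
    funext k
    rcases k with _ | _ | t | i <;> rfl
  right_inv p := by
    refine Prod.ext ?_ rfl
    funext i
    fin_cases i <;> rfl

theorem card_sqrt {F : Type} [Field F] [Fintype F] [DecidableEq F] (hF : ringChar F ≠ 2) (a : F) :
    ((Nat.card {y : F // y ^ 2 = a} : ℕ) : ℤ) = quadraticChar F a + 1 := by
  classical
  rw [← quadraticChar_card_sqrts hF a]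
  congr 1
  rw [Nat.card_eq_fintype_card, Fintype.card_subtype]
  congr 1
  ext y
  simp

theorem card_sqrt_le {F : Type} [Field F] [Fintype F] (a : F) : Nat.card {y : F // y ^ 2 = a} ≤ 2 := by
  classical
  rw [Nat.card_eq_fintype_card, Fintype.card_subtype]
  have h1 : (univ.filter fun y : F => y ^ 2 = a) ⊆ (X ^ 2 - C a : F[X]).roots.toFinset := by
    intro y hy
    rw [mem_filter] at hy
    rw [Multiset.mem_toFinset, mem_roots (X_pow_sub_C_ne_zero (by norm_num) a), IsRoot, eval_sub,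
      eval_pow, eval_X, eval_C, hy.2, sub_self]
  refine (card_le_card h1).trans ((Multiset.toFinset_card_le _).trans ?_)
  refine (card_roots' _).trans ?_
  rw [natDegree_X_pow_sub_C]

/-- the sum over the points of the fibre power -/
theorem sum_homR {P F : Type} [CommRing P] [Field F] [Fintype F] (w : Fin r → P)
    [Fintype (P →+* F)] [Fintype (RR w →+* F)] (g : (P →+* F) → ℝ) :
    ∑ φ : RR w →+* F, g (φ.comp (algebraMap P (RR w))) =
      ∑ θ : P →+* F, g θ * ∏ i, (Nat.card {y : F // y ^ 2 = θ (w i)} : ℝ) := by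
  classical
  have e1 : ∑ φ : RR w →+* F, g (φ.comp (algebraMap P (RR w))) =
      ∑ p : (Σ θ : P →+* F, {y : Fin r → F // ∀ i, y i ^ 2 = θ (w i)}), g p.1 :=
    Fintype.sum_equiv (homR w) _ _ fun φ => rfl
  rw [e1, Fintype.sum_sigma]
  refine sum_congr rfl fun θ _ => ?_
  change ∑ _y : {y : Fin r → F // ∀ i, y i ^ 2 = θ (w i)}, g θ = _
  rw [sum_const, card_univ, nsmul_eq_mul, mul_comm]
  congr 1
  have e5 : Nat.card {y : Fin r → F // ∀ i, y i ^ 2 = θ (w i)} =
      ∏ i, Nat.card {y : F // y ^ 2 = θ (w i)} := by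
    rw [Nat.card_congr (Equiv.subtypePiEquivPi
      (p := fun (i : Fin r) (y : F) => y ^ 2 = θ (w i))), Nat.card_pi]
  rw [← Nat.card_eq_fintype_card, e5]
  push_cast
  rfl

section

variable {F : Type} [Field F] [Fintype F] [DecidableEq F] [Fintype τ] [DecidableEq τ]

/-- the sum over the points of the fibre power, for a function of the fibre -/
theorem sum_all (hF : ringChar F ≠ 2) [Fintype (O →+* F)] [Fintype (FR f r →+* F)]
    (g : F[X] → ℝ) :
    ∑ φ : FR f r →+* F, g (fib f φ) = ∑ ψ : O →+* F, ∑ u : τ → F, ∑ h : Fin 2 → F,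
      g (Fh (gv f ψ u) h) * ((Fintype.card F : ℝ) + SS (Fh (gv f ψ u) h)) ^ r := by
  classical
  let _ : Fintype (MvPolynomial (Idx τ r) O →+* F) := Fintype.ofEquiv _ homE.symm
  have e1 := sum_homR (rad f r) (fun θ : MvPolynomial (Idx τ r) O →+* F => g ((fam f r).map θ))
  have e2 : ∑ φ : FR f r →+* F, g (fib f φ) = ∑ φ : FR f r →+* F,
      g ((fam f r).map (φ.comp (algebraMap (MvPolynomial (Idx τ r) O) (FR f r)))) := rfl
  rw [e2, e1]
  have e3 : ∑ θ : MvPolynomial (Idx τ r) O →+* F, g ((fam f r).map θ) *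
      ∏ i, (Nat.card {y : F // y ^ 2 = θ (rad f r i)} : ℝ) =
      ∑ p : (O →+* F) × (Idx τ r → F), g ((fam f r).map (MvPolynomial.eval₂Hom p.1 p.2)) *
      ∏ i, (Nat.card {y : F // y ^ 2 = (MvPolynomial.eval₂Hom p.1 p.2) (rad f r i)} : ℝ) := by
    rw [← Equiv.sum_comp (homE (O := O) (σ := Idx τ r) (κ := F)).symm]
    rfl
  rw [e3, Fintype.sum_prod_type]
  refine sum_congr rfl fun ψ _ => ?_
  set A : (Idx τ r → F) → ℝ := fun v => g ((fam f r).map (MvPolynomial.eval₂Hom ψ v)) *
      ∏ i, (Nat.card {y : F // y ^ 2 = (MvPolynomial.eval₂Hom ψ v) (rad f r i)} : ℝ) with hA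
  have e5 : ∑ v, A v = ∑ h : Fin 2 → F, ∑ u : τ → F, ∑ x : Fin r → F,
      A ((splitE F).symm (h, u, x)) := by
    rw [← Equiv.sum_comp (splitE F).symm A, Fintype.sum_prod_type]
    exact sum_congr rfl fun h _ => Fintype.sum_prod_type _
  change ∑ v, A v = _
  rw [e5, sum_comm]
  refine sum_congr rfl fun u _ => sum_congr rfl fun h _ => ?_
  have e4 : ∀ x : Fin r → F, (fam f r).map (MvPolynomial.eval₂Hom ψ ((splitE F).symm (h, u, x))) =
        Fh (gv f ψ u) h := by
    intro x
    rw [fam_map]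
    rfl
  have e6 : ∀ x : Fin r → F, A ((splitE F).symm (h, u, x)) = g (Fh (gv f ψ u) h) *
      ∏ i, ((quadraticChar F ((Fh (gv f ψ u) h).eval (x i)) : ℝ) + 1) := by
    intro x
    rw [hA]
    simp only
    rw [e4 x]
    congr 1
    refine prod_congr rfl fun i _ => ?_
    rw [rad_map, e4 x]
    have e7 : (MvPolynomial.eval₂Hom ψ ((splitE F).symm (h, u, x)))
        (MvPolynomial.X (some (some (Sum.inr i)))) = x i := by
      rw [MvPolynomial.coe_eval₂Hom, MvPolynomial.eval₂_X]
      rfl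
    rw [e7]
    have e8 := card_sqrt hF ((Fh (gv f ψ u) h).eval (x i))
    exact_mod_cast e8
  rw [sum_congr rfl fun x _ => e6 x, ← mul_sum]
  congr 1
  rw [← Fintype.sum_pow (fun z : F => (quadraticChar F ((Fh (gv f ψ u) h).eval z) : ℝ) + 1)]
  congr 1
  rw [sum_add_distrib, sum_const, card_univ, nsmul_eq_mul, mul_one, add_comm, SS]
  push_cast
  rfl

/-- the number of the points of the fibre power -/
theorem card_all (N : ℕ) (hO : Nat.card (O →+* F) ≤ N) [Finite (O →+* F)] :
    (Nat.card (FR f r →+* F) : ℝ) ≤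
      (N * 2 ^ r) * (Fintype.card F : ℝ) ^ (Fintype.card τ + r + 2) := by
  classical
  let _ : Fintype (O →+* F) := Fintype.ofFinite _
  let _ : Fintype (MvPolynomial (Idx τ r) O →+* F) := Fintype.ofEquiv _ homE.symm
  let _ : Fintype (FR f r →+* F) := Fintype.ofEquiv _ (homR (rad f r)).symm
  have e1 := sum_homR (rad f r) (fun θ : MvPolynomial (Idx τ r) O →+* F => (1 : ℝ))
  rw [sum_const, card_univ, nsmul_eq_mul, mul_one] at e1
  rw [Nat.card_eq_fintype_card, e1]
  have e2 : ∀ θ : MvPolynomial (Idx τ r) O →+* F,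
      1 * ∏ i, (Nat.card {y : F // y ^ 2 = θ (rad f r i)} : ℝ) ≤ 2 ^ r := by
    intro θ
    rw [one_mul]
    refine (prod_le_prod (fun _ _ => by positivity) fun i _ =>
      (show (Nat.card {y : F // y ^ 2 = θ (rad f r i)} : ℝ) ≤ 2 by
        exact_mod_cast card_sqrt_le (θ (rad f r i)))).trans ?_
    rw [prod_const, card_univ, Fintype.card_fin]
  refine (sum_le_sum fun θ _ => e2 θ).trans ?_
  rw [sum_const, card_univ, nsmul_eq_mul, Fintype.card_congr homE, Fintype.card_prod,
    Fintype.card_fun, Fintype.card_option, Fintype.card_option, Fintype.card_sum, Fintype.card_fin]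
  rw [Nat.card_eq_fintype_card] at hO
  have h1 : (Fintype.card (O →+* F) : ℝ) ≤ N := by exact_mod_cast hO
  push_cast
  calc (Fintype.card (O →+* F) : ℝ) * (Fintype.card F : ℝ) ^ (Fintype.card τ + r + 1 + 1) * 2 ^ r ≤
      N * (Fintype.card F : ℝ) ^ (Fintype.card τ + r + 1 + 1) * 2 ^ r := by gcongr
    _ = _ := by ring

end

end

end Q45.HF
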