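import Pool.Agent.Q45.HF.Num

/-!
# Fibre powers of nets of hyperelliptic curves over rings of integers: the Euler product
-/

set_option autoImplicit false
set_option maxHeartbeats 1000000

open Polynomial NumberField Finset Filter Topology
open Pool.Agent.H921R2.TatePole (nm R hc R_eq_hc R_le)

namespace Q45.HF

open Q45.UH
open Pool.Agent.TH958.An (Pt Res qy)

section

variable {k : Type} [Field k] [NumberField k] {τ : Type} [Fintype τ]
  {f : (MvPolynomial τ (𝓞 k))[X]} (r : ℕ) (hf : f.Monic) (hn : 3 ≤ f.natDegree)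
  (hodd : Odd f.natDegree)

include hf hn hodd in
theorem sums : ∃ K : ℝ, 0 ≤ K ∧
    (∀ (p : Nat.Primes) (F : Type) [Field F] [Fintype F], Fintype.card F = (p : ℕ) →
      |∑ᶠ φ : FR f r →+* F, tF f F φ + r * (R k p : ℝ) *
        (Fintype.card F : ℝ) ^ ((Fintype.card τ + r + 2 : ℕ) : ℝ)| ≤
        K * (Fintype.card F : ℝ) ^ (((Fintype.card τ + r + 2 : ℕ) : ℝ) - 1 / 2)) ∧
    (∀ (F : Type) [Field F] [Fintype F], |∑ᶠ φ : FR f r →+* F, tF f F φ| ≤
      K * (Fintype.card F : ℝ) ^ ((Fintype.card τ + r + 2 : ℕ) : ℝ)) := by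
  obtain ⟨K, hK, h⟩ := sum_tF (r := r) f hf hn hodd (Module.finrank ℚ k) (card_homs k)
  set N := Module.finrank ℚ k
  set e : ℝ := ((Fintype.card τ + r + 2 : ℕ) : ℝ) with he
  refine ⟨K + r * N * 2, by positivity, ?_, ?_⟩
  · intro p F _ _ hF
    have hcard := (card_homs k F).2
    have hpr := card_homs_prime k p F hF
    have hq1 : (1 : ℝ) ≤ (Fintype.card F : ℝ) := by exact_mod_cast Fintype.card_pos
    rcases h F with h1 | ⟨h1, h2⟩
    · rw [hpr] at h1
      refine h1.trans (mul_le_mul_of_nonneg_right ?_ (by positivity))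
      have : 0 ≤ (r : ℝ) * N * 2 := by positivity
      linarith
    · rw [h2, zero_add]
      have hp2 : (p : ℕ) = 2 := by
        have h3 : ringChar F = (p : ℕ) := by
          have := Fact.mk p.prop
          have h4 : CharP F (p : ℕ) := by
            rw [← hF] at this ⊢
            exact charP_of_card_eq_prime (by rfl)
          exact ringChar.eq_iff.2 h4
        rw [← h3, h1]
      rw [hF, hp2]
      have hR : (R k p : ℝ) ≤ N := by exact_mod_cast R_le p
      have h3 : ((2 : ℕ) : ℝ) ^ e ≤ 2 * ((2 : ℕ) : ℝ) ^ (e - 1 / 2) := by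
        have h4 : ((2 : ℕ) : ℝ) ^ e = ((2 : ℕ) : ℝ) ^ (1 / 2 : ℝ) * ((2 : ℕ) : ℝ) ^ (e - 1 / 2) := by
          rw [← Real.rpow_add (by norm_num)]
          congr 1
          ring
        rw [h4]
        refine mul_le_mul_of_nonneg_right ?_ (by positivity)
        calc ((2 : ℕ) : ℝ) ^ (1 / 2 : ℝ) ≤ ((2 : ℕ) : ℝ) ^ (1 : ℝ) :=
              Real.rpow_le_rpow_of_exponent_le (by norm_num) (by norm_num)
          _ = 2 := by norm_num
      rw [abs_of_nonneg (by positivity)]
      calc (r : ℝ) * (R k p : ℝ) * ((2 : ℕ) : ℝ) ^ e ≤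
          (r : ℝ) * N * (2 * ((2 : ℕ) : ℝ) ^ (e - 1 / 2)) := by gcongr
        _ ≤ (K + r * N * 2) * ((2 : ℕ) : ℝ) ^ (e - 1 / 2) := by
            have : 0 ≤ K * ((2 : ℕ) : ℝ) ^ (e - 1 / 2) := by positivity
            linarith
  · intro F _ _
    have hcard := (card_homs k F).2
    have hq1 : (1 : ℝ) ≤ (Fintype.card F : ℝ) := by exact_mod_cast Fintype.card_pos
    rcases h F with h1 | ⟨h1, h2⟩
    · have h3 : (Fintype.card F : ℝ) ^ (e - 1 / 2) ≤ (Fintype.card F : ℝ) ^ e :=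
        Real.rpow_le_rpow_of_exponent_le hq1 (by linarith)
      have h4 : |(r : ℝ) * Nat.card (𝓞 k →+* F) * (Fintype.card F : ℝ) ^ e| ≤
          r * N * (Fintype.card F : ℝ) ^ e := by
        rw [abs_of_nonneg (by positivity)]
        have : (Nat.card (𝓞 k →+* F) : ℝ) ≤ N := by exact_mod_cast hcard
        gcongr
      have h5 := abs_sub (∑ᶠ φ : FR f r →+* F, tF f F φ +
        r * Nat.card (𝓞 k →+* F) * (Fintype.card F : ℝ) ^ e)
        (r * Nat.card (𝓞 k →+* F) * (Fintype.card F : ℝ) ^ e)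
      rw [add_sub_cancel_right] at h5
      have h6 : K * (Fintype.card F : ℝ) ^ (e - 1 / 2) ≤ K * (Fintype.card F : ℝ) ^ e := by gcongr
      have h7 : 0 ≤ r * N * (Fintype.card F : ℝ) ^ e := by positivity
      calc _ ≤ _ := h5
        _ ≤ K * (Fintype.card F : ℝ) ^ e + r * N * (Fintype.card F : ℝ) ^ e :=
            add_le_add (h1.trans h6) h4
        _ ≤ _ := by linarith
    · rw [h2, abs_zero]
      positivity

include hf hn hodd in
/-- the Euler product -/
theorem euler : ∃ E : ℂ → ℂ,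
    (∀ s : ℂ, ((Fintype.card τ + r + 2 : ℕ) : ℝ) + 5 / 6 < s.re → AnalyticAt ℂ E s ∧ E s ≠ 0) ∧
    ∀ s : ℂ, ((Fintype.card τ + r + 2 : ℕ) : ℝ) + 3 / 2 < s.re →
      HasProd (fun y : {y : Pt (FR f r) // Good f (red f y)} =>
        (lpoly (fib f (red f y.1)) ((qy y.1 : ℂ) ^ (-s)))⁻¹)
        (E s / dedekindZeta k (s - ((Fintype.card τ + r + 2 : ℕ) : ℂ)) ^ r) := by
  classical
  obtain ⟨K, hK, hT0, hT1⟩ := sums (k := k) r hf hn hodd
  obtain ⟨E, h1, h2⟩ := arith_core (R := FR f r) (t := fun F _ φ => tF f F φ)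
    (fun y => Good f (red f y)) (rhoF f) (2 * (5 * f.natDegree)) (rem_rho f hf hn hodd)
    (tF_inv f) (fun y hy => if_neg hy) f.natDegree (Nat.cast_nonneg _)
    (fun F _ _ φ => tF_bound f hf hn hodd φ) (Fintype.card τ + r + 2) (by omega)
    ((Module.finrank ℚ k : ℕ) * 2 ^ r) (by positivity)
    (fun F _ _ => by
      have h3 := (card_homs k F).1
      rw [Real.rpow_natCast]
      exact card_all f (Module.finrank ℚ k) (card_homs k F).2)
    r (fun p => (R k p : ℝ)) (Module.finrank ℚ k)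
    (fun p => by
      rw [abs_of_nonneg (Nat.cast_nonneg _)]
      exact_mod_cast R_le p) K hK hT0 hT1
  obtain ⟨H, hH1, hH2⟩ := exp_primes k
  refine ⟨fun s => E s * H (s - ((Fintype.card τ + r + 2 : ℕ) : ℂ)) ^ r, ?_, ?_⟩
  · intro s hs
    obtain ⟨h3, h4⟩ := h1 s hs
    have hre : (s - ((Fintype.card τ + r + 2 : ℕ) : ℂ)).re =
        s.re - ((Fintype.card τ + r + 2 : ℕ) : ℝ) := by
      rw [Complex.sub_re, Complex.natCast_re]
    obtain ⟨h5, h6⟩ := hH1 (s - ((Fintype.card τ + r + 2 : ℕ) : ℂ)) (by rw [hre]; linarith)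
    refine ⟨h3.mul (AnalyticAt.pow ?_ r), mul_ne_zero h4 (pow_ne_zero r h6)⟩
    exact AnalyticAt.fun_comp h5 (analyticAt_id.sub analyticAt_const)
  · intro s hs
    have hre : (s - ((Fintype.card τ + r + 2 : ℕ) : ℂ)).re =
        s.re - ((Fintype.card τ + r + 2 : ℕ) : ℝ) := by
      rw [Complex.sub_re, Complex.natCast_re]
    have h3 := h2 s hs
    have h4 := hH2 (s - ((Fintype.card τ + r + 2 : ℕ) : ℂ)) (by rw [hre]; linarith)
    have h5 : Complex.exp (-(r : ℂ) * ∑' p : Nat.Primes, (((R k p : ℝ) : ℝ) : ℂ) *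
        ((p : ℕ) : ℂ) ^ (-(s - ((Fintype.card τ + r + 2 : ℕ) : ℂ)))) =
        (H (s - ((Fintype.card τ + r + 2 : ℕ) : ℂ)) /
          dedekindZeta k (s - ((Fintype.card τ + r + 2 : ℕ) : ℂ))) ^ r := by
      rw [← h4, ← Complex.exp_nat_mul]
      congr 1
      push_cast
      ring
    rw [h5] at h3
    have h6 : E s * (H (s - ((Fintype.card τ + r + 2 : ℕ) : ℂ)) /
          dedekindZeta k (s - ((Fintype.card τ + r + 2 : ℕ) : ℂ))) ^ r =
        E s * H (s - ((Fintype.card τ + r + 2 : ℕ) : ℂ)) ^ r /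
          dedekindZeta k (s - ((Fintype.card τ + r + 2 : ℕ) : ℂ)) ^ r := by
      rw [div_pow, mul_div_assoc]
    rw [h6] at h3
    have h7 : (fun y : {y : Pt (FR f r) // Good f (red f y)} =>
        (lpoly (fib f (red f y.1)) ((qy y.1 : ℂ) ^ (-s)))⁻¹) =
        fun y : {y : Pt (FR f r) // Good f (red f y)} =>
          Complex.exp (((atPt (fun F _ φ => tF f F φ) y.1 : ℝ) : ℂ) * (qy y.1 : ℂ) ^ (-s) +
            rhoF f y.1 s) := by
      funext y
      exact factor_eq f hf hn hodd y.2 (by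
        have : (0 : ℝ) ≤ ((Fintype.card τ + r + 2 : ℕ) : ℝ) := Nat.cast_nonneg _
        linarith)
    rw [h7]
    exact h3

end

end Q45.HF
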