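import Pool.Agent.Q45.HF.Fib
import Pool.Agent.Q45.HF.Base
import Pool.Agent.Q45.HF.Final
import Pool.Agent.Y707.PR.Sys

/-!
# Fibre powers of nets of hyperelliptic curves: the residue of the Nagao series
-/

set_option autoImplicit false
set_option maxHeartbeats 1000000

open Polynomial Finset NumberField IsDedekindDomain Filter Topology

namespace Q45.HF

open Q45.UH
open Pool.Agent.H921R2.TatePole (nm two_le_nm below deg nm_eq nm_summable fiber_card_le kerPrime
  kerPrime_bijective)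
open Pool.Agent.Y707.RX (SD SD_diff cmb)
open Pool.Agent.Y707.PR

section

variable {k : Type} [Field k] [NumberField k]

/-- The residue field of a prime. -/
abbrev ResF (v : HeightOneSpectrum (𝓞 k)) : Type := 𝓞 k ⧸ v.asIdeal

noncomputable instance (v : HeightOneSpectrum (𝓞 k)) : Field (ResF v) :=
  haveI : v.asIdeal.IsMaximal := v.isPrime.isMaximal v.ne_bot
  Ideal.Quotient.field v.asIdeal

instance (v : HeightOneSpectrum (𝓞 k)) : Finite (ResF v) :=
  Ideal.finiteQuotientOfFreeOfNeBot v.asIdeal v.ne_bot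

theorem card_ResF (v : HeightOneSpectrum (𝓞 k)) : Nat.card (ResF v) = nm v := by
  rw [nm, Ideal.absNorm_apply, Submodule.cardQuot_apply]

/-- the residue map -/
noncomputable def resMap (v : HeightOneSpectrum (𝓞 k)) : 𝓞 k →+* ResF v := Ideal.Quotient.mk v.asIdeal

theorem below_two {v : HeightOneSpectrum (𝓞 k)} (h : ringChar (ResF v) = 2) :
    (below v : ℕ) = 2 := by
  have h1 := (nm_eq v).2.2
  have h2 : (((below v : ℕ) : ℕ) : ResF v) = 0 := by
    have h3 : resMap v (((below v : ℕ) : 𝓞 k)) = 0 := Ideal.Quotient.eq_zero_iff_mem.2 h1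
    rwa [map_natCast] at h3
  have h4 := (ringChar.spec (ResF v) (below v : ℕ)).1 h2
  rw [h] at h4
  exact ((Nat.prime_dvd_prime_iff_eq Nat.prime_two (below v).prop).1 h4).symm

end

section

variable {k : Type} [Field k] [NumberField k] {τ : Type} [Fintype τ]
  (f : (MvPolynomial τ (𝓞 k))[X]) (r : ℕ)

/-- Minus the fibre average at the prime `v`. -/
noncomputable def bV (v : HeightOneSpectrum (𝓞 k)) : ℝ := -average f r (resMap v)

variable {f}

/-- the bound at all primes -/
theorem bV_bound (hf : f.Monic) (hn : 3 ≤ f.natDegree) (hodd : Odd f.natDegree) :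
    ∃ K : ℝ, 0 ≤ K ∧ ∀ v : HeightOneSpectrum (𝓞 k),
      |bV f r v - r| ≤ K * (nm v : ℝ) ^ (-(1 / 2) : ℝ) := by
  classical
  obtain ⟨K, hK, hb⟩ := average_bound f.natDegree r
  -- the primes above two
  have hfin : Set.Finite {v : HeightOneSpectrum (𝓞 k) | (below v : ℕ) = 2} := by
    have h1 : Finite {v : HeightOneSpectrum (𝓞 k) // below v = ⟨2, Nat.prime_two⟩} :=
      Pool.Agent.H921R2.TatePole.fiber_finite _
    have h2 : {v : HeightOneSpectrum (𝓞 k) | (below v : ℕ) = 2} =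
        {v : HeightOneSpectrum (𝓞 k) | below v = ⟨2, Nat.prime_two⟩} := by
      ext v
      exact ⟨fun h => Subtype.ext h, fun h => congrArg Subtype.val h⟩
    rw [h2]
    exact h1
  obtain ⟨M, hM⟩ : ∃ M : ℝ, ∀ v : HeightOneSpectrum (𝓞 k), (below v : ℕ) = 2 →
      (r : ℝ) ≤ M * (nm v : ℝ) ^ (-(1 / 2) : ℝ) := by
    refine ⟨∑ v ∈ hfin.toFinset, (r : ℝ) * (nm v : ℝ) ^ (1 / 2 : ℝ), fun v hv => ?_⟩
    have hpos : (0 : ℝ) < nm v := by
      have := two_le_nm v
      have : 0 < nm v := by omega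
      exact_mod_cast this
    have h1 : (r : ℝ) * (nm v : ℝ) ^ (1 / 2 : ℝ) ≤
        ∑ v ∈ hfin.toFinset, (r : ℝ) * (nm v : ℝ) ^ (1 / 2 : ℝ) :=
      Finset.single_le_sum (f := fun v : HeightOneSpectrum (𝓞 k) =>
        (r : ℝ) * (nm v : ℝ) ^ (1 / 2 : ℝ)) (fun _ _ => by positivity)
        (hfin.mem_toFinset.2 hv)
    have h2 := mul_le_mul_of_nonneg_right h1 (show (0 : ℝ) ≤ (nm v : ℝ) ^ (-(1 / 2) : ℝ) by positivity)
    rwa [mul_assoc, ← Real.rpow_add hpos, add_neg_cancel, Real.rpow_zero, mul_one] at h2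
  refine ⟨max K M, le_max_of_le_left hK, fun v => ?_⟩
  have hnn : (0 : ℝ) ≤ (nm v : ℝ) ^ (-(1 / 2) : ℝ) := by positivity
  by_cases h : ringChar (ResF v) = 2
  · rw [bV, average_two f r h, neg_zero, zero_sub, abs_neg, abs_of_nonneg (Nat.cast_nonneg r)]
    exact (hM v (below_two h)).trans (mul_le_mul_of_nonneg_right (le_max_right _ _) hnn)
  · have h1 := hb (𝓞 k) τ f hf hn hodd rfl (ResF v) h (resMap v)
    rw [card_ResF] at h1
    have e1 : bV f r v - r = -(average f r (resMap v) + r) := by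
      rw [bV]
      ring
    rw [e1, abs_neg]
    exact h1.trans (mul_le_mul_of_nonneg_right (le_max_left _ _) hnn)

variable {r}

theorem nm_rpow_le_one (v : HeightOneSpectrum (𝓞 k)) : (nm v : ℝ) ^ (-(1 / 2) : ℝ) ≤ 1 := by
  apply Real.rpow_le_one_of_one_le_of_nonpos
  · have := two_le_nm v
    have : 1 ≤ nm v := by omega
    exact_mod_cast this
  · norm_num

theorem bV_bdd {K : ℝ} (hK : 0 ≤ K) (h : ∀ v : HeightOneSpectrum (𝓞 k),
    |bV f r v - r| ≤ K * (nm v : ℝ) ^ (-(1 / 2) : ℝ)) (v : HeightOneSpectrum (𝓞 k)) :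
    |bV f r v| ≤ K + r := by
  have h1 : bV f r v = (bV f r v - r) + r := by ring
  rw [h1]
  refine (abs_add_le _ _).trans (add_le_add ((h v).trans ?_) (le_of_eq (abs_of_nonneg (Nat.cast_nonneg r))))
  exact mul_le_of_le_one_right hK (nm_rpow_le_one v)

/-- the residue -/
theorem has_residue {b : HeightOneSpectrum (𝓞 k) → ℝ} {K : ℝ} (hK : 0 ≤ K)
    (h : ∀ v : HeightOneSpectrum (𝓞 k), |b v - r| ≤ K * (nm v : ℝ) ^ (-(1 / 2) : ℝ))
    (R : Finset (HeightOneSpectrum (𝓞 k))) : HasResidue R b 1 r := by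
  classical
  have hbd : ∀ v, |b v| ≤ K + r := by
    intro v
    have h1 : b v = (b v - r) + r := by ring
    rw [h1]
    refine (abs_add_le _ _).trans (add_le_add ((h v).trans ?_)
      (le_of_eq (abs_of_nonneg (Nat.cast_nonneg r))))
    exact mul_le_of_le_one_right hK (nm_rpow_le_one v)
  refine ⟨?_, ?_⟩
  · intro s hs
    have h1 := summable_log (c := fun v => ((b v : ℝ) : ℂ)) (B := K + r) (fun v => by
      rw [Complex.norm_real, Real.norm_eq_abs]
      exact hbd v) hs
    exact h1.subtype {v | v ∉ R}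
  · have hc : ∀ v, ‖(if v ∈ R then 0 else (b v : ℂ))‖ ≤ K + r := by
      intro v
      split_ifs
      · rw [norm_zero]
        positivity
      · rw [Complex.norm_real, Real.norm_eq_abs]
        exact hbd v
    have hco : ∀ᶠ p : Nat.Primes in cofinite, ‖co (fun v => if v ∈ R then 0 else (b v : ℂ)) (p, 0) +
        cmb (fun _ : Unit => k) (fun _ => (r : ℝ)) p‖ ≤
        (K * Module.finrank ℚ k) * ((p : ℕ) : ℝ) ^ (-(1 / 2) : ℝ) := by
      filter_upwards [Pool.Agent.W353.FB.finite_below (F := k) R.finite_toSet] with p hp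
      have _ : Fact (p : ℕ).Prime := ⟨p.2⟩
      have hfin := Pool.Agent.H921R2.TatePole.hom_finite (K := k) p
      let _ := Fintype.ofFinite (𝓞 k →+* ZMod (p : ℕ))
      have e1 : co (fun v => if v ∈ R then 0 else (b v : ℂ)) (p, 0) + cmb (fun _ : Unit => k)
          (fun _ => (r : ℝ)) p = ∑ ψ : 𝓞 k →+* ZMod (p : ℕ),
          (((r : ℝ) - b (kerPrime p ψ).1.1 : ℝ) : ℂ) := by
        have e0 : cmb (fun _ : Unit => k) (fun _ => (r : ℝ)) p =
            (r : ℂ) * (Fintype.card (𝓞 k →+* ZMod (p : ℕ)) : ℂ) := by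
          unfold cmb
          rw [Finset.univ_unique, Finset.sum_singleton, Complex.ofReal_natCast,
            Nat.card_eq_fintype_card]
        rw [sum_deg_one, finsum_eq_sum_of_fintype, e0]
        have e2 : ∀ ψ : 𝓞 k →+* ZMod (p : ℕ),
            (if (kerPrime p ψ).1.1 ∈ R then 0 else (b (kerPrime p ψ).1.1 : ℂ)) =
            (b (kerPrime p ψ).1.1 : ℂ) := fun ψ => if_neg (hp ψ)
        rw [sum_congr rfl fun ψ _ => e2 ψ]
        push_cast
        rw [sum_sub_distrib, sum_const, card_univ, nsmul_eq_mul]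
        ring
      rw [e1]
      refine (norm_sum_le _ _).trans ?_
      have e3 : ∀ ψ : 𝓞 k →+* ZMod (p : ℕ), nm (kerPrime p ψ).1.1 = (p : ℕ) := by
        intro ψ
        rw [(nm_eq _).1, (kerPrime p ψ).2, pow_one, (kerPrime p ψ).1.2]
      have e4 : ∀ ψ : 𝓞 k →+* ZMod (p : ℕ), ‖(((r : ℝ) - b (kerPrime p ψ).1.1 : ℝ) : ℂ)‖ ≤
          K * ((p : ℕ) : ℝ) ^ (-(1 / 2) : ℝ) := by
        intro ψ
        rw [Complex.norm_real, Real.norm_eq_abs, abs_sub_comm]
        have h3 := h (kerPrime p ψ).1.1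
        rwa [e3 ψ] at h3
      refine (sum_le_sum fun ψ _ => e4 ψ).trans ?_
      rw [sum_const, card_univ, nsmul_eq_mul]
      have h5 : (Fintype.card (𝓞 k →+* ZMod (p : ℕ)) : ℝ) ≤ Module.finrank ℚ k := by
        have h6 := (card_homs k (ZMod (p : ℕ))).2
        rw [Nat.card_eq_fintype_card] at h6
        exact_mod_cast h6
      have h7 : (0 : ℝ) ≤ K * ((p : ℕ) : ℝ) ^ (-(1 / 2) : ℝ) := by positivity
      refine (mul_le_mul_of_nonneg_right h5 h7).trans (le_of_eq ?_)
      ring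
    obtain ⟨G, hG, hw⟩ := residue_of (F := k) (c := fun v => if v ∈ R then 0 else (b v : ℂ)) hc
      (κ := Unit) (L := fun _ => k) (a := fun _ => (r : ℝ)) hco (r := (r : ℤ)) (by simp)
    refine ⟨G, ?_, ?_⟩
    · exact_mod_cast hG
    · rw [Complex.ofReal_one]
      filter_upwards [hw] with s hs hs1
      rw [series_eq, hs hs1]
      push_cast
      rfl

open Classical in
/-- the continuation to the half plane `Re s > 1/2` -/
theorem half_plane {b : HeightOneSpectrum (𝓞 k) → ℝ} {K : ℝ} (hK : 0 ≤ K)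
    (h : ∀ v : HeightOneSpectrum (𝓞 k), |b v - r| ≤ K * (nm v : ℝ) ^ (-(1 / 2) : ℝ))
    (R : Finset (HeightOneSpectrum (𝓞 k))) : ∃ G : ℂ → ℂ,
      (∀ s : ℂ, 1 / 2 < s.re → AnalyticAt ℂ G s) ∧
      ∀ s : ℂ, 1 < s.re → series R b s = r * series R (fun _ => 1) s + G s := by
  classical
  set c : HeightOneSpectrum (𝓞 k) → ℂ := fun v =>
    if v ∈ R then 0 else (((b v - r) * (nm v : ℝ) ^ (1 / 2 : ℝ) : ℝ) : ℂ) with hc
  have hpos : ∀ v : HeightOneSpectrum (𝓞 k), (0 : ℝ) < nm v := by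
    intro v
    have := two_le_nm v
    have : 0 < nm v := by omega
    exact_mod_cast this
  have hcB : ∀ v, ‖c v‖ ≤ K := by
    intro v
    rw [hc]
    simp only
    split_ifs
    · rw [norm_zero]
      exact hK
    · rw [Complex.norm_real, Real.norm_eq_abs, abs_mul, abs_of_nonneg (show (0 : ℝ) ≤
        (nm v : ℝ) ^ (1 / 2 : ℝ) by positivity)]
      refine (mul_le_mul_of_nonneg_right (h v) (by positivity)).trans (le_of_eq ?_)
      rw [mul_assoc, ← Real.rpow_add (hpos v), neg_add_cancel, Real.rpow_zero, mul_one]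
  have hopen : IsOpen {w : ℂ | 1 < w.re} := isOpen_lt continuous_const Complex.continuous_re
  have han : ∀ w : ℂ, 1 < w.re → AnalyticAt ℂ (deriv (SD (co c))) w := by
    intro w hw
    exact ((SD_diff (norm_co hcB)).analyticAt (hopen.mem_nhds hw)).deriv
  refine ⟨fun s => deriv (SD (co c)) (s + 1 / 2), ?_, ?_⟩
  · intro s hs
    have h1 : AnalyticAt ℂ (fun s : ℂ => s + 1 / 2) s := analyticAt_id.add analyticAt_const
    refine AnalyticAt.fun_comp (han _ ?_) h1
    rw [Complex.add_re]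
    norm_num
    linarith
  · intro s hs
    have hs2 : 1 < (s + 1 / 2 : ℂ).re := by
      rw [Complex.add_re]
      norm_num
      linarith
    change series R b s = r * series R (fun _ => 1) s + deriv (SD (co c)) (s + 1 / 2)
    rw [deriv_SD hcB hs2, series_eq, series_eq, ← tsum_mul_left]
    have s1 := summable_log (c := fun v => (r : ℂ) * (if v ∈ R then 0 else ((1 : ℝ) : ℂ)))
      (B := r) (fun v => by
        split_ifs
        · rw [mul_zero, norm_zero]
          positivity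
        · simp) hs
    have s2 := summable_log hcB hs2
    have e1 : ∀ v : HeightOneSpectrum (𝓞 k), (r : ℂ) * ((if v ∈ R then 0 else ((1 : ℝ) : ℂ)) *
        (Real.log (nm v) : ℂ) * ((nm v : ℕ) : ℂ) ^ (-s)) =
        (r : ℂ) * (if v ∈ R then 0 else ((1 : ℝ) : ℂ)) *
        (Real.log (nm v) : ℂ) * ((nm v : ℕ) : ℂ) ^ (-s) := fun v => by ring
    rw [tsum_congr e1, ← s1.tsum_add s2]
    refine tsum_congr fun v => ?_
    have hne : ((nm v : ℕ) : ℂ) ≠ 0 := by
      have := two_le_nm v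
      have : nm v ≠ 0 := by omega
      exact_mod_cast this
    by_cases hv : v ∈ R
    · simp only [hc, if_pos hv, zero_mul, mul_zero, add_zero]
    · simp only [hc, if_neg hv]
      have e2 : ((nm v : ℕ) : ℂ) ^ (-s) = ((((nm v : ℝ) ^ (1 / 2 : ℝ) : ℝ)) : ℂ) *
          ((nm v : ℕ) : ℂ) ^ (-(s + 1 / 2)) := by
        rw [Complex.ofReal_cpow (hpos v).le, Complex.ofReal_natCast, ← Complex.cpow_add _ _ hne]
        congr 1
        push_cast
        ring
      rw [e2]
      push_cast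
      ring

end

end Q45.HF
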