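import Pool.Agent.Q45.HF.Nag

/-!
# Fibre powers of nets of hyperelliptic curves over a general base: the fibre averages
-/

set_option autoImplicit false
set_option maxHeartbeats 1000000

open Polynomial Finset NumberField IsDedekindDomain Filter Topology

namespace Q45.HF

open Q45.UH
open Pool.Agent.H921R2.TatePole (nm two_le_nm below deg nm_eq nm_summable fiber_card_le kerPrime
  kerPrime_bijective)
open Pool.Agent.Y707.PR

section

variable {k : Type} [Field k] [NumberField k]

/-- The points of `Spec A` above the prime `v` with values in the residue field of `v`, for a ring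
`A` over the ring of integers. -/
abbrev Above {A : Type} [CommRing A] (ι : 𝓞 k →+* A) (v : HeightOneSpectrum (𝓞 k)) : Type :=
  {φ : A →+* ResF v // φ.comp ι = resMap v}

/-- The number of the points of `Spec A` above `v` with values in the residue field with `q` elements
is `q ^ e + O(q ^ (e - 1/2))` for almost all `v`: by Lang and Weil this is so if the generic fibre is a
geometrically irreducible variety of dimension `e`. -/
def LangWeil {A : Type} [CommRing A] (ι : 𝓞 k →+* A) (e : ℕ) : Prop :=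
  ∃ C : ℝ, ∀ᶠ v : HeightOneSpectrum (𝓞 k) in cofinite,
    |(Nat.card (Above ι v) : ℝ) - (Nat.card (ResF v) : ℝ) ^ e| ≤
      C * (Nat.card (ResF v) : ℝ) ^ ((e : ℝ) - 1 / 2)

theorem langWeil_self : LangWeil (RingHom.id (𝓞 k)) 0 := by
  refine ⟨0, Eventually.of_forall fun v => ?_⟩
  have h1 : Nat.card (Above (RingHom.id (𝓞 k)) v) = 1 := by
    rw [Nat.card_eq_one_iff_unique]
    exact ⟨⟨fun a b => Subtype.ext ((RingHom.comp_id a.1).symm.trans
      ((a.2.trans b.2.symm).trans (RingHom.comp_id b.1)))⟩, ⟨⟨resMap v, RingHom.comp_id _⟩⟩⟩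
  rw [h1]
  simp

theorem finite_above {A : Type} [CommRing A] {ι : 𝓞 k →+* A} (h : ι.FiniteType)
    (v : HeightOneSpectrum (𝓞 k)) : Finite (Above ι v) := by
  let _ : Algebra (𝓞 k) A := ι.toAlgebra
  have hA : Algebra.FiniteType (𝓞 k) A := h
  obtain ⟨n, g, hg⟩ := Algebra.FiniteType.iff_quotient_mvPolynomial''.1 hA
  have hinj : Function.Injective (fun φ : Above ι v => fun i : Fin n =>
      φ.1 (g (MvPolynomial.X i))) := by
    intro φ φ' h
    apply Subtype.ext
    have h1 : φ.1.comp (g : MvPolynomial (Fin n) (𝓞 k) →+* A) =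
        φ'.1.comp (g : MvPolynomial (Fin n) (𝓞 k) →+* A) := by
      apply MvPolynomial.ringHom_ext
      · intro c
        have h2 : g (MvPolynomial.C c) = ι c := g.commutes c
        rw [RingHom.comp_apply, RingHom.comp_apply]
        change φ.1 (g (MvPolynomial.C c)) = φ'.1 (g (MvPolynomial.C c))
        rw [h2]
        exact (congrArg (fun z => z c) φ.2).trans (congrArg (fun z => z c) φ'.2).symm
      · intro i
        exact congrFun h i
    ext x
    obtain ⟨y, rfl⟩ := hg x
    exact congrArg (fun z => z y) h1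
  exact Finite.of_injective _ hinj

/-- finitely many exceptions do not matter -/
theorem all_of_cofinite {b : HeightOneSpectrum (𝓞 k) → ℝ} {r : ℕ} {K : ℝ} (hK : 0 ≤ K)
    (h : ∀ᶠ v : HeightOneSpectrum (𝓞 k) in cofinite, |b v - r| ≤ K * (nm v : ℝ) ^ (-(1 / 2) : ℝ)) :
    ∃ K' : ℝ, 0 ≤ K' ∧ ∀ v : HeightOneSpectrum (𝓞 k),
      |b v - r| ≤ K' * (nm v : ℝ) ^ (-(1 / 2) : ℝ) := by
  classical
  rw [Filter.eventually_cofinite] at h
  refine ⟨max K (∑ v ∈ h.toFinset, |b v - r| * (nm v : ℝ) ^ (1 / 2 : ℝ)), le_max_of_le_left hK,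
    fun v => ?_⟩
  have hnn : (0 : ℝ) ≤ (nm v : ℝ) ^ (-(1 / 2) : ℝ) := by positivity
  by_cases hv : |b v - r| ≤ K * (nm v : ℝ) ^ (-(1 / 2) : ℝ)
  · exact hv.trans (mul_le_mul_of_nonneg_right (le_max_left _ _) hnn)
  · have hpos : (0 : ℝ) < nm v := by
      have := two_le_nm v
      have : 0 < nm v := by omega
      exact_mod_cast this
    have h1 : |b v - r| * (nm v : ℝ) ^ (1 / 2 : ℝ) ≤
        ∑ v ∈ h.toFinset, |b v - r| * (nm v : ℝ) ^ (1 / 2 : ℝ) :=
      Finset.single_le_sum (f := fun v : HeightOneSpectrum (𝓞 k) =>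
        |b v - r| * (nm v : ℝ) ^ (1 / 2 : ℝ)) (fun _ _ => by positivity)
        (h.mem_toFinset.2 hv)
    have h2 := mul_le_mul_of_nonneg_right h1 hnn
    rw [mul_assoc, ← Real.rpow_add hpos, add_neg_cancel, Real.rpow_zero, mul_one] at h2
    exact h2.trans (mul_le_mul_of_nonneg_right (le_max_right _ _) hnn)

end

section

variable {k : Type} [Field k] [NumberField k] {O τ : Type} [CommRing O] [Fintype τ]
  (ι : 𝓞 k →+* O) (e : ℕ) (f : (MvPolynomial τ O)[X]) (r : ℕ)

/-- The fibre average at the prime `v`: `q_v ^ (-m)` times the sum of the traces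
`t_y = q_v - #(affine points of the fibre)` over the points `y` of the base with values in the residue
field where the fibre is smooth, for a ring `O` of dimension `e` over `𝓞 k` and `m = e + #τ + r + 2`. -/
noncomputable def averageAt (v : HeightOneSpectrum (𝓞 k)) : ℝ :=
  (∑ᶠ φ : Above ((base f r).comp ι) v, tF f (ResF v) φ.1) /
    (Nat.card (ResF v) : ℝ) ^ (e + Fintype.card τ + r + 2)

variable {ι e f r}

theorem averageAt_eq (hι : ι.FiniteType) (v : HeightOneSpectrum (𝓞 k)) :
    averageAt ι e f r v = (∑ᶠ ψ : Above ι v, average f r ψ.1) / (Nat.card (ResF v) : ℝ) ^ e := by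
  classical
  have hf1 := finite_above hι v
  let _ : Fintype (Above ι v) := Fintype.ofFinite _
  have hf2 : ∀ ψ : Above ι v, Finite {φ : FR f r →+* ResF v // φ.comp (base f r) = ψ.1} :=
    fun ψ => finite_hom f ψ.1
  let _ : ∀ ψ : Above ι v, Fintype {φ : FR f r →+* ResF v // φ.comp (base f r) = ψ.1} :=
    fun ψ => Fintype.ofFinite _
  let E : (Σ ψ : Above ι v, {φ : FR f r →+* ResF v // φ.comp (base f r) = ψ.1}) ≃
      Above ((base f r).comp ι) v :=
    { toFun := fun p => ⟨p.2.1, by
        rw [← RingHom.comp_assoc, p.2.2]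
        exact p.1.2⟩
      invFun := fun φ => ⟨⟨φ.1.comp (base f r), by
        rw [RingHom.comp_assoc]
        exact φ.2⟩, ⟨φ.1, rfl⟩⟩
      left_inv := fun p => by
        obtain ⟨⟨ψ, hψ⟩, ⟨φ, hφ⟩⟩ := p
        simp only at hφ
        subst hφ
        rfl
      right_inv := fun φ => rfl }
  let _ : Fintype (Above ((base f r).comp ι) v) := Fintype.ofEquiv _ E
  have hq : (0 : ℝ) < Nat.card (ResF v) := by exact_mod_cast Nat.card_pos
  have e1 : ∑ᶠ φ : Above ((base f r).comp ι) v, tF f (ResF v) φ.1 =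
      ∑ ψ : Above ι v, ∑ φ : {φ : FR f r →+* ResF v // φ.comp (base f r) = ψ.1},
        tF f (ResF v) φ.1 := by
    rw [finsum_eq_sum_of_fintype, ← Fintype.sum_sigma']
    exact (Fintype.sum_equiv E _ _ fun p => rfl).symm
  rw [averageAt, e1, finsum_eq_sum_of_fintype, sum_div, sum_div]
  refine sum_congr rfl fun ψ _ => ?_
  rw [average, finsum_eq_sum_of_fintype, div_div]
  congr 1
  rw [← pow_add]
  congr 1
  omega

/-- the fibre averages over a base which satisfies the estimate of Lang and Weil -/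
theorem averageAt_bound (hι : ι.FiniteType) (hLW : LangWeil ι e) (hf : f.Monic)
    (hn : 3 ≤ f.natDegree) (hodd : Odd f.natDegree) :
    ∃ K : ℝ, 0 ≤ K ∧ ∀ v : HeightOneSpectrum (𝓞 k),
      |(-averageAt ι e f r v) - r| ≤ K * (nm v : ℝ) ^ (-(1 / 2) : ℝ) := by
  classical
  obtain ⟨K, hK, hb⟩ := average_bound f.natDegree r
  obtain ⟨C, hC⟩ := hLW
  -- almost all primes are odd
  have hodd2 : ∀ᶠ v : HeightOneSpectrum (𝓞 k) in cofinite, ringChar (ResF v) ≠ 2 := by
    have hfin : Set.Finite {v : HeightOneSpectrum (𝓞 k) | (below v : ℕ) = 2} := by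
      have h1 : Finite {v : HeightOneSpectrum (𝓞 k) // below v = ⟨2, Nat.prime_two⟩} :=
        Pool.Agent.H921R2.TatePole.fiber_finite _
      have h2 : {v : HeightOneSpectrum (𝓞 k) | (below v : ℕ) = 2} =
          {v : HeightOneSpectrum (𝓞 k) | below v = ⟨2, Nat.prime_two⟩} := by
        ext v
        exact ⟨fun h => Subtype.ext h, fun h => congrArg Subtype.val h⟩
      rw [h2]
      exact h1
    rw [Filter.eventually_cofinite]
    refine hfin.subset fun v hv => ?_
    have hv2 : ringChar (ResF v) = 2 := not_not.1 hv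
    exact below_two hv2
  refine all_of_cofinite (K := (1 + |C|) * K + r * |C|) (by positivity) ?_
  filter_upwards [hC, hodd2] with v h1 h2
  have hf1 := finite_above hι v
  let _ : Fintype (Above ι v) := Fintype.ofFinite _
  have hq1 : (1 : ℝ) ≤ nm v := by
    have := two_le_nm v
    have : 1 ≤ nm v := by omega
    exact_mod_cast this
  have hq : (0 : ℝ) < nm v := by linarith
  rw [card_ResF] at h1
  rw [averageAt_eq hι, card_ResF, finsum_eq_sum_of_fintype]
  rw [Nat.card_eq_fintype_card] at h1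
  set q : ℝ := (nm v : ℝ) with hqd
  set N : ℝ := (Fintype.card (Above ι v) : ℝ) with hN
  set w : ℝ := q ^ (-(1 / 2) : ℝ) with hw
  have hw0 : 0 ≤ w := by positivity
  have hw1 : w ≤ 1 := nm_rpow_le_one v
  have e0 : q ^ ((e : ℝ) - 1 / 2) = q ^ e * w := by
    rw [hw, ← Real.rpow_natCast, ← Real.rpow_add hq]
    congr 1
  have hqe : 0 < q ^ e := pow_pos hq e
  have h3 : |N / q ^ e - 1| ≤ |C| * w := by
    have e1 : N / q ^ e - 1 = (N - q ^ e) / q ^ e := by field_simp
    rw [e1, abs_div, abs_of_pos hqe, div_le_iff₀ hqe]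
    refine h1.trans ?_
    rw [e0]
    calc C * (q ^ e * w) ≤ |C| * (q ^ e * w) :=
          mul_le_mul_of_nonneg_right (le_abs_self C) (by positivity)
      _ = |C| * w * q ^ e := by ring
  have h4 : N / q ^ e ≤ 1 + |C| := by
    have h5 := (abs_le.1 h3).2
    have h6 : |C| * w ≤ |C| := mul_le_of_le_one_right (abs_nonneg C) hw1
    linarith
  have h5 : ∀ ψ : Above ι v, |average f r ψ.1 + r| ≤ K * w := by
    intro ψ
    have h6 := hb O τ f hf hn hodd rfl (ResF v) h2 ψ.1
    rwa [card_ResF] at h6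
  have e2 : -((∑ ψ : Above ι v, average f r ψ.1) / q ^ e) - r =
      -((∑ ψ : Above ι v, (average f r ψ.1 + r)) / q ^ e) + r * (N / q ^ e - 1) := by
    rw [sum_add_distrib, sum_const, card_univ, nsmul_eq_mul, ← hN]
    field_simp
    ring
  rw [e2]
  refine (abs_add_le _ _).trans ?_
  rw [abs_neg, abs_mul, abs_div, abs_of_pos hqe, abs_of_nonneg (Nat.cast_nonneg (α := ℝ) r)]
  have h6 : |∑ ψ : Above ι v, (average f r ψ.1 + r)| / q ^ e ≤ (1 + |C|) * (K * w) := by
    rw [div_le_iff₀ hqe]
    refine (abs_sum_le_sum_abs _ _).trans ((sum_le_sum fun ψ _ => h5 ψ).trans ?_)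
    rw [sum_const, card_univ, nsmul_eq_mul, ← hN]
    have h7 : N ≤ (1 + |C|) * q ^ e := (div_le_iff₀ hqe).1 h4
    calc N * (K * w) ≤ (1 + |C|) * q ^ e * (K * w) :=
          mul_le_mul_of_nonneg_right h7 (by positivity)
      _ = (1 + |C|) * (K * w) * q ^ e := by ring
  have h7 : (r : ℝ) * |N / q ^ e - 1| ≤ r * (|C| * w) :=
    mul_le_mul_of_nonneg_left h3 (Nat.cast_nonneg r)
  calc |∑ ψ : Above ι v, (average f r ψ.1 + r)| / q ^ e + r * |N / q ^ e - 1| ≤
      (1 + |C|) * (K * w) + r * (|C| * w) := add_le_add h6 h7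
    _ = ((1 + |C|) * K + r * |C|) * w := by ring

end

end Q45.HF
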