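import Pool.Agent.Q45.HF.Nag2
import Pool.Agent.Y707.DK.Tau

/-!
# Natural averages of values that tend to a constant
-/

set_option autoImplicit false
set_option maxHeartbeats 1000000

open Polynomial Finset NumberField IsDedekindDomain Filter Topology

namespace Q45.HF

open Pool.Agent.H921R2.TatePole (nm two_le_nm below deg nm_eq nm_summable fiber_card_le fiber_finite)
open Pool.Agent.W353.FB (average_eq)
open Pool.Agent.H126U (VX mem_VX)
open Pool.Agent.H126U.ST Pool.Agent.H126U.JT Pool.Agent.H126V.Taub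

section

variable {k : Type} [Field k] [NumberField k] {r : ℕ}

theorem tau_limit {b : HeightOneSpectrum (𝓞 k) → ℝ} {K : ℝ} (hK : 0 ≤ K)
    (h : ∀ v : HeightOneSpectrum (𝓞 k), |b v - r| ≤ K * (nm v : ℝ) ^ (-(1 / 2) : ℝ))
    (R : Finset (HeightOneSpectrum (𝓞 k))) : Tendsto (Pool.Agent.W353.FB.average R b) atTop (𝓝 (r : ℝ)) := by
  have hbd : ∀ v, |b v| ≤ K + r := by
    intro v
    have h1 : b v = (b v - r) + r := by ring
    rw [h1]
    refine (abs_add_le _ _).trans (add_le_add ((h v).trans ?_)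
      (le_of_eq (abs_of_nonneg (Nat.cast_nonneg r))))
    exact mul_le_of_le_one_right hK (nm_rpow_le_one v)
  have hnr : ∀ v : HeightOneSpectrum (𝓞 k), Pool.Agent.Y707.DK.nrv (1 : (𝓞 k)[X]) v = 0 := by
    intro v
    rw [Pool.Agent.Y707.DK.nrv, Pool.Agent.Y707.DK.nr, Nat.card_eq_zero]
    left
    refine ⟨fun t => ?_⟩
    have h1 := t.2
    rw [eval₂_one] at h1
    exact one_ne_zero h1
  have h1 := Pool.Agent.Y707.DK.natural_nr (F := k) (D := 1) monic_one (by
    rw [Polynomial.map_one]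
    exact separable_one) (b := b) (B := K) (r : ℤ) (Eventually.of_forall fun v => by
      rw [hnr v]
      have hpos : (0 : ℝ) < nm v := by
        have := two_le_nm v
        have : 0 < nm v := by omega
        exact_mod_cast this
      have h2 := mul_le_mul_of_nonneg_right (h v) (Real.sqrt_nonneg (nm v))
      rw [mul_assoc, Real.sqrt_eq_rpow, ← Real.rpow_add hpos, neg_add_cancel, Real.rpow_zero,
        mul_one] at h2
      rw [Real.sqrt_eq_rpow]
      push_cast
      rw [sub_zero]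
      exact h2) hbd R
  have h2 : Pool.Agent.Y707.DK.numFactors ((1 : (𝓞 k)[X]).map (algebraMap (𝓞 k) k)) = 0 := by
    rw [Polynomial.map_one, Pool.Agent.Y707.DK.numFactors, UniqueFactorizationMonoid.factors_one,
      Multiset.card_zero]
  rw [h2] at h1
  simpa using h1

theorem card_norm (n : ℕ) (s : Finset (HeightOneSpectrum (𝓞 k))) (hs : ∀ v ∈ s, nm v = n) :
    s.card ≤ Module.finrank ℚ k := by
  classical
  by_cases h : s.Nonempty
  · obtain ⟨w, hw⟩ := h
    have h1 : ∀ v ∈ s, below v = below w := by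
      intro v hv
      apply Subtype.ext
      change (Ideal.absNorm v.asIdeal).minFac = (Ideal.absNorm w.asIdeal).minFac
      have h2 : Ideal.absNorm v.asIdeal = Ideal.absNorm w.asIdeal := (hs v hv).trans (hs w hw).symm
      rw [h2]
    refine le_trans ?_ (fiber_card_le (K := k) (below w))
    rw [← Fintype.card_coe]
    have hinj : Function.Injective (fun v : s => (⟨v.1, h1 v.1 v.2⟩ :
        {v : HeightOneSpectrum (𝓞 k) // below v = below w})) := by
      intro u v huv
      have h3 := congrArg (fun z : {v : HeightOneSpectrum (𝓞 k) // below v = below w} => z.1) huv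
      exact Subtype.ext h3
    exact Fintype.card_le_of_injective _ hinj
  · rw [not_nonempty_iff_eq_empty] at h
    rw [h, card_empty]
    exact Nat.zero_le _

theorem sum_rsqrt (N : ℕ) : ∑ n ∈ Icc 1 N, (n : ℝ) ^ (-(1 / 2) : ℝ) ≤ 2 * Real.sqrt N := by
  induction N with
  | zero => simp
  | succ N ih =>
    rw [Finset.sum_Icc_succ_top (by omega)]
    have hp : (0 : ℝ) < ((N + 1 : ℕ) : ℝ) := by positivity
    set a : ℝ := Real.sqrt N with ha
    set b : ℝ := Real.sqrt ((N + 1 : ℕ) : ℝ) with hb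
    have hb0 : 0 < b := Real.sqrt_pos.2 hp
    have ha0 : 0 ≤ a := Real.sqrt_nonneg _
    have e1 : ((N + 1 : ℕ) : ℝ) ^ (-(1 / 2) : ℝ) = 1 / b := by
      rw [hb, Real.sqrt_eq_rpow, Real.rpow_neg hp.le, one_div ((((N + 1 : ℕ) : ℝ)) ^ (1 / 2 : ℝ))]
    have e2 : b ^ 2 = a ^ 2 + 1 := by
      rw [hb, ha, Real.sq_sqrt hp.le, Real.sq_sqrt (Nat.cast_nonneg N)]
      push_cast
      ring
    rw [e1]
    have h1 : 1 / b ≤ 2 * (b - a) := by
      rw [div_le_iff₀ hb0]
      nlinarith [sq_nonneg (b - a)]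
    linarith

theorem sum_norm (R : Finset (HeightOneSpectrum (𝓞 k))) (T : ℕ) :
    ∑ v ∈ VS R T, (nm v : ℝ) ^ (-(1 / 2) : ℝ) ≤ 2 * Module.finrank ℚ k * Real.sqrt T := by
  classical
  have hmaps : ∀ v ∈ VS R T, nm v ∈ Icc 1 T := by
    intro v hv
    rw [VS, mem_filter, mem_VX] at hv
    rw [mem_Icc]
    have h2 := two_le_nm v
    exact ⟨by omega, hv.1⟩
  rw [← sum_fiberwise_of_maps_to hmaps]
  have h1 : ∀ n ∈ Icc 1 T, ∑ v ∈ (VS R T).filter (fun v => nm v = n), (nm v : ℝ) ^ (-(1 / 2) : ℝ) ≤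
      Module.finrank ℚ k * (n : ℝ) ^ (-(1 / 2) : ℝ) := by
    intro n _
    rw [sum_congr rfl fun v hv => by rw [(mem_filter.1 hv).2], sum_const, nsmul_eq_mul]
    refine mul_le_mul_of_nonneg_right ?_ (by positivity)
    exact_mod_cast card_norm n _ fun v hv => (mem_filter.1 hv).2
  refine (sum_le_sum h1).trans ?_
  rw [← mul_sum]
  calc (Module.finrank ℚ k : ℝ) * ∑ n ∈ Icc 1 T, (n : ℝ) ^ (-(1 / 2) : ℝ) ≤
      Module.finrank ℚ k * (2 * Real.sqrt T) :=
        mul_le_mul_of_nonneg_left (sum_rsqrt T) (Nat.cast_nonneg _)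
    _ = _ := by ring

/-- the error term -/
theorem tau_error {b : HeightOneSpectrum (𝓞 k) → ℝ} {K : ℝ} (hK : 0 ≤ K)
    (h : ∀ v : HeightOneSpectrum (𝓞 k), |b v - r| ≤ K * (nm v : ℝ) ^ (-(1 / 2) : ℝ))
    (R : Finset (HeightOneSpectrum (𝓞 k))) (T : ℕ) :
    |Pool.Agent.W353.FB.average R b T - r * Pool.Agent.W353.FB.average R (fun _ => 1) T| ≤
      (2 * Module.finrank ℚ k * K) * (Real.log T / Real.sqrt T) := by
  classical
  rcases Nat.eq_zero_or_pos T with hT | hT
  · subst hT
    rw [average_eq, average_eq, LA, LA]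
    simp
  have hTp : (0 : ℝ) < T := by exact_mod_cast hT
  have hs : 0 < Real.sqrt T := Real.sqrt_pos.2 hTp
  have hlog : 0 ≤ Real.log T := Real.log_nonneg (by exact_mod_cast hT)
  rw [average_eq, average_eq, LA, LA]
  have e1 : (∑ v ∈ VS R T, b v * Real.log (nm v)) / (T : ℝ) -
      r * ((∑ v ∈ VS R T, 1 * Real.log (nm v)) / (T : ℝ)) =
      (∑ v ∈ VS R T, (b v - r) * Real.log (nm v)) / T := by
    rw [← mul_div_assoc, mul_sum, ← sub_div, ← sum_sub_distrib]
    congr 1
    exact sum_congr rfl fun v _ => by ring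
  have h1 : |∑ v ∈ VS R T, (b v - r) * Real.log (nm v)| ≤
      K * Real.log T * (2 * Module.finrank ℚ k * Real.sqrt T) := by
    refine (abs_sum_le_sum_abs _ _).trans ?_
    have h2 : ∀ v ∈ VS R T, |(b v - r) * Real.log (nm v)| ≤
        K * Real.log T * (nm v : ℝ) ^ (-(1 / 2) : ℝ) := by
      intro v hv
      rw [VS, mem_filter, mem_VX] at hv
      have h3 : (1 : ℝ) ≤ nm v := by
        have := two_le_nm v
        have : 1 ≤ nm v := by omega
        exact_mod_cast this
      have h4 : Real.log (nm v) ≤ Real.log T :=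
        Real.log_le_log (by linarith) (by exact_mod_cast hv.1)
      rw [abs_mul, abs_of_nonneg (Real.log_nonneg h3)]
      calc |b v - r| * Real.log (nm v) ≤ (K * (nm v : ℝ) ^ (-(1 / 2) : ℝ)) * Real.log T :=
            mul_le_mul (h v) h4 (Real.log_nonneg h3) (by positivity)
        _ = _ := by ring
    refine (sum_le_sum h2).trans ?_
    rw [← mul_sum]
    exact mul_le_mul_of_nonneg_left (sum_norm R T) (by positivity)
  refine (le_of_eq (congrArg _ e1)).trans ?_
  rw [abs_div, abs_of_pos hTp, div_le_iff₀ hTp]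
  refine h1.trans (le_of_eq ?_)
  have e2 : (T : ℝ) = Real.sqrt T * Real.sqrt T := (Real.mul_self_sqrt hTp.le).symm
  have e3 : Real.log T / Real.sqrt T * T = Real.log T * Real.sqrt T := by
    rw [div_mul_eq_mul_div, div_eq_iff hs.ne']
    calc Real.log T * (T : ℝ) = Real.log T * (Real.sqrt T * Real.sqrt T) := by rw [← e2]
      _ = _ := by ring
  rw [mul_assoc (2 * (Module.finrank ℚ k : ℝ) * K), e3]
  ring

end

end Q45.HF
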