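import Pool.Agent.Q45.HF.Nag3

/-!
# Nets of hyperelliptic curves: the sums of the traces of the squares of Frobenius
-/

set_option autoImplicit false
set_option linter.all false

open Polynomial Finset

namespace Q45.HF

open Q45.UH
open Pool.Agent.H341R2.Sharp

section

variable {F E : Type} [Field F] [Fintype F] [DecidableEq F] [Field E] [Fintype E] [DecidableEq E]
  [Algebra F E]

theorem chi_ext (hF : ringChar F ≠ 2) (h2 : Module.finrank F E = 2) (c : F) :
    quadraticChar E (algebraMap F E c) = quadraticChar F c * quadraticChar F c := by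
  by_cases hc : c = 0
  · rw [hc, map_zero]
    simp
  · have hE : ringChar E ≠ 2 := by
      rwa [← Algebra.ringChar_eq F E]
    have hne : algebraMap F E c ≠ 0 := by
      rwa [Ne, FaithfulSMul.algebraMap_eq_zero_iff]
    rw [← sq, quadraticChar_sq_one hc, quadraticChar_one_iff_isSquare hne,
      FiniteField.isSquare_iff hE hne]
    have hcard : Fintype.card E = Fintype.card F ^ 2 := by
      rw [Module.card_eq_pow_finrank (K := F) (V := E), h2]
    have hodd : Fintype.card F % 2 = 1 := FiniteField.odd_card_of_char_ne_two hF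
    obtain ⟨m, hm⟩ : ∃ m, Fintype.card F = 2 * m + 1 := ⟨Fintype.card F / 2, by omega⟩
    have e1 : Fintype.card E / 2 = (Fintype.card F - 1) * (m + 1) := by
      rw [hcard, hm]
      have e2 : (2 * m + 1) ^ 2 = 2 * (2 * m * (m + 1)) + 1 := by ring
      rw [e2, Nat.add_sub_cancel]
      omega
    rw [e1, pow_mul, ← map_pow, FiniteField.pow_card_sub_one_eq_one c hc, map_one, one_pow]

theorem sum_base (hF : ringChar F ≠ 2) (h2 : Module.finrank F E = 2) (G : F[X]) (z : F) :
    ∑ h : Fin 2 → F, quadraticChar E (aeval (algebraMap F E z) (Fh G h)) =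
      (Fintype.card F : ℤ) * ((Fintype.card F : ℤ) - 1) := by
  rw [← S2_diag G z]
  refine sum_congr rfl fun h _ => ?_
  rw [aeval_algebraMap_apply, ← chi_ext hF h2]
  simp

theorem sum_off (hF : ringChar F ≠ 2) (h2 : Module.finrank F E = 2) (G : F[X]) {x : E}
    (hx : ∀ z : F, algebraMap F E z ≠ x) :
    ∑ h : Fin 2 → F, quadraticChar E (aeval x (Fh G h)) = 0 := by
  have hE : ringChar E ≠ 2 := by
    rwa [← Algebra.ringChar_eq F E]
  have hcard : Fintype.card E = Fintype.card F ^ 2 := by
    rw [Module.card_eq_pow_finrank (K := F) (V := E), h2]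
  have hinj : Function.Injective (fun h : Fin 2 → F => aeval x (Fh G h)) := by
    intro h h' hh
    have e1 : ∀ h : Fin 2 → F, aeval x (Fh G h) = aeval x G + algebraMap F E (h 1) * x +
        algebraMap F E (h 0) := by
      intro h
      rw [Fh]
      simp
    change aeval x (Fh G h) = aeval x (Fh G h') at hh
    rw [e1, e1] at hh
    have h1 : h 1 = h' 1 := by
      by_contra hne
      have hne' : h 1 - h' 1 ≠ 0 := sub_ne_zero.2 hne
      apply hx ((h' 0 - h 0) / (h 1 - h' 1))
      have hne'' : algebraMap F E (h 1 - h' 1) ≠ 0 := by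
        rwa [Ne, FaithfulSMul.algebraMap_eq_zero_iff]
      rw [map_div₀, div_eq_iff hne'', map_sub, map_sub]
      linear_combination -hh
    rw [h1] at hh
    have h0 : h 0 = h' 0 := (algebraMap F E).injective (by linear_combination hh)
    funext i
    fin_cases i
    · exact h0
    · exact h1
  have hbij : Function.Bijective (fun h : Fin 2 → F => aeval x (Fh G h)) := by
    rw [Fintype.bijective_iff_injective_and_card]
    refine ⟨hinj, ?_⟩
    rw [hcard, Fintype.card_fun, Fintype.card_fin]
  have h3 := quadraticChar_sum_zero hE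
  rw [← h3]
  exact Fintype.sum_bijective _ hbij _ _ fun h => rfl

/-- the sum of the traces over the quadratic extension -/
theorem sum_T2 (hF : ringChar F ≠ 2) (G : F[X]) : ∑ h : Fin 2 → F, T (Fh G h) 2 =
    (Fintype.card F : ℤ) ^ 2 * ((Fintype.card F : ℤ) - 1) := by
  classical
  obtain ⟨p, hp⟩ := CharP.exists F
  have : Fact (Nat.Prime p) := ⟨CharP.char_is_prime F p⟩
  obtain ⟨E, _, _, _, hfr⟩ : ∃ (E : Type) (_ : Field E) (_ : Fintype E) (_ : Algebra F E),
      Module.finrank F E = 2 :=
    ⟨FiniteField.Extension F p 2, inferInstance, Fintype.ofFinite _, inferInstance,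
      FiniteField.finrank_extension F p 2⟩
  have h1 : ∀ h : Fin 2 → F, T (Fh G h) 2 = ∑ x : E, quadraticChar E (aeval x (Fh G h)) := by
    intro h
    rw [← T_eq_sum (E := E) hF, hfr]
  rw [sum_congr rfl fun h _ => h1 h, sum_comm]
  have h2 : ∀ x : E, ∑ h : Fin 2 → F, quadraticChar E (aeval x (Fh G h)) =
      if x ∈ univ.image (algebraMap F E) then (Fintype.card F : ℤ) * ((Fintype.card F : ℤ) - 1)
      else 0 := by
    intro x
    split_ifs with hx
    · obtain ⟨z, -, rfl⟩ := mem_image.1 hx
      exact sum_base hF hfr G z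
    · refine sum_off hF hfr G fun z hz => hx (mem_image.2 ⟨z, mem_univ _, hz⟩)
  rw [sum_congr rfl fun x _ => h2 x, ← sum_filter, sum_const, nsmul_eq_mul]
  have h3 : (univ.filter fun x : E => x ∈ univ.image (algebraMap F E)).card = Fintype.card F := by
    rw [filter_mem_eq_inter, univ_inter, card_image_of_injective _ (algebraMap F E).injective,
      card_univ]
  rw [h3]
  ring

end

end Q45.HF
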