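import Pool.Agent.Q45.HF.Ns1

/-!
# Nets of hyperelliptic curves: the sums of the traces on the second cohomology of `C ^ a × J ^ b`
-/

set_option autoImplicit false
set_option linter.all false

open Polynomial Finset

namespace Q45.HF

open Q45.UH
open Pool.Agent.H341R2.Sharp

/-- The trace of Frobenius on `Q(-1) ^ a ⊕ (Λ² H¹(C)) ^ b ⊕ (H¹(C) ⊗ H¹(C)) ^ c`, where `C` is the curve
`Y ^ 2 = g(X)` over the finite field `κ` with `q` elements together with one point at infinity: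
`a q + b (t₁² - t₂) / 2 + c t₁²`, where `t_n = q ^ n - #(affine points over
the extension of degree n)` is the trace of the `n`-th power of Frobenius on `H¹(C)`. -/
noncomputable def trH (a b c : ℕ) {κ : Type} [Field κ] (g : κ[X]) : ℝ :=
  a * (Nat.card κ : ℝ) +
    b * ((((Nat.card κ : ℝ) - points g 1) ^ 2 - ((Nat.card κ : ℝ) ^ 2 - points g 2)) / 2) +
    (c : ℝ) * ((Nat.card κ : ℝ) - points g 1) ^ 2

/-- the trace, zero at the bad polynomials -/
noncomputable def wH (a b c : ℕ) {κ : Type} [Field κ] (g : κ[X]) : ℝ :=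
  open Classical in if (2 : κ) ≠ 0 ∧ g.Separable then trH a b c g else 0

section

variable {F : Type} [Field F] [Fintype F] [DecidableEq F]

theorem trH_eq (hF : ringChar F ≠ 2) (a b c : ℕ) (g : F[X]) : trH a b c g =
    a * (Fintype.card F : ℝ) + b * (((SS g : ℝ) ^ 2 + (T g 2 : ℝ)) / 2) +
      (c : ℝ) * (SS g : ℝ) ^ 2 := by
  have h1 := pts_eq hF g 1 le_rfl
  have h2 := pts_eq hF g 2 (by norm_num)
  rw [T_one hF, pow_one] at h1
  have e1 : (Nat.card F : ℝ) - points g 1 = -(SS g : ℝ) := by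
    have : ((SS g : ℤ) : ℝ) = (points g 1 : ℝ) - (Nat.card F : ℝ) := h1.symm
    rw [this]
    ring
  have e2 : (Nat.card F : ℝ) ^ 2 - points g 2 = -(T g 2 : ℝ) := by
    rw [← h2]
    ring
  rw [trH, e1, e2, Nat.card_eq_fintype_card]
  ring

theorem trH_bound (hF : ringChar F ≠ 2) (a b c : ℕ) {g : F[X]} (hg : g.Monic) (hodd : Odd g.natDegree) :
    |trH a b c g| ≤ (a + b * ((g.natDegree : ℝ) ^ 2 + 5 * g.natDegree) +
      (c : ℝ) * (g.natDegree : ℝ) ^ 2) * (Fintype.card F : ℝ) := by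
  rw [trH_eq hF]
  set q : ℝ := (Fintype.card F : ℝ) with hq
  set n : ℝ := (g.natDegree : ℝ) with hn
  have hq0 : 0 ≤ q := by positivity
  have hn0 : 0 ≤ n := by positivity
  have h1 : |(SS g : ℝ)| ≤ n * Real.sqrt q := SS_bound hF hg hodd
  have h2 : |(T g 2 : ℝ)| ≤ (5 * n) * (Real.sqrt q) ^ 2 := by
    have h3 := T_norm hF hg hodd 2 (by norm_num)
    rw [Complex.norm_intCast] at h3
    exact h3
  rw [Real.sq_sqrt hq0] at h2
  have h3 : (SS g : ℝ) ^ 2 ≤ n ^ 2 * q := by
    have h4 := pow_le_pow_left₀ (abs_nonneg _) h1 2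
    rw [sq_abs, mul_pow, Real.sq_sqrt hq0] at h4
    exact h4
  have h5 : 0 ≤ (SS g : ℝ) ^ 2 := sq_nonneg _
  refine (abs_add_le _ _).trans ?_
  refine (add_le_add_left (abs_add_le _ _) _).trans ?_
  have b1 : |(a : ℝ) * q| ≤ a * q := le_of_eq (abs_of_nonneg (by positivity))
  have b2 : |(b : ℝ) * (((SS g : ℝ) ^ 2 + (T g 2 : ℝ)) / 2)| ≤ b * (n ^ 2 + 5 * n) * q := by
    rw [abs_mul, abs_of_nonneg (show (0 : ℝ) ≤ b by positivity), mul_assoc]
    refine mul_le_mul_of_nonneg_left ?_ (by positivity)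
    rw [abs_div, abs_of_pos (show (0 : ℝ) < 2 by norm_num), div_le_iff₀ (by norm_num)]
    refine (abs_add_le _ _).trans ?_
    rw [abs_of_nonneg h5]
    have : 0 ≤ (n ^ 2 + 5 * n) * q := by positivity
    nlinarith
  have b3 : |(c : ℝ) * (SS g : ℝ) ^ 2| ≤
      (c : ℝ) * n ^ 2 * q := by
    rw [abs_mul, abs_of_nonneg (show (0 : ℝ) ≤ (c : ℝ) by positivity),
      abs_of_nonneg h5, mul_assoc]
    exact mul_le_mul_of_nonneg_left h3 (by positivity)
  calc _ ≤ (a : ℝ) * q + b * (n ^ 2 + 5 * n) * q + (c : ℝ) * n ^ 2 * q := by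
        linarith
    _ = _ := by ring

/-- the sum over the net -/
theorem sum_trH (hF : ringChar F ≠ 2) (a b c : ℕ) (G : F[X]) : ∑ h : Fin 2 → F, trH a b c (Fh G h) =
    (a : ℝ) * (Fintype.card F : ℝ) ^ 3 + ((b : ℝ) + (c : ℝ)) *
      ((Fintype.card F : ℝ) ^ 2 * ((Fintype.card F : ℝ) - 1)) := by
  have hS2 : ∑ h : Fin 2 → F, (SS (Fh G h) : ℝ) ^ 2 =
      (Fintype.card F : ℝ) ^ 2 * ((Fintype.card F : ℝ) - 1) := by
    exact_mod_cast S2 hF G
  have hT2 : ∑ h : Fin 2 → F, (T (Fh G h) 2 : ℝ) =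
      (Fintype.card F : ℝ) ^ 2 * ((Fintype.card F : ℝ) - 1) := by
    exact_mod_cast sum_T2 hF G
  rw [sum_congr rfl fun h _ => trH_eq hF a b c (Fh G h)]
  rw [sum_add_distrib, sum_add_distrib, sum_const, card_univ, Fintype.card_fun, Fintype.card_fin,
    ← mul_sum, ← mul_sum, ← sum_div, sum_add_distrib, hS2, hT2, nsmul_eq_mul]
  push_cast
  ring

/-- the number of the bad members, in terms of the condition in `wH` -/
theorem wH_eq (hF : ringChar F ≠ 2) (a b c : ℕ) (g : F[X]) : wH a b c g =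
    trH a b c g - (open Classical in if Squarefree g then (0 : ℝ) else 1) * trH a b c g := by
  have h1 : ((2 : F) ≠ 0 ∧ g.Separable) ↔ Squarefree g := by
    rw [PerfectField.separable_iff_squarefree]
    exact ⟨fun h => h.2, fun h => ⟨two_ne hF, h⟩⟩
  by_cases h : Squarefree g
  · rw [wH, if_pos (h1.2 h), if_pos h]
    ring
  · rw [wH, if_neg (fun h2 => h (h1.1 h2)), if_neg h]
    ring

end

/-- the remainder of order one in the binomial formula -/
theorem taylor1 (n : ℝ) (hn : 0 ≤ n) (r : ℕ) : ∃ B : ℝ, 0 ≤ B ∧ ∀ z : ℝ, |z| ≤ n →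
    |(1 + z) ^ r - 1| ≤ B * |z| := by
  induction r with
  | zero => exact ⟨0, le_rfl, fun z _ => by simp⟩
  | succ r ih =>
    obtain ⟨B, hB, h⟩ := ih
    refine ⟨B * (1 + n) + 1, by positivity, fun z hz => ?_⟩
    have h1 := h z hz
    have e : (1 + z) ^ (r + 1) - 1 = ((1 + z) ^ r - 1) * (1 + z) + z := by ring
    rw [e]
    refine (abs_add_le _ _).trans ?_
    rw [abs_mul]
    have h2 : |1 + z| ≤ 1 + n := by
      refine (abs_add_le _ _).trans ?_
      rw [abs_one]
      linarith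
    have h3 : |(1 + z) ^ r - 1| * |1 + z| ≤ (B * |z|) * (1 + n) :=
      mul_le_mul h1 h2 (abs_nonneg _) (by positivity)
    linarith

/-- the sum over the net with the weights of the fibre power -/
theorem netH (n r a b c : ℕ) : ∃ K : ℝ, 0 ≤ K ∧ ∀ (F : Type) [Field F] [Fintype F] [DecidableEq F],
    ringChar F ≠ 2 → ∀ G : F[X], G.Monic → 3 ≤ G.natDegree → Odd G.natDegree → G.natDegree = n →
    |∑ h : Fin 2 → F, wH a b c (Fh G h) * ((Fintype.card F : ℝ) + SS (Fh G h)) ^ r -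
      (a + b + c : ℕ) * (Fintype.card F : ℝ) ^ (r + 3)| ≤
      K * ((Fintype.card F : ℝ) ^ (r + 2) * Real.sqrt (Fintype.card F)) := by
  obtain ⟨B, hB, hT⟩ := taylor1 n (by positivity) r
  set C : ℝ := a + b * ((n : ℝ) ^ 2 + 5 * n) + (c : ℝ) * (n : ℝ) ^ 2 with hC
  have hC0 : 0 ≤ C := by positivity
  refine ⟨C * (B * n) + (b + (c : ℝ)) + (n + 1) * C, by positivity, ?_⟩
  intro F _ _ _ hF G hG hn3 hodd hGn
  classical
  set q : ℝ := (Fintype.card F : ℝ) with hq
  have hq1 : (1 : ℝ) ≤ q := by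
    rw [hq]
    exact_mod_cast Fintype.card_pos
  have hq0 : 0 < q := by linarith
  set s := Real.sqrt q with hs
  have hs1 : (1 : ℝ) ≤ s := by
    rw [hs, Real.one_le_sqrt]
    exact hq1
  have hs0 : 0 < s := by linarith
  have hss : s * s = q := Real.mul_self_sqrt hq0.le
  have hsq : s ≤ q := by nlinarith
  have hb : ∀ h : Fin 2 → F, |(SS (Fh G h) : ℝ)| ≤ n * s := by
    intro h
    have h1 := Fh_monic hG hn3 h
    have h2 := SS_bound hF h1.1 (by rw [h1.2]; exact hodd)
    rwa [h1.2, hGn, ← hq, ← hs] at h2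
  have ht : ∀ h : Fin 2 → F, |trH a b c (Fh G h)| ≤ C * q := by
    intro h
    have h1 := Fh_monic hG hn3 h
    have h2 := trH_bound hF a b c h1.1 (by rw [h1.2]; exact hodd)
    rwa [h1.2, hGn, ← hq] at h2
  have hw : ∀ h : Fin 2 → F, |wH a b c (Fh G h)| ≤ C * q := by
    intro h
    rw [wH]
    split_ifs
    · exact ht h
    · rw [abs_zero]
      positivity
  have hrem : ∀ h : Fin 2 → F, |(q + SS (Fh G h)) ^ r - q ^ r| ≤ (B * n) * (q ^ r / s) := by
    intro h
    set z : ℝ := (SS (Fh G h) : ℝ) / q with hz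
    have h1 : |z| ≤ n / s := by
      rw [hz, abs_div, abs_of_pos hq0, div_le_div_iff₀ hq0 hs0, ← hss]
      calc |(SS (Fh G h) : ℝ)| * s ≤ (n * s) * s := mul_le_mul_of_nonneg_right (hb h) hs0.le
        _ = n * (s * s) := by ring
    have h2 : |z| ≤ n := h1.trans (div_le_self (by positivity) hs1)
    have e1 : (q + SS (Fh G h)) ^ r - q ^ r = q ^ r * ((1 + z) ^ r - 1) := by
      have e2 : q + (SS (Fh G h) : ℝ) = q * (1 + z) := by
        rw [hz]
        field_simp
      rw [e2, mul_pow]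
      ring
    rw [e1, abs_mul, abs_of_pos (pow_pos hq0 r)]
    calc q ^ r * |(1 + z) ^ r - 1| ≤ q ^ r * (B * |z|) :=
          mul_le_mul_of_nonneg_left (hT z h2) (by positivity)
      _ ≤ q ^ r * (B * (n / s)) := by gcongr
      _ = _ := by ring
  have hcardh : (Fintype.card (Fin 2 → F) : ℝ) = q ^ 2 := by
    rw [Fintype.card_fun, Fintype.card_fin]
    push_cast
    rfl
  have e5 : ∑ h : Fin 2 → F, wH a b c (Fh G h) * (q + SS (Fh G h)) ^ r -
      (a + b + c : ℕ) * q ^ (r + 3) =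
      (∑ h : Fin 2 → F, wH a b c (Fh G h) * ((q + SS (Fh G h)) ^ r - q ^ r) +
      (-((b : ℝ) + (c : ℝ)) * q ^ (r + 2))) -
      q ^ r * ∑ h : Fin 2 → F, (if Squarefree (Fh G h) then (0 : ℝ) else 1) * trH a b c (Fh G h) := by
    have e6 : ∑ h : Fin 2 → F, wH a b c (Fh G h) * (q + SS (Fh G h)) ^ r =
        ∑ h : Fin 2 → F, wH a b c (Fh G h) * ((q + SS (Fh G h)) ^ r - q ^ r) +
        q ^ r * ∑ h : Fin 2 → F, wH a b c (Fh G h) := by
      rw [mul_sum, ← sum_add_distrib]
      exact sum_congr rfl fun h _ => by ring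
    have e7 : ∑ h : Fin 2 → F, wH a b c (Fh G h) = ∑ h : Fin 2 → F, trH a b c (Fh G h) -
        ∑ h : Fin 2 → F, (if Squarefree (Fh G h) then (0 : ℝ) else 1) * trH a b c (Fh G h) := by
      rw [← sum_sub_distrib]
      exact sum_congr rfl fun h _ => wH_eq hF a b c _
    rw [e6, e7, sum_trH hF, ← hq]
    push_cast
    ring
  rw [e5]
  have b1 : |∑ h : Fin 2 → F, wH a b c (Fh G h) * ((q + SS (Fh G h)) ^ r - q ^ r)| ≤
      (C * (B * n)) * (q ^ (r + 2) * s) := by
    refine (abs_sum_le_sum_abs _ _).trans ?_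
    have h1 : ∀ h : Fin 2 → F, |wH a b c (Fh G h) * ((q + SS (Fh G h)) ^ r - q ^ r)| ≤
        (C * q) * ((B * n) * (q ^ r / s)) := by
      intro h
      rw [abs_mul]
      exact mul_le_mul (hw h) (hrem h) (abs_nonneg _) (by positivity)
    refine (sum_le_sum fun h _ => h1 h).trans ?_
    rw [sum_const, card_univ, nsmul_eq_mul, hcardh]
    refine le_of_eq ?_
    have h2 : q / s = s := by
      rw [div_eq_iff hs0.ne', hss]
    calc q ^ 2 * (C * q * (B * n * (q ^ r / s))) = (C * (B * n)) * (q ^ (r + 2) * (q / s)) := by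
          ring
      _ = _ := by rw [h2]
  have b2 : |-((b : ℝ) + (c : ℝ)) * q ^ (r + 2)| ≤
      (b + (c : ℝ)) * (q ^ (r + 2) * s) := by
    rw [abs_mul, abs_neg, abs_of_nonneg (show (0 : ℝ) ≤ (b : ℝ) + (c : ℝ) by positivity),
      abs_of_nonneg (show (0 : ℝ) ≤ q ^ (r + 2) by positivity)]
    exact mul_le_mul_of_nonneg_left (le_mul_of_one_le_right (by positivity) hs1) (by positivity)
  have b3 : |q ^ r * ∑ h : Fin 2 → F, (if Squarefree (Fh G h) then (0 : ℝ) else 1) *
      trH a b c (Fh G h)| ≤ ((n + 1) * C) * (q ^ (r + 2) * s) := by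
    rw [abs_mul, abs_of_nonneg (show (0 : ℝ) ≤ q ^ r by positivity)]
    have h1 := bad G hG hn3
    rw [hGn, ← hq] at h1
    push_cast at h1
    have h2 : |∑ h : Fin 2 → F, (if Squarefree (Fh G h) then (0 : ℝ) else 1) * trH a b c (Fh G h)| ≤
        ((n + 1) * q) * (C * q) := by
      refine (abs_sum_le_sum_abs _ _).trans ?_
      refine le_trans ?_ (mul_le_mul_of_nonneg_right h1 (by positivity))
      rw [sum_mul]
      refine sum_le_sum fun h _ => ?_
      rw [abs_mul]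
      split_ifs
      · simp
      · rw [abs_one]
        exact mul_le_mul_of_nonneg_left (ht h) zero_le_one
    calc q ^ r * |∑ h : Fin 2 → F, (if Squarefree (Fh G h) then (0 : ℝ) else 1) *
          trH a b c (Fh G h)| ≤ q ^ r * (((n + 1) * q) * (C * q)) :=
          mul_le_mul_of_nonneg_left h2 (by positivity)
      _ = ((n + 1) * C) * (q ^ (r + 2) * 1) := by ring
      _ ≤ _ := by
          refine mul_le_mul_of_nonneg_left ?_ (by positivity)
          exact mul_le_mul_of_nonneg_left hs1 (by positivity)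
  refine (abs_sub _ _).trans ((add_le_add ((abs_add_le _ _).trans (add_le_add b1 b2)) b3).trans
    (le_of_eq ?_))
  ring

end Q45.HF
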