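import Pool.Agent.Q45.HF.Ns2

/-!
# Nets of hyperelliptic curves: the averages of the traces on the second cohomology of `C ^ a × J ^ b`
-/

set_option autoImplicit false
set_option linter.all false

open Polynomial Finset NumberField IsDedekindDomain Filter Topology

namespace Q45.HF

open Q45.UH
open Pool.Agent.TH958.FP (RR yR yR_sq)
open Pool.Agent.H921R2.TatePole (nm two_le_nm below deg nm_eq nm_summable fiber_card_le kerPrime
  kerPrime_bijective)
open Pool.Agent.Y707.PR

section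

variable {O τ : Type} [CommRing O] (f : (MvPolynomial τ O)[X]) {r : ℕ}

/-- The trace of Frobenius on `Q(-1) ^ a ⊕ (Λ² H¹(C)) ^ b ⊕ (H¹(C) ⊗ H¹(C)) ^ c` for the curve `C` over the
point `φ` of the base, zero if `C` is not smooth. -/
noncomputable def tH (a b c : ℕ) {κ : Type} [Field κ] (φ : FR f r →+* κ) : ℝ :=
  open Classical in if Good f φ then trH a b c (fib f φ) else 0

theorem tH_eq (a b c : ℕ) {κ : Type} [Field κ] (φ : FR f r →+* κ) : tH f a b c φ = wH a b c (fib f φ) := by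
  by_cases h : Good f φ
  · have h1 : (2 : κ) ≠ 0 ∧ (fib f φ).Separable := h
    rw [tH, wH, if_pos h, if_pos h1]
  · have h1 : ¬ ((2 : κ) ≠ 0 ∧ (fib f φ).Separable) := h
    rw [tH, wH, if_neg h, if_neg h1]

variable (r) in
/-- The fibre average over the point `ψ` of `Spec O` with values in the finite field `κ` with `q`
elements: `q ^ (-m)` times the sum of the traces on the second cohomology over the
points `y` of the base above `ψ` where the fibre is smooth, `m = #τ + r + 2`. -/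
noncomputable def averageH [Fintype τ] (a b c : ℕ) {κ : Type} [Field κ] (ψ : O →+* κ) : ℝ :=
  (∑ᶠ φ : {φ : FR f r →+* κ // φ.comp (base f r) = ψ}, tH f a b c φ.1) /
    (Nat.card κ : ℝ) ^ (Fintype.card τ + r + 2)

/-- the sum over the points above `ψ` of a function of the fibre -/
theorem sum_pointW [Fintype τ] [DecidableEq τ] {F : Type} [Field F] [Fintype F] [DecidableEq F]
    (hF : ringChar F ≠ 2) (ψ : O →+* F) (W : F[X] → ℝ) :
    ∑ᶠ φ : {φ : FR f r →+* F // φ.comp (base f r) = ψ}, W (fib f φ.1) =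
      ∑ u : τ → F, ∑ h : Fin 2 → F,
        W (Fh (gv f ψ u) h) * ((Fintype.card F : ℝ) + SS (Fh (gv f ψ u) h)) ^ r := by
  classical
  have _ := finite_hom (r := r) f ψ
  let _ : Fintype {φ : FR f r →+* F // φ.comp (base f r) = ψ} := Fintype.ofFinite _
  rw [finsum_eq_sum_of_fintype]
  let e1 : {φ : FR f r →+* F // φ.comp (base f r) = ψ} ≃
      Σ v : Idx τ r → F, {y : Fin r → F // ∀ i, y i ^ 2 = MvPolynomial.eval₂Hom ψ v (rad f r i)} :=
    homP f ψ
  have e2 : ∀ φ : {φ : FR f r →+* F // φ.comp (base f r) = ψ}, W (fib f φ.1) =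
      W ((fam f r).map (MvPolynomial.eval₂Hom ψ (e1 φ).1)) := by
    intro φ
    rw [fib]
    rw [comp_eq φ.2]
    rfl
  rw [sum_congr rfl fun φ _ => e2 φ]
  have e3 : ∑ φ : {φ : FR f r →+* F // φ.comp (base f r) = ψ},
      W ((fam f r).map (MvPolynomial.eval₂Hom ψ (e1 φ).1)) =
      ∑ p : (Σ v : Idx τ r → F, {y : Fin r → F //
        ∀ i, y i ^ 2 = MvPolynomial.eval₂Hom ψ v (rad f r i)}),
        W ((fam f r).map (MvPolynomial.eval₂Hom ψ p.1)) :=
    Fintype.sum_equiv e1 _ _ fun φ => rfl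
  rw [e3, Fintype.sum_sigma]
  set A : (Idx τ r → F) → ℝ := fun v => W ((fam f r).map (MvPolynomial.eval₂Hom ψ v)) *
      ∏ i, (Nat.card {y : F // y ^ 2 = (MvPolynomial.eval₂Hom ψ v) (rad f r i)} : ℝ) with hA
  have e4 : ∀ v : Idx τ r → F, ∑ _y : {y : Fin r → F //
      ∀ i, y i ^ 2 = MvPolynomial.eval₂Hom ψ v (rad f r i)},
        W ((fam f r).map (MvPolynomial.eval₂Hom ψ v)) = A v := by
    intro v
    rw [sum_const, card_univ, nsmul_eq_mul, mul_comm, hA]
    congr 1
    have e5 : Nat.card {y : Fin r → F // ∀ i, y i ^ 2 = MvPolynomial.eval₂Hom ψ v (rad f r i)} =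
        ∏ i, Nat.card {y : F // y ^ 2 = MvPolynomial.eval₂Hom ψ v (rad f r i)} := by
      rw [Nat.card_congr (Equiv.subtypePiEquivPi
        (p := fun (i : Fin r) (y : F) => y ^ 2 = MvPolynomial.eval₂Hom ψ v (rad f r i))),
        Nat.card_pi]
    rw [← Nat.card_eq_fintype_card, e5]
    push_cast
    rfl
  rw [sum_congr rfl fun v _ => e4 v]
  have e5 : ∑ v, A v = ∑ h : Fin 2 → F, ∑ u : τ → F, ∑ x : Fin r → F,
      A ((splitE F).symm (h, u, x)) := by
    rw [← Equiv.sum_comp (splitE F).symm A, Fintype.sum_prod_type]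
    exact sum_congr rfl fun h _ => Fintype.sum_prod_type _
  rw [e5, sum_comm]
  refine sum_congr rfl fun u _ => sum_congr rfl fun h _ => ?_
  have e6 : ∀ x : Fin r → F, (fam f r).map (MvPolynomial.eval₂Hom ψ ((splitE F).symm (h, u, x))) =
        Fh (gv f ψ u) h := by
    intro x
    rw [fam_map]
    rfl
  have e7 : ∀ x : Fin r → F, A ((splitE F).symm (h, u, x)) = W (Fh (gv f ψ u) h) *
      ∏ i, ((quadraticChar F ((Fh (gv f ψ u) h).eval (x i)) : ℝ) + 1) := by
    intro x
    rw [hA]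
    simp only
    rw [e6 x]
    congr 1
    refine prod_congr rfl fun i _ => ?_
    rw [rad_map, e6 x]
    have e8 : (MvPolynomial.eval₂Hom ψ ((splitE F).symm (h, u, x)))
        (MvPolynomial.X (some (some (Sum.inr i)))) = x i := by
      rw [MvPolynomial.coe_eval₂Hom, MvPolynomial.eval₂_X]
      rfl
    rw [e8]
    have e9 := card_sqrt hF ((Fh (gv f ψ u) h).eval (x i))
    exact_mod_cast e9
  rw [sum_congr rfl fun x _ => e7 x, ← mul_sum]
  congr 1
  rw [← Fintype.sum_pow (fun z : F => (quadraticChar F ((Fh (gv f ψ u) h).eval z) : ℝ) + 1)]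
  congr 1
  rw [sum_add_distrib, sum_const, card_univ, nsmul_eq_mul, mul_one, add_comm, SS]
  push_cast
  rfl

end

/-- **The fibre average over every point of the ring of constants**, with a constant that depends
on the degree, on `r` and on `a`, `b` only. -/
theorem averageH_bound (d r a b c : ℕ) : ∃ K : ℝ, 0 ≤ K ∧ ∀ (O τ : Type) [CommRing O] [Fintype τ]
    (f : (MvPolynomial τ O)[X]), f.Monic → 3 ≤ f.natDegree → Odd f.natDegree → f.natDegree = d →
    ∀ (F : Type) [Field F] [Finite F], ringChar F ≠ 2 → ∀ ψ : O →+* F,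
      |averageH f r a b c ψ / Nat.card F - (a + b + c : ℕ)| ≤ K * (Nat.card F : ℝ) ^ (-(1 / 2) : ℝ) := by
  classical
  obtain ⟨K, hK, hnet⟩ := netH d r a b c
  refine ⟨K, hK, fun O τ _ _ f hf hn hodd hd F _ _ hF ψ => ?_⟩
  let _ : Fintype F := Fintype.ofFinite F
  have hq : (0 : ℝ) < Fintype.card F := by exact_mod_cast Fintype.card_pos
  have e0 : ∑ᶠ φ : {φ : FR f r →+* F // φ.comp (base f r) = ψ}, tH f a b c φ.1 =
      ∑ᶠ φ : {φ : FR f r →+* F // φ.comp (base f r) = ψ}, wH a b c (fib f φ.1) :=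
    finsum_congr fun φ => tH_eq f a b c φ.1
  rw [averageH, e0, sum_pointW f hF ψ, Nat.card_eq_fintype_card]
  set q : ℝ := (Fintype.card F : ℝ) with hqd
  set cc : ℝ := ((a + b + c : ℕ) : ℝ) with hc
  have h1 : ∀ u : τ → F, |∑ h : Fin 2 → F, wH a b c (Fh (gv f ψ u) h) *
      (q + SS (Fh (gv f ψ u) h)) ^ r - cc * q ^ (r + 3)| ≤ K * (q ^ (r + 2) * Real.sqrt q) := by
    intro u
    have h2 := gv_monic f hf ψ u
    exact hnet F hF (gv f ψ u) h2.1 (by rw [h2.2]; exact hn) (by rw [h2.2]; exact hodd)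
      (h2.2.trans hd)
  have e1 : (∑ u : τ → F, ∑ h : Fin 2 → F, wH a b c (Fh (gv f ψ u) h) *
      (q + SS (Fh (gv f ψ u) h)) ^ r) / q ^ (Fintype.card τ + r + 2) / q - cc =
      (∑ u : τ → F, (∑ h : Fin 2 → F, wH a b c (Fh (gv f ψ u) h) *
      (q + SS (Fh (gv f ψ u) h)) ^ r - cc * q ^ (r + 3))) / q ^ (Fintype.card τ + r + 3) := by
    rw [sum_sub_distrib, sum_const, card_univ, Fintype.card_fun, nsmul_eq_mul, sub_div, div_div,
      ← pow_succ]
    congr 1
    push_cast
    rw [← hqd]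
    field_simp
    ring
  rw [e1, abs_div, abs_of_pos (pow_pos hq _), div_le_iff₀ (pow_pos hq _)]
  refine (abs_sum_le_sum_abs _ _).trans ((sum_le_sum fun u _ => h1 u).trans ?_)
  rw [sum_const, card_univ, Fintype.card_fun, nsmul_eq_mul]
  push_cast
  rw [← hqd, Real.sqrt_eq_rpow]
  have e2 : q ^ (-(1 / 2) : ℝ) * q ^ (Fintype.card τ + r + 3) =
      q ^ Fintype.card τ * (q ^ (r + 2) * q ^ (1 / 2 : ℝ)) := by
    rw [← Real.rpow_natCast, ← Real.rpow_natCast, ← Real.rpow_natCast, ← Real.rpow_add hq,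
      ← Real.rpow_add hq, ← Real.rpow_add hq]
    congr 1
    push_cast
    ring
  rw [mul_assoc, e2]
  apply le_of_eq
  ring

section

variable {k : Type} [Field k] [NumberField k] {O τ : Type} [CommRing O] [Fintype τ]
  (ι : 𝓞 k →+* O) (e : ℕ) (f : (MvPolynomial τ O)[X]) (r : ℕ)

/-- The fibre average `𝔅_v`: `q_v ^ (-m)` times the sum of the traces on the second cohomology
over the points of the base with values in the residue field where the fibre is smooth, for a ring
`O` of dimension `e` over `𝓞 k` and `m = e + #τ + r + 2`. -/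
noncomputable def averageHAt (a b c : ℕ) (v : HeightOneSpectrum (𝓞 k)) : ℝ :=
  (∑ᶠ φ : Above ((base f r).comp ι) v, tH f a b c φ.1) /
    (Nat.card (ResF v) : ℝ) ^ (e + Fintype.card τ + r + 2)

variable {ι e f r}

theorem averageHAt_eq (hι : ι.FiniteType) (a b c : ℕ) (v : HeightOneSpectrum (𝓞 k)) :
    averageHAt ι e f r a b c v =
      (∑ᶠ ψ : Above ι v, averageH f r a b c ψ.1) / (Nat.card (ResF v) : ℝ) ^ e := by
  classical
  have hf1 := finite_above hι v
  let _ : Fintype (Above ι v) := Fintype.ofFinite _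
  have hf2 : ∀ ψ : Above ι v, Finite {φ : FR f r →+* ResF v // φ.comp (base f r) = ψ.1} :=
    fun ψ => finite_hom f ψ.1
  let _ : ∀ ψ : Above ι v, Fintype {φ : FR f r →+* ResF v // φ.comp (base f r) = ψ.1} :=
    fun ψ => Fintype.ofFinite _
  let E : (Σ ψ : Above ι v, {φ : FR f r →+* ResF v // φ.comp (base f r) = ψ.1}) ≃
      Above ((base f r).comp ι) v :=
    { toFun := fun p => ⟨p.2.1, by
        rw [← RingHom.comp_assoc, p.2.2]
        exact p.1.2⟩
      invFun := fun φ => ⟨⟨φ.1.comp (base f r), by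
        rw [RingHom.comp_assoc]
        exact φ.2⟩, ⟨φ.1, rfl⟩⟩
      left_inv := fun p => by
        obtain ⟨⟨ψ, hψ⟩, ⟨φ, hφ⟩⟩ := p
        simp only at hφ
        subst hφ
        rfl
      right_inv := fun φ => rfl }
  let _ : Fintype (Above ((base f r).comp ι) v) := Fintype.ofEquiv _ E
  have hq : (0 : ℝ) < Nat.card (ResF v) := by exact_mod_cast Nat.card_pos
  have e1 : ∑ᶠ φ : Above ((base f r).comp ι) v, tH f a b c φ.1 =
      ∑ ψ : Above ι v, ∑ φ : {φ : FR f r →+* ResF v // φ.comp (base f r) = ψ.1},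
        tH f a b c φ.1 := by
    rw [finsum_eq_sum_of_fintype, ← Fintype.sum_sigma']
    exact (Fintype.sum_equiv E _ _ fun p => rfl).symm
  rw [averageHAt, e1, finsum_eq_sum_of_fintype, sum_div, sum_div]
  refine sum_congr rfl fun ψ _ => ?_
  rw [averageH, finsum_eq_sum_of_fintype, div_div]
  congr 1
  rw [← pow_add]
  congr 1
  omega

/-- almost all primes are odd -/
theorem odd_eventually : ∀ᶠ v : HeightOneSpectrum (𝓞 k) in cofinite, ringChar (ResF v) ≠ 2 := by
  have hfin : Set.Finite {v : HeightOneSpectrum (𝓞 k) | (below v : ℕ) = 2} := by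
    have h1 : Finite {v : HeightOneSpectrum (𝓞 k) // below v = ⟨2, Nat.prime_two⟩} :=
      Pool.Agent.H921R2.TatePole.fiber_finite _
    have h2 : {v : HeightOneSpectrum (𝓞 k) | (below v : ℕ) = 2} =
        {v : HeightOneSpectrum (𝓞 k) | below v = ⟨2, Nat.prime_two⟩} := by
      ext v
      exact ⟨fun h => Subtype.ext h, fun h => congrArg Subtype.val h⟩
    rw [h2]
    exact h1
  rw [Filter.eventually_cofinite]
  refine hfin.subset fun v hv => ?_
  have hv2 : ringChar (ResF v) = 2 := not_not.1 hv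
  exact below_two hv2

/-- the fibre averages over a base which satisfies the estimate of Lang and Weil -/
theorem averageHAt_bound (hι : ι.FiniteType) (hLW : LangWeil ι e) (hf : f.Monic)
    (hn : 3 ≤ f.natDegree) (hodd : Odd f.natDegree) (a b c : ℕ) :
    ∃ K : ℝ, 0 ≤ K ∧ ∀ v : HeightOneSpectrum (𝓞 k),
      |averageHAt ι e f r a b c v / nm v - (a + b + c : ℕ)| ≤ K * (nm v : ℝ) ^ (-(1 / 2) : ℝ) := by
  classical
  obtain ⟨K, hK, hb⟩ := averageH_bound f.natDegree r a b c
  obtain ⟨C, hC⟩ := hLW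
  set cc : ℝ := ((a + b + c : ℕ) : ℝ) with hc
  have hc0 : 0 ≤ cc := by rw [hc]; positivity
  refine all_of_cofinite (K := (1 + |C|) * K + cc * |C|) (by positivity) ?_
  filter_upwards [hC, odd_eventually (k := k)] with v h1 h2
  have hf1 := finite_above hι v
  let _ : Fintype (Above ι v) := Fintype.ofFinite _
  have hq1 : (1 : ℝ) ≤ nm v := by
    have := two_le_nm v
    have : 1 ≤ nm v := by omega
    exact_mod_cast this
  have hq : (0 : ℝ) < nm v := by linarith
  rw [card_ResF] at h1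
  rw [averageHAt_eq hι, card_ResF, finsum_eq_sum_of_fintype]
  rw [Nat.card_eq_fintype_card] at h1
  set q : ℝ := (nm v : ℝ) with hqd
  set N : ℝ := (Fintype.card (Above ι v) : ℝ) with hN
  set w : ℝ := q ^ (-(1 / 2) : ℝ) with hw
  have hw0 : 0 ≤ w := by positivity
  have hw1 : w ≤ 1 := nm_rpow_le_one v
  have e0 : q ^ ((e : ℝ) - 1 / 2) = q ^ e * w := by
    rw [hw, ← Real.rpow_natCast, ← Real.rpow_add hq]
    congr 1
  have hqe : 0 < q ^ e := pow_pos hq e
  have h3 : |N / q ^ e - 1| ≤ |C| * w := by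
    have e1 : N / q ^ e - 1 = (N - q ^ e) / q ^ e := by field_simp
    rw [e1, abs_div, abs_of_pos hqe, div_le_iff₀ hqe]
    refine h1.trans ?_
    rw [e0]
    calc C * (q ^ e * w) ≤ |C| * (q ^ e * w) :=
          mul_le_mul_of_nonneg_right (le_abs_self C) (by positivity)
      _ = |C| * w * q ^ e := by ring
  have h4 : N / q ^ e ≤ 1 + |C| := by
    have h5 := (abs_le.1 h3).2
    have h6 : |C| * w ≤ |C| := mul_le_of_le_one_right (abs_nonneg C) hw1
    linarith
  have h5 : ∀ ψ : Above ι v, |averageH f r a b c ψ.1 / q - cc| ≤ K * w := by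
    intro ψ
    have h6 := hb O τ f hf hn hodd rfl (ResF v) h2 ψ.1
    rwa [card_ResF] at h6
  have e2 : (∑ ψ : Above ι v, averageH f r a b c ψ.1) / q ^ e / q - cc =
      ((∑ ψ : Above ι v, (averageH f r a b c ψ.1 / q - cc)) / q ^ e) + cc * (N / q ^ e - 1) := by
    rw [sum_sub_distrib, sum_const, card_univ, nsmul_eq_mul, ← hN, ← sum_div]
    field_simp
    ring
  rw [e2]
  refine (abs_add_le _ _).trans ?_
  rw [abs_mul, abs_div, abs_of_pos hqe, abs_of_nonneg hc0]
  have h6 : |∑ ψ : Above ι v, (averageH f r a b c ψ.1 / q - cc)| / q ^ e ≤ (1 + |C|) * (K * w) := by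
    rw [div_le_iff₀ hqe]
    refine (abs_sum_le_sum_abs _ _).trans ((sum_le_sum fun ψ _ => h5 ψ).trans ?_)
    rw [sum_const, card_univ, nsmul_eq_mul, ← hN]
    have h7 : N ≤ (1 + |C|) * q ^ e := (div_le_iff₀ hqe).1 h4
    calc N * (K * w) ≤ (1 + |C|) * q ^ e * (K * w) :=
          mul_le_mul_of_nonneg_right h7 (by positivity)
      _ = (1 + |C|) * (K * w) * q ^ e := by ring
  have h7 : cc * |N / q ^ e - 1| ≤ cc * (|C| * w) := mul_le_mul_of_nonneg_left h3 hc0
  calc |∑ ψ : Above ι v, (averageH f r a b c ψ.1 / q - cc)| / q ^ e + cc * |N / q ^ e - 1| ≤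
      (1 + |C|) * (K * w) + cc * (|C| * w) := add_le_add h6 h7
    _ = ((1 + |C|) * K + cc * |C|) * w := by ring

end

section

variable {k : Type} [Field k] [NumberField k]

theorem term_shift (b : HeightOneSpectrum (𝓞 k) → ℝ) (v : HeightOneSpectrum (𝓞 k)) (s : ℂ) :
    (b v : ℂ) * (Real.log (Ideal.absNorm v.asIdeal) : ℂ) * (Ideal.absNorm v.asIdeal : ℂ) ^ (-s) =
      ((b v / nm v : ℝ) : ℂ) * (Real.log (Ideal.absNorm v.asIdeal) : ℂ) *
        (Ideal.absNorm v.asIdeal : ℂ) ^ (-(s - 1)) := by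
  have hne : (Ideal.absNorm v.asIdeal : ℂ) ≠ 0 := by
    have h1 := two_le_nm v
    have h2 : nm v ≠ 0 := by omega
    exact_mod_cast h2
  have e1 : (-(s - 1) : ℂ) = -s + 1 := by ring
  have e2 : (Ideal.absNorm v.asIdeal : ℂ) ^ (-s + 1) =
      (Ideal.absNorm v.asIdeal : ℂ) ^ (-s) * (Ideal.absNorm v.asIdeal : ℂ) := by
    rw [Complex.cpow_add _ _ hne, Complex.cpow_one]
  rw [e1, e2]
  push_cast
  have e3 : ((nm v : ℕ) : ℂ) = (Ideal.absNorm v.asIdeal : ℂ) := rfl
  rw [e3]
  field_simp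

theorem series_shift (R : Finset (HeightOneSpectrum (𝓞 k))) (b : HeightOneSpectrum (𝓞 k) → ℝ) (s : ℂ) :
    series R b s = series R (fun v => b v / nm v) (s - 1) := by
  rw [series, series]
  exact tsum_congr fun v => term_shift b v.1 s

/-- the residue at two -/
theorem residue_two {b : HeightOneSpectrum (𝓞 k) → ℝ} {K : ℝ} {r : ℕ} (hK : 0 ≤ K)
    (h : ∀ v : HeightOneSpectrum (𝓞 k), |b v / nm v - r| ≤ K * (nm v : ℝ) ^ (-(1 / 2) : ℝ))
    (R : Finset (HeightOneSpectrum (𝓞 k))) : HasResidue R b 2 r ∧ ∃ G : ℂ → ℂ,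
      (∀ s : ℂ, 3 / 2 < s.re → AnalyticAt ℂ G s) ∧
      ∀ s : ℂ, 2 < s.re → series R b s = r * series R (fun _ => 1) (s - 1) + G s := by
  obtain ⟨h1, G, hG, h2⟩ := has_residue (b := fun v => b v / nm v) hK h R
  obtain ⟨H, hH, h3⟩ := half_plane (b := fun v => b v / nm v) hK h R
  refine ⟨⟨?_, fun s => G (s - 1), ?_, ?_⟩, fun s => H (s - 1), ?_, ?_⟩
  · intro s hs
    have h4 := h1 (s - 1) (by
      rw [Complex.sub_re, Complex.one_re]
      linarith)
    refine h4.congr fun v => ?_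
    exact (term_shift b v.1 s).symm
  · have e1 : ((2 : ℝ) : ℂ) - 1 = ((1 : ℝ) : ℂ) := by push_cast; ring
    have h4 : AnalyticAt ℂ (fun s : ℂ => s - 1) ((2 : ℝ) : ℂ) := analyticAt_id.sub analyticAt_const
    have h5 : AnalyticAt ℂ G (((2 : ℝ) : ℂ) - 1) := by
      rw [e1]
      exact hG
    exact AnalyticAt.comp' (f := fun s : ℂ => s - 1) h5 h4
  · have h4 : Tendsto (fun s : ℂ => s - 1) (𝓝 ((2 : ℝ) : ℂ)) (𝓝 ((1 : ℝ) : ℂ)) := by
      have e1 : ((1 : ℝ) : ℂ) = ((2 : ℝ) : ℂ) - 1 := by push_cast; ring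
      rw [e1]
      exact (continuous_id.sub continuous_const).tendsto _
    filter_upwards [h4.eventually h2] with s hs hs2
    rw [series_shift, hs (by
      rw [Complex.sub_re, Complex.one_re]
      linarith)]
    push_cast
    congr 2
    ring
  · intro s hs
    have h4 : AnalyticAt ℂ (fun s : ℂ => s - 1) s := analyticAt_id.sub analyticAt_const
    have h5 := hH (s - 1) (by
      rw [Complex.sub_re, Complex.one_re]
      linarith)
    exact AnalyticAt.comp' (f := fun s : ℂ => s - 1) h5 h4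
  · intro s hs
    rw [series_shift]
    exact h3 (s - 1) (by
      rw [Complex.sub_re, Complex.one_re]
      linarith)

end

end Q45.HF
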