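import Pool.Agent.Q45.HF.Fac
import Pool.Agent.Q45.HF.ZetaK
import Pool.Agent.Q45.HF.Fun2
import Pool.Agent.TH958.FP.Dim

/-!
# Fibre powers of nets of hyperelliptic curves over rings of integers: finiteness and dimension
-/

set_option autoImplicit false
set_option maxHeartbeats 1000000

open Polynomial NumberField Finset
open Pool.Agent.H921R2.TatePole (nm R hc R_eq_hc R_le)

namespace Q45.HF

open Q45.UH
open Pool.Agent.TH958.FP (RR yR yR_sq mkR mkR_surj RR_adjoin dim_integral)
open Pool.Agent.TH958.An (Pt Res qy)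

section

variable (k : Type) [Field k] [NumberField k]

/-- the number of the points of the ring of integers -/
theorem card_homs (F : Type) [Field F] [Fintype F] :
    Finite (𝓞 k →+* F) ∧ Nat.card (𝓞 k →+* F) ≤ Module.finrank ℚ k := by
  classical
  let b := RingOfIntegers.basis k
  have hlin : LinearIndependent F (fun φ : 𝓞 k →+* F => (fun x => φ x : 𝓞 k → F)) := by
    have h1 := linearIndependent_monoidHom (𝓞 k) F
    exact h1.comp (fun φ : 𝓞 k →+* F => (φ : 𝓞 k →* F)) (fun φ ψ h => by
      ext x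
      exact congrArg (fun g : 𝓞 k →* F => g x) h)
  have hinj : Function.Injective (fun φ : 𝓞 k →+* F => fun i => φ (b i)) := by
    intro φ ψ h
    ext x
    rw [← b.sum_repr x, map_sum, map_sum]
    refine sum_congr rfl fun i _ => ?_
    rw [map_zsmul, map_zsmul]
    have := congrFun h i
    simp only at this
    rw [this]
  have hfin : Finite (𝓞 k →+* F) := Finite.of_injective _ hinj
  refine ⟨hfin, ?_⟩
  let _ : Fintype (𝓞 k →+* F) := Fintype.ofFinite _
  have hlin2 : LinearIndependent F (fun φ : 𝓞 k →+* F => fun i => φ (b i)) := by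
    rw [Fintype.linearIndependent_iff] at hlin ⊢
    intro c hc
    apply hlin c
    funext x
    have h1 : ∀ i, ∑ φ : 𝓞 k →+* F, c φ * φ (b i) = 0 := by
      intro i
      have := congrFun hc i
      simpa using this
    have h2 : (∑ φ : 𝓞 k →+* F, c φ • (fun x => φ x : 𝓞 k → F)) x =
        ∑ φ : 𝓞 k →+* F, c φ * φ x := by simp
    rw [h2]
    have h3 : ∀ φ : 𝓞 k →+* F, φ x = ∑ i, (b.repr x i : F) * φ (b i) := by
      intro φ
      conv_lhs => rw [← b.sum_repr x]
      rw [map_sum]
      refine sum_congr rfl fun i _ => ?_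
      rw [map_zsmul, zsmul_eq_mul]
    simp only [h3, mul_sum]
    rw [sum_comm]
    refine sum_eq_zero fun i _ => ?_
    have h4 : ∀ φ : 𝓞 k →+* F, c φ * ((b.repr x i : F) * φ (b i)) =
        (b.repr x i : F) * (c φ * φ (b i)) := fun φ => by ring
    simp only [h4]
    rw [← mul_sum, h1, mul_zero]
  have h5 := hlin2.fintype_card_le_finrank
  rw [Module.finrank_fintype_fun_eq_card] at h5
  rw [Nat.card_eq_fintype_card, ← RingOfIntegers.rank k, Module.finrank_eq_card_basis b]
  exact h5

/-- the number of the points over a prime field -/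
theorem card_homs_prime (p : Nat.Primes) (F : Type) [Field F] [Fintype F]
    (hF : Fintype.card F = (p : ℕ)) : Nat.card (𝓞 k →+* F) = R k p := by
  rw [R_eq_hc, hc]
  set e := ZMod.ringEquivOfPrime F p.prop hF
  exact Nat.card_congr ⟨fun φ => (e.symm : F →+* ZMod (p : ℕ)).comp φ,
    fun φ => (e : ZMod (p : ℕ) →+* F).comp φ, fun φ => by ext x; simp, fun φ => by ext x; simp⟩

variable {τ : Type} [Finite τ] (f : (MvPolynomial τ (𝓞 k))[X]) (r : ℕ)

instance ft_FR : Algebra.FiniteType ℤ (FR f r) := by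
  have h1 : Algebra.FiniteType ℤ (𝓞 k) := inferInstance
  have h2 : Algebra.FiniteType ℤ (MvPolynomial (Idx τ r) (𝓞 k)) :=
    Algebra.FiniteType.trans h1 inferInstance
  have h3 : Algebra.FiniteType ℤ (MvPolynomial (Fin r) (MvPolynomial (Idx τ r) (𝓞 k))) :=
    Algebra.FiniteType.trans h2 inferInstance
  have h4 := RingHom.FiniteType.comp_surjective (RingHom.finiteType_algebraMap.2 h3)
    (g := (mkR (rad f r)).toRingHom) (mkR_surj (rad f r))
  have h5 : (mkR (rad f r)).toRingHom.comp
      (algebraMap ℤ (MvPolynomial (Fin r) (MvPolynomial (Idx τ r) (𝓞 k)))) =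
      algebraMap ℤ (FR f r) := RingHom.ext_int _ _
  rw [h5] at h4
  exact RingHom.finiteType_algebraMap.1 h4

theorem dim_O : ringKrullDim (𝓞 k) = 1 := by
  rw [dim_integral (A := ℤ) (B := 𝓞 k) (RingHom.injective_int _),
    IsPrincipalIdealRing.ringKrullDim_eq_one ℤ Int.not_isField]

variable {k f r}

/-- the dimension of the fibre power -/
theorem dim_FR [Fintype τ] (hn : 3 ≤ f.natDegree) :
    ringKrullDim (FR f r) = (Fintype.card τ + r + 3 : ℕ) := by
  have hdom := FR_domain f hn (r := r)
  have hint : Algebra.IsIntegral (MvPolynomial (Idx τ r) (𝓞 k)) (FR f r) := by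
    have h : Algebra.IsIntegral (MvPolynomial (Idx τ r) (𝓞 k))
        (Algebra.adjoin (MvPolynomial (Idx τ r) (𝓞 k)) (Set.range (yR (rad f r)))) := by
      apply Algebra.IsIntegral.adjoin
      rintro _ ⟨i, rfl⟩
      refine ⟨Polynomial.X ^ 2 - Polynomial.C (rad f r i), ?_, ?_⟩
      · exact Polynomial.monic_X_pow_sub_C _ two_ne_zero
      · rw [Polynomial.eval₂_sub, Polynomial.eval₂_pow, Polynomial.eval₂_X, Polynomial.eval₂_C,
          yR_sq, sub_self]
    rw [RR_adjoin] at h
    exact Algebra.IsIntegral.of_surjective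
      ((Subalgebra.topEquiv : (⊤ : Subalgebra (MvPolynomial (Idx τ r) (𝓞 k)) (FR f r))
        ≃ₐ[MvPolynomial (Idx τ r) (𝓞 k)] FR f r) :
        (⊤ : Subalgebra (MvPolynomial (Idx τ r) (𝓞 k)) (FR f r)) →ₐ[MvPolynomial (Idx τ r) (𝓞 k)]
          FR f r) (AlgEquiv.surjective _)
  rw [dim_integral (FR_base_inj f hn), MvPolynomial.ringKrullDim_of_isNoetherianRing,
    dim_O, Nat.card_eq_fintype_card,
    Fintype.card_option, Fintype.card_option, Fintype.card_sum, Fintype.card_fin]
  push_cast
  ring

end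

end Q45.HF
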