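import Pool.Agent.Q45.HF.Hom

/-!
# The traces at the points of the fibre power
-/

set_option autoImplicit false

open Polynomial Finset

namespace Q45.HF

open Q45.UH
open Pool.Agent.TH958.FP (RR yR yR_sq)

section

variable {O τ : Type} [CommRing O] (f : (MvPolynomial τ O)[X]) {r : ℕ}

theorem fib_hom {κ : Type} [Field κ] (φ : FR f r →+* κ) : ∃ (ψ : O →+* κ) (v : Idx τ r → κ),
    fib f φ = Fh (gv f ψ fun t => v (some (some (Sum.inl t)))) ![v none, v (some none)] := by
  refine ⟨(homE (φ.comp (algebraMap (MvPolynomial (Idx τ r) O) (FR f r)))).1,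
    (homE (φ.comp (algebraMap (MvPolynomial (Idx τ r) O) (FR f r)))).2, ?_⟩
  have h1 : φ.comp (algebraMap (MvPolynomial (Idx τ r) O) (FR f r)) = MvPolynomial.eval₂Hom
    (homE (φ.comp (algebraMap (MvPolynomial (Idx τ r) O) (FR f r)))).1
    (homE (φ.comp (algebraMap (MvPolynomial (Idx τ r) O) (FR f r)))).2 :=
    (homE.symm_apply_apply _).symm
  have h2 : fib f φ = (fam f r).map (MvPolynomial.eval₂Hom
    (homE (φ.comp (algebraMap (MvPolynomial (Idx τ r) O) (FR f r)))).1
    (homE (φ.comp (algebraMap (MvPolynomial (Idx τ r) O) (FR f r)))).2) := by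
    rw [← h1]
    rfl
  rw [h2, fam_map]
  rfl

theorem gv_monic {κ : Type} [Field κ] (hf : f.Monic) (ψ : O →+* κ) (u : τ → κ) :
    (gv f ψ u).Monic ∧ (gv f ψ u).natDegree = f.natDegree :=
  ⟨hf.map _, hf.natDegree_map _⟩

theorem fib_monic {κ : Type} [Field κ] (hf : f.Monic) (hn : 3 ≤ f.natDegree)
    (φ : FR f r →+* κ) : (fib f φ).Monic ∧ (fib f φ).natDegree = f.natDegree := by
  obtain ⟨ψ, v, h⟩ := fib_hom f φ
  rw [h]
  have h1 := gv_monic f hf ψ (fun t => v (some (some (Sum.inl t))))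
  have h2 := Fh_monic h1.1 (by rw [h1.2]; exact hn) ![v none, v (some none)]
  exact ⟨h2.1, h2.2.trans h1.2⟩

theorem fib_comp {κ κ' : Type} [Field κ] [Field κ'] (φ : FR f r →+* κ) (ψ : κ →+* κ') :
    fib f (ψ.comp φ) = (fib f φ).map ψ := by
  rw [fib, fib, Polynomial.map_map]
  rfl

theorem good_comp {κ κ' : Type} [Field κ] [Field κ'] (φ : FR f r →+* κ) (ψ : κ →+* κ') :
    Good f (ψ.comp φ) ↔ Good f φ := by
  rw [Good, Good, fib_comp, separable_map]
  have h : (2 : κ') = ψ 2 := (map_ofNat ψ 2).symm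
  rw [h, _root_.map_ne_zero]

/-- the trace, zero at the bad points -/
noncomputable def tF (F : Type) [Field F] (φ : FR f r →+* F) : ℝ :=
  open Classical in
  if Good f φ then (Nat.card F : ℝ) - Nat.card {P : F × F // P.2 ^ 2 = (fib f φ).eval P.1} else 0

theorem tF_inv : Inv (R := FR f r) (fun F _ φ => tF f F φ) := by
  intro F F' _ _ ψ hψ φ
  simp only [tF]
  by_cases h : Good f φ
  · rw [if_pos h, if_pos ((good_comp f φ ψ).2 h)]
    have h1 : Nat.card F = Nat.card F' := Nat.card_eq_of_bijective _ hψ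
    have h2 : Nat.card {P : F × F // P.2 ^ 2 = (fib f φ).eval P.1} =
        Nat.card {P : F' × F' // P.2 ^ 2 = (fib f (ψ.comp φ)).eval P.1} := by
      refine Nat.card_congr (Equiv.subtypeEquiv
        ((Equiv.ofBijective _ hψ).prodCongr (Equiv.ofBijective _ hψ)) fun P => ?_)
      change P.2 ^ 2 = (fib f φ).eval P.1 ↔ (ψ P.2) ^ 2 = (fib f (ψ.comp φ)).eval (ψ P.1)
      rw [fib_comp, eval_map_apply, ← map_pow]
      exact ψ.injective.eq_iff.symm
    rw [h1, h2]
  · rw [if_neg h, if_neg fun h1 => h ((good_comp f φ ψ).1 h1)]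

section

variable {F : Type} [Field F] [Fintype F]

theorem two_ne (hF : ringChar F ≠ 2) : (2 : F) ≠ 0 := Ring.two_ne_zero hF

theorem tF_two (hF : ringChar F = 2) (φ : FR f r →+* F) : tF f F φ = 0 := by
  rw [tF, if_neg]
  intro h
  apply h.1
  have h1 : ((ringChar F : ℕ) : F) = 0 := ringChar.Nat.cast_ringChar
  rw [hF] at h1
  exact_mod_cast h1

theorem card_pts [DecidableEq F] (hF : ringChar F ≠ 2) (g : F[X]) :
    (Nat.card {P : F × F // P.2 ^ 2 = g.eval P.1} : ℝ) = (Fintype.card F : ℝ) + SS g := by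
  have h1 : Nat.card {P : F × F // P.2 ^ 2 = g.eval P.1} =
      ∑ x : F, Nat.card {y : F // y ^ 2 = g.eval x} := by
    rw [← Nat.card_sigma]
    exact Nat.card_congr ⟨fun P => ⟨P.1.1, ⟨P.1.2, P.2⟩⟩, fun P => ⟨(P.1, P.2.1), P.2.2⟩,
      fun _ => rfl, fun _ => rfl⟩
  have h2 : ((Nat.card {P : F × F // P.2 ^ 2 = g.eval P.1} : ℕ) : ℤ) =
      (Fintype.card F : ℤ) + SS g := by
    rw [h1]
    push_cast
    rw [sum_congr rfl fun x _ => card_sqrt hF (g.eval x), sum_add_distrib, sum_const, card_univ,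
      nsmul_eq_mul, mul_one, add_comm, SS]
  exact_mod_cast h2

theorem tF_eq [DecidableEq F] (hF : ringChar F ≠ 2) (φ : FR f r →+* F) :
    tF f F φ = tS (fib f φ) := by
  rw [tF, tS]
  have h1 : Good f φ ↔ Squarefree (fib f φ) := by
    rw [Good, PerfectField.separable_iff_squarefree]
    exact ⟨fun h => h.2, fun h => ⟨two_ne hF, h⟩⟩
  by_cases h : Squarefree (fib f φ)
  · rw [if_pos h, if_pos (h1.2 h), card_pts hF, Nat.card_eq_fintype_card]
    ring
  · rw [if_neg h, if_neg fun h2 => h (h1.1 h2)]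

theorem tF_bound (hf : f.Monic) (hn : 3 ≤ f.natDegree) (hodd : Odd f.natDegree)
    (φ : FR f r →+* F) : |tF f F φ| ≤ f.natDegree * Real.sqrt (Fintype.card F) := by
  classical
  by_cases hF : ringChar F = 2
  · rw [tF_two f hF, abs_zero]
    positivity
  · rw [tF_eq f hF]
    have h1 := fib_monic f hf hn φ
    have h2 := tS_bound hF h1.1 (by rw [h1.2]; exact hodd)
    rwa [h1.2] at h2

end

/-- the sums of the traces over the points with values in a finite field -/
theorem sum_tF [Fintype τ] (hf : f.Monic) (hn : 3 ≤ f.natDegree) (hodd : Odd f.natDegree) (N : ℕ)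
    (hO : ∀ (F : Type) [Field F] [Fintype F], Finite (O →+* F) ∧ Nat.card (O →+* F) ≤ N) :
    ∃ K : ℝ, 0 ≤ K ∧ ∀ (F : Type) [Field F] [Fintype F],
      |∑ᶠ φ : FR f r →+* F, tF f F φ +
        r * Nat.card (O →+* F) * (Fintype.card F : ℝ) ^ ((Fintype.card τ + r + 2 : ℕ) : ℝ)| ≤
        K * (Fintype.card F : ℝ) ^ (((Fintype.card τ + r + 2 : ℕ) : ℝ) - 1 / 2) ∨
      ringChar F = 2 ∧ ∑ᶠ φ : FR f r →+* F, tF f F φ = 0 := by
  classical
  obtain ⟨K, hK, hnet⟩ := net f.natDegree r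
  refine ⟨N * K, by positivity, fun F _ _ => ?_⟩
  obtain ⟨hfin, hcard⟩ := hO F
  let _ : Fintype (O →+* F) := Fintype.ofFinite _
  let _ : Fintype (MvPolynomial (Idx τ r) O →+* F) := Fintype.ofEquiv _ homE.symm
  let _ : Fintype (FR f r →+* F) := Fintype.ofEquiv _ (homR (rad f r)).symm
  by_cases hF : ringChar F = 2
  · right
    refine ⟨hF, ?_⟩
    rw [finsum_eq_sum_of_fintype]
    exact sum_eq_zero fun φ _ => tF_two f hF φ
  · left
    set q : ℝ := (Fintype.card F : ℝ) with hq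
    have hq0 : 0 < q := by
      rw [hq]
      exact_mod_cast Fintype.card_pos
    rw [finsum_eq_sum_of_fintype, sum_congr rfl fun φ _ => tF_eq f hF φ,
      sum_all f hF (fun g => tS g), Nat.card_eq_fintype_card]
    have h1 : ∀ (ψ : O →+* F) (u : τ → F), |∑ h : Fin 2 → F, tS (Fh (gv f ψ u) h) *
        (q + SS (Fh (gv f ψ u) h)) ^ r + r * q ^ (r + 2)| ≤
        K * (q ^ (r + 1) * Real.sqrt q) := by
      intro ψ u
      have h2 := gv_monic f hf ψ u
      exact hnet F hF (gv f ψ u) h2.1 (by rw [h2.2]; exact hn) (by rw [h2.2]; exact hodd) h2.2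
    have e1 : ∑ ψ : O →+* F, ∑ u : τ → F, ∑ h : Fin 2 → F, tS (Fh (gv f ψ u) h) *
        (q + SS (Fh (gv f ψ u) h)) ^ r + r * (Fintype.card (O →+* F) : ℝ) *
          q ^ ((Fintype.card τ + r + 2 : ℕ) : ℝ) =
        ∑ ψ : O →+* F, ∑ u : τ → F, (∑ h : Fin 2 → F, tS (Fh (gv f ψ u) h) *
        (q + SS (Fh (gv f ψ u) h)) ^ r + r * q ^ (r + 2)) := by
      rw [Real.rpow_natCast]
      simp only [sum_add_distrib, sum_const, card_univ, nsmul_eq_mul, Fintype.card_fun]
      push_cast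
      rw [← hq]
      ring
    rw [e1]
    refine (abs_sum_le_sum_abs _ _).trans ?_
    refine (sum_le_sum fun ψ _ => (abs_sum_le_sum_abs _ _).trans
      (sum_le_sum fun u _ => h1 ψ u)).trans ?_
    simp only [sum_const, card_univ, nsmul_eq_mul, Fintype.card_fun]
    rw [Nat.card_eq_fintype_card] at hcard
    have h3 : (Fintype.card (O →+* F) : ℝ) ≤ N := by exact_mod_cast hcard
    have e2 : q ^ (((Fintype.card τ + r + 2 : ℕ) : ℝ) - 1 / 2) =
        q ^ (Fintype.card τ) * (q ^ (r + 1) * Real.sqrt q) := by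
      rw [Real.sqrt_eq_rpow, ← Real.rpow_natCast, ← Real.rpow_natCast, ← Real.rpow_add hq0,
        ← Real.rpow_add hq0]
      congr 1
      push_cast
      ring
    rw [e2]
    push_cast
    rw [← hq]
    calc (Fintype.card (O →+* F) : ℝ) * (q ^ Fintype.card τ * (K * (q ^ (r + 1) * Real.sqrt q))) ≤
        N * (q ^ Fintype.card τ * (K * (q ^ (r + 1) * Real.sqrt q))) := by gcongr
      _ = _ := by ring

end

end Q45.HF
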